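import Mathlib
import Pool.Agent.Lib.MP_8481ed_ag.Val

/-!
# Pairs `(V, D)` where `V` is a blow-up of the projective plane: official definitions

`V` is the blow-up of `ℙ²(ℂ)` at distinct points `p i` (`BlowUp p`: the closed points of `V`, with
the Zariski topology of `MP_8481ed_ag`), and `D` is a reduced divisor whose components are
exceptional curves and strict transforms of lines. `X = V ∖ D`.
-/

open CategoryTheory TopologicalSpace
open scoped LinearAlgebra.Projectivization
open Pool.Agent.Lib.MP_8481ed_ag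

namespace Pool.Agent.Lib.MP_ee7b66_ag

noncomputable section

/-! ## The function field -/

/-- `IsRatFun s`: the element `s` of the fraction field of `ℂ[X₀, X₁, X₂]` is a rational function
on the plane, i.e. a quotient of two forms of the same degree. -/
def IsRatFun (s : Frac ℂ) : Prop :=
  ∃ (n : ℕ) (a b : CoordRing ℂ), a.IsHomogeneous n ∧ b.IsHomogeneous n ∧ b ≠ 0 ∧
    s = toFrac a / toFrac b

lemma IsRatFun.mul {s t : Frac ℂ} (hs : IsRatFun s) (ht : IsRatFun t) : IsRatFun (s * t) := by
  obtain ⟨n, a, b, ha, hb, hb0, rfl⟩ := hs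
  obtain ⟨n', a', b', ha', hb', hb0', rfl⟩ := ht
  exact ⟨n + n', a * a', b * b', ha.mul ha', hb.mul hb', mul_ne_zero hb0 hb0', by
    rw [map_mul, map_mul, div_mul_div_comm]⟩

lemma IsRatFun.add {s t : Frac ℂ} (hs : IsRatFun s) (ht : IsRatFun t) : IsRatFun (s + t) := by
  obtain ⟨n, a, b, ha, hb, hb0, rfl⟩ := hs
  obtain ⟨n', a', b', ha', hb', hb0', rfl⟩ := ht
  refine ⟨n + n', a * b' + b * a', b * b', (ha.mul hb').add (hb.mul ha'), hb.mul hb',
    mul_ne_zero hb0 hb0', ?_⟩
  rw [map_add, map_mul, map_mul, map_mul, div_add_div _ _ (toFrac_ne_zero hb0)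
    (toFrac_ne_zero hb0')]

lemma IsRatFun.const (c : ℂ) : IsRatFun (toFrac (MvPolynomial.C c)) :=
  ⟨0, MvPolynomial.C c, 1, MvPolynomial.isHomogeneous_C _ _, MvPolynomial.isHomogeneous_one _ _,
    one_ne_zero, by rw [map_one, div_one]⟩

lemma IsRatFun.one : IsRatFun 1 := by
  have h := IsRatFun.const 1
  rwa [map_one, map_one] at h

lemma IsRatFun.zero : IsRatFun 0 := by
  have h := IsRatFun.const 0
  rwa [map_zero, map_zero] at h

lemma IsRatFun.neg {s : Frac ℂ} (hs : IsRatFun s) : IsRatFun (-s) := by
  obtain ⟨n, a, b, ha, hb, hb0, rfl⟩ := hs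
  exact ⟨n, -a, b, ha.neg, hb, hb0, by rw [map_neg, neg_div]⟩

lemma IsRatFun.inv {s : Frac ℂ} (hs : IsRatFun s) : IsRatFun s⁻¹ := by
  obtain ⟨n, a, b, ha, hb, hb0, rfl⟩ := hs
  by_cases h : a = 0
  · subst h
    rw [map_zero, zero_div, inv_zero]
    exact IsRatFun.zero
  · exact ⟨n, b, a, hb, ha, h, by rw [inv_div]⟩

/-- The field of rational functions on the plane and on its blow-ups, as a subfield of the fraction
field of `ℂ[X₀, X₁, X₂]`. -/
def funSubfield : Subfield (Frac ℂ) where
  carrier := {s | IsRatFun s}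
  mul_mem' := IsRatFun.mul
  one_mem' := IsRatFun.one
  add_mem' := IsRatFun.add
  zero_mem' := IsRatFun.zero
  neg_mem' := IsRatFun.neg
  inv_mem' := fun _ => IsRatFun.inv

/-- The field of rational functions on the plane and on its blow-ups. -/
def FunField : Type := funSubfield

instance funFieldField : Field FunField := funSubfield.toField

/-- The inclusion of the function field in the fraction field of `ℂ[X₀, X₁, X₂]`. -/
def incl : FunField →+* Frac ℂ := funSubfield.subtype

/-- The constants. -/
def constHom : ℂ →+* FunField :=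
  (toFrac.comp MvPolynomial.C).codRestrict funSubfield IsRatFun.const

instance funFieldAlgebra : Algebra ℂ FunField := constHom.toAlgebra

/-- The coordinate `X₀ / X₂` of the plane. -/
def coordA : FunField :=
  ⟨toFrac (MvPolynomial.X 0) / toFrac (MvPolynomial.X 2), 1, MvPolynomial.X 0,
    MvPolynomial.X 2, MvPolynomial.isHomogeneous_X _ _, MvPolynomial.isHomogeneous_X _ _,
    MvPolynomial.X_ne_zero 2, rfl⟩

/-- The coordinate `X₁ / X₂` of the plane. -/
def coordB : FunField :=
  ⟨toFrac (MvPolynomial.X 1) / toFrac (MvPolynomial.X 2), 1, MvPolynomial.X 1,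
    MvPolynomial.X 2, MvPolynomial.isHomogeneous_X _ _, MvPolynomial.isHomogeneous_X _ _,
    MvPolynomial.X_ne_zero 2, rfl⟩

/-- The rational vector fields: the derivations of the function field over `ℂ`. -/
abbrev VecField : Type := Derivation ℂ FunField FunField

variable {r : ℕ} (p : Fin r → ℙ ℂ (Fin 3 → ℂ))

/-- `Reg p x s`: the rational function `s` is regular at the point `x` of the blow-up. -/
def Reg (x : BlowUp p) (s : FunField) : Prop := IsRegularAt p 0 0 x (incl s)

/-- `Val p x s c`: the rational function `s` is regular at the point `x` of the blow-up and has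
the value `c` there. -/
def Val (x : BlowUp p) (s : FunField) (c : ℂ) : Prop := HasVal x (incl s) c

/-! ## Curves and boundary divisors -/

/-- The curves on the blow-up which may occur in the boundary divisor: strict transforms of lines
(a line of the plane is a two-dimensional subspace of `ℂ³`) and exceptional curves. -/
inductive Curve (r : ℕ) : Type
  /-- the strict transform of the line given by a two-dimensional subspace -/
  | line (Λ : Submodule ℂ (Fin 3 → ℂ))
  /-- the exceptional curve over the `i`-th point -/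
  | exc (i : Fin r)

/-- `On p C x`: the point `x` of the blow-up lies on the curve `C`. The strict transform of a line
`Λ` consists of the points of `Λ` different from the `p i`, and of the points `(p i, Λ)` of the
exceptional curves over the points `p i` on `Λ`. -/
def On : Curve r → BlowUp p → Prop
  | .line Λ, .away q _ => q.submodule ≤ Λ
  | .line Λ, .exc _ L => L.1 = Λ
  | .exc _, .away _ _ => False
  | .exc i, .exc j _ => j = i

/-- The self-intersection number: `1 - #{i | p i ∈ Λ}` for the strict transform of the line `Λ`,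
and `-1` for an exceptional curve. -/
def selfInt : Curve r → ℤ
  | .line Λ => 1 - Nat.card {i : Fin r // (p i).submodule ≤ Λ}
  | .exc _ => -1

/-- A boundary divisor: finitely many strict transforms of lines and exceptional curves. -/
def IsBoundary (𝒟 : Set (Curve r)) : Prop :=
  𝒟.Finite ∧ ∀ Λ, Curve.line Λ ∈ 𝒟 → Module.finrank ℂ Λ = 2

/-- The ideal of a curve in the local ring at `x`: the rational functions which are regular in a
Zariski neighbourhood of `x` and vanish there at all points of the curve. -/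
def InIdeal (C : Curve r) (x : BlowUp p) (s : FunField) : Prop :=
  ∃ U : Set (BlowUp p), IsOpen U ∧ x ∈ U ∧ ∀ y ∈ U, Reg p y s ∧ (On p C y → Val p y s 0)

/-- `Gen p x I u`: the set `I` of rational functions is the ideal generated by `u` in the local
ring at `x`. -/
def Gen (x : BlowUp p) (I : FunField → Prop) (u : FunField) : Prop :=
  ∀ s : FunField, I s ↔ ∃ f : FunField, Reg p x f ∧ s = f * u

/-- `D` has simple normal crossings: at every point `x` of the blow-up the maximal ideal of the
local ring has generators `u`, `v` such that the ideal of every component of `D` through `x` is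
generated by `u` or by `v`, and different components through `x` have different ideals. -/
def IsSNC (𝒟 : Set (Curve r)) : Prop :=
  ∀ x : BlowUp p, ∃ u v : FunField,
    (∀ s : FunField, Val p x s 0 ↔ ∃ f g : FunField, Reg p x f ∧ Reg p x g ∧ s = f * u + g * v) ∧
    (∀ C ∈ 𝒟, On p C x → Gen p x (InIdeal p C x) u ∨ Gen p x (InIdeal p C x) v) ∧
    ∀ C ∈ 𝒟, ∀ C' ∈ 𝒟, On p C x → On p C' x → C ≠ C' →
      ∃ s, InIdeal p C x s ∧ ¬ InIdeal p C' x s

/-- Two curves meet. -/
def Meet (C C' : Curve r) : Prop := ∃ x, On p C x ∧ On p C' x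

/-- `D` is minimal: every component with self-intersection `-1` meets at least three other
components (all the curves considered here are smooth and rational). -/
def IsMinimal (𝒟 : Set (Curve r)) : Prop :=
  ∀ C ∈ 𝒟, selfInt p C = -1 → ∃ C₁ ∈ 𝒟, ∃ C₂ ∈ 𝒟, ∃ C₃ ∈ 𝒟,
    C₁ ≠ C ∧ C₂ ≠ C ∧ C₃ ≠ C ∧ C₁ ≠ C₂ ∧ C₁ ≠ C₃ ∧ C₂ ≠ C₃ ∧
    Meet p C C₁ ∧ Meet p C C₂ ∧ Meet p C C₃

/-! ## The surface `X = V ∖ D` and its classical topology -/

/-- The classical topology on the blow-up: the coarsest topology such that for every rational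
function `g` and every open set `W ⊆ ℂ` the set of points at which `g` is regular with value
in `W` is open. -/
@[instance_reducible] def classical : TopologicalSpace (BlowUp p) :=
  TopologicalSpace.generateFrom {U | ∃ (g : FunField) (W : Set ℂ), IsOpen W ∧
    U = {x | ∃ c ∈ W, Val p x g c}}

/-- The open surface `X = V ∖ D`. -/
def Surface (𝒟 : Set (Curve r)) : Type := {x : BlowUp p // ∀ C ∈ 𝒟, ¬ On p C x}

/-- The point of the blow-up underlying a point of `X`. -/
def Surface.toBlowUp {𝒟 : Set (Curve r)} (x : Surface p 𝒟) : BlowUp p := x.1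

/-- `X` with the classical topology. -/
instance surfaceTopology (𝒟 : Set (Curve r)) : TopologicalSpace (Surface p 𝒟) :=
  (classical p).induced (Surface.toBlowUp p)

/-- `X` is `ℚ`-acyclic: its singular homology with rational coefficients vanishes in all positive
degrees. -/
def IsQAcyclic (𝒟 : Set (Curve r)) : Prop :=
  ∀ n : ℕ, 0 < n → Limits.IsZero
    (((AlgebraicTopology.singularHomologyFunctor (ModuleCat.{0} ℚ) n).obj
      (ModuleCat.of ℚ ℚ)).obj (TopCat.of (Surface p 𝒟)))

/-! ## Logarithmic vector fields and logarithmic pluricanonical forms -/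

/-- `IsLogField p 𝒟 x δ`: the rational vector field `δ` (a derivation of the function field) is
regular at `x` and tangent to `D`: it maps the local ring at `x` to itself and the ideal of every
component of `D` in it to itself. -/
def IsLogField (𝒟 : Set (Curve r)) (x : BlowUp p) (δ : VecField) : Prop :=
  (∀ s : FunField, Reg p x s → Reg p x (δ s)) ∧
    ∀ C ∈ 𝒟, ∀ s : FunField, InIdeal p C x s → InIdeal p C x (δ s)

variable {p}

lemma Reg.zero (x : BlowUp p) : Reg p x 0 := isRegularAt_zero 0 0 x

lemma Reg.add {x : BlowUp p} {s t : FunField} (hs : Reg p x s) (ht : Reg p x t) :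
    Reg p x (s + t) := isRegularAt_add hs ht

lemma Reg.neg {x : BlowUp p} {s : FunField} (hs : Reg p x s) : Reg p x (-s) := isRegularAt_neg hs

lemma Val.zero (x : BlowUp p) : Val p x 0 0 := by
  have h := HasVal.const x (0 : ℂ)
  rw [map_zero] at h
  exact h

lemma Val.add {x : BlowUp p} {s t : FunField} {c c' : ℂ} (hs : Val p x s c) (ht : Val p x t c') :
    Val p x (s + t) (c + c') := HasVal.add hs ht

lemma Val.neg {x : BlowUp p} {s : FunField} {c : ℂ} (hs : Val p x s c) :
    Val p x (-s) (-c) := by
  have h1 := HasVal.mul (HasVal.const x (-1 : ℂ)) hs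
  rw [map_neg, map_one, neg_one_mul, neg_one_mul] at h1
  exact h1

lemma InIdeal.zero (C : Curve r) (x : BlowUp p) : InIdeal p C x 0 :=
  ⟨Set.univ, isOpen_univ, trivial, fun y _ => ⟨Reg.zero y, fun _ => Val.zero y⟩⟩

lemma InIdeal.add {C : Curve r} {x : BlowUp p} {s t : FunField} (hs : InIdeal p C x s)
    (ht : InIdeal p C x t) : InIdeal p C x (s + t) := by
  obtain ⟨U, hU, hxU, h⟩ := hs
  obtain ⟨U', hU', hxU', h'⟩ := ht
  refine ⟨U ∩ U', hU.inter hU', ⟨hxU, hxU'⟩, fun y hy => ⟨(h y hy.1).1.add (h' y hy.2).1,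
    fun hyC => ?_⟩⟩
  have h1 := ((h y hy.1).2 hyC).add ((h' y hy.2).2 hyC)
  rwa [add_zero] at h1

lemma InIdeal.neg {C : Curve r} {x : BlowUp p} {s : FunField} (hs : InIdeal p C x s) :
    InIdeal p C x (-s) := by
  obtain ⟨U, hU, hxU, h⟩ := hs
  refine ⟨U, hU, hxU, fun y hy => ⟨(h y hy).1.neg, fun hyC => ?_⟩⟩
  have h1 := ((h y hy).2 hyC).neg
  rwa [neg_zero] at h1

lemma IsLogField.zero (𝒟 : Set (Curve r)) (x : BlowUp p) : IsLogField p 𝒟 x 0 :=
  ⟨fun _ _ => Reg.zero x, fun C _ _ _ => InIdeal.zero C x⟩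

lemma IsLogField.add {𝒟 : Set (Curve r)} {x : BlowUp p} {δ δ' : VecField}
    (hδ : IsLogField p 𝒟 x δ) (hδ' : IsLogField p 𝒟 x δ') : IsLogField p 𝒟 x (δ + δ') :=
  ⟨fun s hs => (hδ.1 s hs).add (hδ'.1 s hs),
    fun C hC s hs => (hδ.2 C hC s hs).add (hδ'.2 C hC s hs)⟩

lemma IsLogField.neg {𝒟 : Set (Curve r)} {x : BlowUp p} {δ : VecField}
    (hδ : IsLogField p 𝒟 x δ) : IsLogField p 𝒟 x (-δ) :=
  ⟨fun s hs => (hδ.1 s hs).neg, fun C hC s hs => (hδ.2 C hC s hs).neg⟩

variable (p)

/-- The stalk at `x` of the logarithmic tangent sheaf `Θ_V⟨D⟩`, as a subgroup of the group of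
rational vector fields. -/
def logTangent (𝒟 : Set (Curve r)) (x : BlowUp p) : AddSubgroup VecField where
  carrier := {δ | IsLogField p 𝒟 x δ}
  zero_mem' := IsLogField.zero 𝒟 x
  add_mem' := IsLogField.add
  neg_mem' := IsLogField.neg

/-- The cohomology groups `Hⁱ(V, Θ_V⟨D⟩)`: Mathlib's cohomology of the sheaf of rational vector
fields with stalks `logTangent p 𝒟 x`. -/
def logTangentCohomology (𝒟 : Set (Curve r)) (i : ℕ) : Type := cohomology (logTangent p 𝒟) i

/-- The value of the rational two-form `da ∧ db`, where `a = X₀ / X₂` and `b = X₁ / X₂`, on two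
rational vector fields. -/
def area (δ δ' : VecField) : FunField := δ coordA * δ' coordB - δ coordB * δ' coordA

/-- The rational `n`-canonical form `s (da ∧ db)ⁿ` is a global section of `𝒪_V(n(K_V + D))`: its
value on two logarithmic vector fields regular at `x` is regular at `x`, for all `x`. -/
def IsLogCanonical (𝒟 : Set (Curve r)) (n : ℕ) (s : FunField) : Prop :=
  ∀ x : BlowUp p, ∀ δ δ', IsLogField p 𝒟 x δ → IsLogField p 𝒟 x δ' → Reg p x (s * area δ δ' ^ n)

/-- `X = V ∖ D` is of log-general type, i.e. its logarithmic Kodaira dimension is two: for some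
`n > 0` there are sections `f₀ ≠ 0`, `f₁`, `f₂` of `𝒪_V(n(K_V + D))` such that the rational map
`(f₀ : f₁ : f₂)` has a two-dimensional image. -/
def IsLogGeneralType (𝒟 : Set (Curve r)) : Prop :=
  ∃ (n : ℕ) (f₀ f₁ f₂ : FunField), 0 < n ∧ f₀ ≠ 0 ∧ IsLogCanonical p 𝒟 n f₀ ∧
    IsLogCanonical p 𝒟 n f₁ ∧ IsLogCanonical p 𝒟 n f₂ ∧
    AlgebraicIndependent ℂ ![f₁ / f₀, f₂ / f₀]

end

end Pool.Agent.Lib.MP_ee7b66_ag
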