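import Mathlib
import Pool.Agent.Lib.MP_ee7b66_ag.Defs

/-!
# Local algebraic charts of the blow-up

An `LChart` is an open subset `dom` of the blow-up together with two rational functions `u`, `v`
which identify `dom` with the principal open subset `g ≠ 0` of `ℂ²`.
-/

open scoped LinearAlgebra.Projectivization
open Pool.Agent.Lib.MP_8481ed_ag TopologicalSpace MvPolynomial

namespace Pool.Agent.Lib.MP_ee7b66_ag

noncomputable section

/-- A local chart: the open set `dom` is identified with `{g ≠ 0} ⊆ ℂ²` by the coordinates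
`(u, v)`, and every rational function regular at a point of `dom` is a quotient of polynomials in
`u`, `v` with denominator not vanishing at the point. -/
structure LChart {r : ℕ} (p : Fin r → Plane ℂ) where
  u : FunField
  v : FunField
  g : MvPolynomial (Fin 2) ℂ
  dom : Set (BlowUp p)
  crd : BlowUp p → Fin 2 → ℂ
  isOpen : IsOpen dom
  g_ne : ∀ y ∈ dom, eval (crd y) g ≠ 0
  surj : ∀ z, eval z g ≠ 0 → ∃ y ∈ dom, crd y = z
  inj : ∀ y ∈ dom, ∀ y' ∈ dom, crd y = crd y' → y = y'
  val_u : ∀ y ∈ dom, Val p y u (crd y 0)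
  val_v : ∀ y ∈ dom, Val p y v (crd y 1)
  reg : ∀ y ∈ dom, ∀ s, Reg p y s → ∃ P Q : MvPolynomial (Fin 2) ℂ, eval (crd y) Q ≠ 0 ∧
    s * aeval ![u, v] Q = aeval ![u, v] P

namespace LChart

variable {r : ℕ} {p : Fin r → Plane ℂ} (C : LChart p)

/-- Polynomials in the coordinates. -/
def ev : MvPolynomial (Fin 2) ℂ →ₐ[ℂ] FunField := aeval ![C.u, C.v]

end LChart

end

end Pool.Agent.Lib.MP_ee7b66_ag
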