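import Mathlib
import Pool.Agent.Lib.MP_ee7b66_ag.LC

/-! # Charts: values, regular functions, Zariski topology -/

open scoped LinearAlgebra.Projectivization
open Pool.Agent.Lib.MP_8481ed_ag TopologicalSpace MvPolynomial

namespace Pool.Agent.Lib.MP_ee7b66_ag

noncomputable section

variable {r : ℕ} {p : Fin r → Plane ℂ}

lemma Reg.mul {x : BlowUp p} {s t : FunField} (hs : Reg p x s) (ht : Reg p x t) :
    Reg p x (s * t) := isRegularAt_smul (m := 0) hs ht

lemma Val.mul {x : BlowUp p} {s t : FunField} {c c' : ℂ} (hs : Val p x s c) (ht : Val p x t c') :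
    Val p x (s * t) (c * c') := HasVal.mul hs ht

lemma Val.inv {x : BlowUp p} {s : FunField} {c : ℂ} (hs : Val p x s c) (hc : c ≠ 0) :
    Val p x s⁻¹ c⁻¹ := HasVal.inv hs hc

lemma Val.reg {x : BlowUp p} {s : FunField} {c : ℂ} (hs : Val p x s c) : Reg p x s :=
  HasVal.isRegular hs

lemma Val.unique {x : BlowUp p} {s : FunField} {c c' : ℂ} (hs : Val p x s c)
    (hs' : Val p x s c') : c = c' := HasVal.unique hs hs'

lemma Val.const (x : BlowUp p) (c : ℂ) : Val p x (algebraMap ℂ FunField c) c := by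
  have h := HasVal.const x c
  have e : algebraMap ℂ (Frac ℂ) c = incl (algebraMap ℂ FunField c) := by
    rw [IsScalarTower.algebraMap_apply ℂ (CoordRing ℂ) (Frac ℂ)]
    rfl
  rw [e] at h
  exact h

/-- A regular function has a value (with `a`, `b` as in `isRegularAt_iff`, the value is
`lead μ a / lead μ b`). -/
lemma Reg.exists_val {x : BlowUp p} {s : FunField} (hs : Reg p x s) : ∃ c, Val p x s c := by
  have hs' : IsRegularAt p 0 0 x (incl s) := hs
  rw [isRegularAt_iff] at hs'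
  obtain ⟨n, e, μ, a, b, ha, hb, hn, haI, hbI, hbl, hab⟩ := hs'
  have hne : n = e := by omega
  subst hne
  refine ⟨x.lead μ a / x.lead μ b, n, μ, a, b, ha, hb, ?_, hbI, hbl, hab, rfl⟩
  have : ((μ : ℤ) + x.mlt (0 : Fin r → ℤ)).toNat = μ := by
    cases x <;> simp [BlowUp.mlt]
  rwa [this] at haI

namespace LChart

variable (C : LChart p)

/-- Induction on `P` with `Val.const`, `Val.add`, `Val.mul`. -/
lemma val_ev {y : BlowUp p} (hy : y ∈ C.dom) (P : MvPolynomial (Fin 2) ℂ) :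
    Val p y (C.ev P) (eval (C.crd y) P) := by
  induction P using MvPolynomial.induction_on with
  | C a =>
    have h1 : C.ev (MvPolynomial.C a) = algebraMap ℂ FunField a := by
      unfold ev
      rw [aeval_C]
    rw [h1, eval_C]
    exact Val.const y a
  | add P Q hP hQ =>
    rw [map_add, map_add]
    exact hP.add hQ
  | mul_X P i hP =>
    rw [map_mul, map_mul, eval_X]
    refine hP.mul ?_
    have h1 : C.ev (MvPolynomial.X i) = ![C.u, C.v] i := by
      unfold ev
      rw [aeval_X]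
    rw [h1]
    fin_cases i
    · exact C.val_u y hy
    · exact C.val_v y hy

/-- If `P(u, v) = 0` then `P` vanishes on `{g ≠ 0}` by `val_ev`, `surj`, so `g P = 0`. -/
lemma ev_injective (hC : C.g ≠ 0) : Function.Injective C.ev := by
  rw [injective_iff_map_eq_zero]
  intro P hP
  have h1 : C.g * P = 0 := by
    apply MvPolynomial.funext
    intro z
    rw [map_mul, map_zero]
    by_cases hz : eval z C.g = 0
    · rw [hz, zero_mul]
    · obtain ⟨y, hy, rfl⟩ := C.surj z hz
      have h2 := C.val_ev hy P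
      rw [hP] at h2
      rw [Val.unique h2 (Val.zero y), mul_zero]
  rcases mul_eq_zero.1 h1 with h | h
  · exact absurd h hC
  · exact h

lemma g_ne_zero {y : BlowUp p} (hy : y ∈ C.dom) : C.g ≠ 0 := by
  intro h
  have h1 := C.g_ne y hy
  rw [h, map_zero] at h1
  exact h1 rfl

lemma ev_ne_zero {y : BlowUp p} (hy : y ∈ C.dom) {Q : MvPolynomial (Fin 2) ℂ}
    (hQ : eval (C.crd y) Q ≠ 0) : C.ev Q ≠ 0 := by
  intro h
  have h2 := C.val_ev hy Q
  rw [h] at h2
  exact hQ (Val.unique h2 (Val.zero y))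

lemma val_div_ev {y : BlowUp p} (hy : y ∈ C.dom) {P Q : MvPolynomial (Fin 2) ℂ}
    (hQ : eval (C.crd y) Q ≠ 0) :
    Val p y (C.ev P / C.ev Q) (eval (C.crd y) P / eval (C.crd y) Q) := by
  rw [div_eq_mul_inv, div_eq_mul_inv]
  exact (C.val_ev hy P).mul ((C.val_ev hy Q).inv hQ)

lemma reg_iff {y : BlowUp p} (hy : y ∈ C.dom) (s : FunField) :
    Reg p y s ↔ ∃ P Q : MvPolynomial (Fin 2) ℂ, eval (C.crd y) Q ≠ 0 ∧ s = C.ev P / C.ev Q := by
  constructor
  · intro hs
    obtain ⟨P, Q, hQ, h⟩ := C.reg y hy s hs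
    exact ⟨P, Q, hQ, (eq_div_iff (C.ev_ne_zero hy hQ)).2 h⟩
  · rintro ⟨P, Q, hQ, rfl⟩
    exact (C.val_div_ev hy hQ).reg

lemma val_iff {y : BlowUp p} (hy : y ∈ C.dom) (s : FunField) (c : ℂ) :
    Val p y s c ↔ ∃ P Q : MvPolynomial (Fin 2) ℂ, eval (C.crd y) Q ≠ 0 ∧ s = C.ev P / C.ev Q ∧
      c = eval (C.crd y) P / eval (C.crd y) Q := by
  constructor
  · intro hs
    obtain ⟨P, Q, hQ, h⟩ := (C.reg_iff hy s).1 hs.reg
    refine ⟨P, Q, hQ, h, ?_⟩
    rw [h] at hs
    exact Val.unique hs (C.val_div_ev hy hQ)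
  · rintro ⟨P, Q, hQ, rfl, rfl⟩
    exact C.val_div_ev hy hQ

/-- `{h ≠ 0}` is the intersection of `dom` with the domain of regularity of `1 / h(u, v)`. -/
lemma isOpen_basic (h : MvPolynomial (Fin 2) ℂ) :
    IsOpen {y | y ∈ C.dom ∧ eval (C.crd y) h ≠ 0} := by
  by_cases h0 : C.ev h = 0
  · have he : {y | y ∈ C.dom ∧ eval (C.crd y) h ≠ 0} = ∅ := by
      rw [Set.eq_empty_iff_forall_notMem]
      rintro y ⟨hy, hyh⟩
      exact C.ev_ne_zero hy hyh h0
    rw [he]
    exact isOpen_empty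
  · have he : {y | y ∈ C.dom ∧ eval (C.crd y) h ≠ 0} =
        C.dom ∩ {y | incl (C.ev h)⁻¹ ∈ stalk p 0 0 y} := by
      ext y
      constructor
      · rintro ⟨hy, hyh⟩
        exact ⟨hy, ((C.val_ev hy h).inv hyh).reg⟩
      · rintro ⟨hy, hyr⟩
        refine ⟨hy, fun hyh => ?_⟩
        have hr : Reg p y (C.ev h)⁻¹ := hyr
        obtain ⟨c, hc⟩ := hr.exists_val
        have h1 := (C.val_ev hy h).mul hc
        rw [mul_inv_cancel₀ h0, hyh, zero_mul] at h1
        have h2 := Val.const y (1 : ℂ)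
        rw [map_one] at h2
        exact zero_ne_one (Val.unique h1 h2)
    rw [he]
    exact C.isOpen.inter (isOpen_generateFrom_of_mem ⟨_, rfl⟩)

/-- The sets `{h ≠ 0}` form a basis of the Zariski topology of `dom`. Induction over
`generateFrom` as in `exists_form_of_isOpen`: for the domain of regularity of `s` take `h = Q`
with `s Q(u, v) = P(u, v)` (`reg`), for intersections the product. -/
lemma exists_basic {Ω : Set (BlowUp p)} (hΩ : IsOpen Ω) {y : BlowUp p} (hy : y ∈ C.dom)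
    (hyΩ : y ∈ Ω) : ∃ h : MvPolynomial (Fin 2) ℂ, eval (C.crd y) h ≠ 0 ∧
      ∀ y' ∈ C.dom, eval (C.crd y') h ≠ 0 → y' ∈ Ω := by
  induction hΩ with
  | basic s hs =>
    obtain ⟨g, rfl⟩ := hs
    have hyΩ' : IsRegularAt p 0 0 y g := hyΩ
    obtain ⟨n, e, μ, a, b, ha, hb, hn, haI, hbI, hbl, hab⟩ := (isRegularAt_iff 0 0 y g).1 hyΩ'
    have hne : n = e := by omega
    subst hne
    have hrat : IsRatFun g := ⟨n, a, b, ha, hb, y.ne_zero_of_lead hbl, hab⟩
    have hreg : Reg p y (⟨g, hrat⟩ : funSubfield) := hyΩ'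
    obtain ⟨P, Q, hQ, h⟩ := (C.reg_iff hy _).1 hreg
    refine ⟨Q, hQ, fun y' hy' hQ' => ?_⟩
    have h1 : Reg p y' (⟨g, hrat⟩ : funSubfield) := (C.reg_iff hy' _).2 ⟨P, Q, hQ', h⟩
    exact h1
  | univ =>
    exact ⟨1, by rw [map_one]; exact one_ne_zero, fun _ _ _ => trivial⟩
  | inter s t _ _ ih1 ih2 =>
    obtain ⟨h1, hy1, hs1⟩ := ih1 hyΩ.1
    obtain ⟨h2, hy2, hs2⟩ := ih2 hyΩ.2
    refine ⟨h1 * h2, ?_, fun y' hy' h => ?_⟩
    · rw [map_mul]
      exact mul_ne_zero hy1 hy2
    · rw [map_mul] at h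
      exact ⟨hs1 y' hy' (left_ne_zero_of_mul h), hs2 y' hy' (right_ne_zero_of_mul h)⟩
  | sUnion S _ ih =>
    obtain ⟨s, hs, hxs⟩ := hyΩ
    obtain ⟨h, hy1, hs'⟩ := ih s hs hxs
    exact ⟨h, hy1, fun y' hy' hh => ⟨s, hs, hs' y' hy' hh⟩⟩

/-- Shrinking a chart. -/
def restrict (h : MvPolynomial (Fin 2) ℂ) : LChart p where
  u := C.u
  v := C.v
  g := C.g * h
  dom := {y | y ∈ C.dom ∧ eval (C.crd y) h ≠ 0}
  crd := C.crd
  isOpen := C.isOpen_basic h
  g_ne := fun y hy => by
    rw [map_mul]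
    exact mul_ne_zero (C.g_ne y hy.1) hy.2
  surj := fun z hz => by
    rw [map_mul] at hz
    obtain ⟨y, hy, rfl⟩ := C.surj z (left_ne_zero_of_mul hz)
    exact ⟨y, ⟨hy, right_ne_zero_of_mul hz⟩, rfl⟩
  inj := fun y hy y' hy' h => C.inj y hy.1 y' hy'.1 h
  val_u := fun y hy => C.val_u y hy.1
  val_v := fun y hy => C.val_v y hy.1
  reg := fun y hy s hs => C.reg y hy.1 s hs

/-- The substitution `X i ↦ X i + z i`. -/
def shiftLC (z : Fin 2 → ℂ) : MvPolynomial (Fin 2) ℂ →ₐ[ℂ] MvPolynomial (Fin 2) ℂ :=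
  aeval (fun i => MvPolynomial.X i + MvPolynomial.C (z i))

lemma eval_shiftLC (z w : Fin 2 → ℂ) (P : MvPolynomial (Fin 2) ℂ) :
    eval w (shiftLC z P) = eval (w + z) P := by
  induction P using MvPolynomial.induction_on with
  | C a => simp [shiftLC]
  | add P Q hP hQ => rw [map_add, map_add, map_add, hP, hQ]
  | mul_X P i hP =>
    rw [map_mul, map_mul, map_mul, hP, eval_X]
    simp [shiftLC]

lemma aeval_shiftLC (z : Fin 2 → ℂ) (u v : FunField) (P : MvPolynomial (Fin 2) ℂ) :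
    aeval ![u - algebraMap ℂ FunField (z 0), v - algebraMap ℂ FunField (z 1)] (shiftLC z P) =
      aeval ![u, v] P := by
  induction P using MvPolynomial.induction_on with
  | C a =>
    have h : shiftLC z (MvPolynomial.C a) = MvPolynomial.C a := by
      unfold shiftLC
      rw [aeval_C]
      rfl
    rw [h, aeval_C, aeval_C]
  | add P Q hP hQ => rw [map_add, map_add, map_add, hP, hQ]
  | mul_X P i hP =>
    have h : shiftLC z (MvPolynomial.X i) = MvPolynomial.X i + MvPolynomial.C (z i) := by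
      unfold shiftLC
      rw [aeval_X]
    rw [map_mul, map_mul, map_mul, hP, h, map_add, aeval_X, aeval_X, aeval_C]
    fin_cases i
    · simp
    · simp

/-- Translating the coordinates of a chart so that the coordinates of a given point are zero. -/
lemma exists_translate (z : Fin 2 → ℂ) : ∃ C' : LChart p,
    C'.u = C.u - algebraMap ℂ FunField (z 0) ∧ C'.v = C.v - algebraMap ℂ FunField (z 1) ∧
      C'.dom = C.dom ∧ ∀ y, C'.crd y = C.crd y - z := by
  refine ⟨{ u := C.u - algebraMap ℂ FunField (z 0)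
            v := C.v - algebraMap ℂ FunField (z 1)
            g := shiftLC z C.g
            dom := C.dom
            crd := fun y => C.crd y - z
            isOpen := C.isOpen
            g_ne := ?_
            surj := ?_
            inj := ?_
            val_u := ?_
            val_v := ?_
            reg := ?_ }, rfl, rfl, rfl, fun _ => rfl⟩
  · intro y hy
    rw [eval_shiftLC, sub_add_cancel]
    exact C.g_ne y hy
  · intro w hw
    rw [eval_shiftLC] at hw
    obtain ⟨y, hy, hyw⟩ := C.surj _ hw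
    refine ⟨y, hy, ?_⟩
    rw [hyw, add_sub_cancel_right]
  · intro y hy y' hy' h
    exact C.inj y hy y' hy' (sub_left_injective h)
  · intro y hy
    have h1 := (C.val_u y hy).add (Val.const y (z 0)).neg
    rw [← sub_eq_add_neg, ← sub_eq_add_neg] at h1
    exact h1
  · intro y hy
    have h1 := (C.val_v y hy).add (Val.const y (z 1)).neg
    rw [← sub_eq_add_neg, ← sub_eq_add_neg] at h1
    exact h1
  · intro y hy s hs
    obtain ⟨P, Q, hQ, h⟩ := C.reg y hy s hs
    refine ⟨shiftLC z P, shiftLC z Q, ?_, ?_⟩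
    · rw [eval_shiftLC, sub_add_cancel]
      exact hQ
    · rw [aeval_shiftLC, aeval_shiftLC]
      exact h

end LChart

end

end Pool.Agent.Lib.MP_ee7b66_ag
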