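import Mathlib
import Pool.Agent.Lib.MP_ee7b66_ag.Defs

/-!
# The dual Hesse arrangement: nine lines, twelve triple points
-/

open scoped LinearAlgebra.Projectivization
open Pool.Agent.Lib.MP_8481ed_ag

namespace Pool.Agent.Lib.MP_ee7b66_ag

noncomputable section

/-- A primitive cube root of unity. -/
def om : ℂ := (-1 + (Real.sqrt 3 : ℂ) * Complex.I) / 2

lemma om_rel : om ^ 2 + om + 1 = 0 := by
  have h3 : ((Real.sqrt 3 : ℝ) : ℂ) ^ 2 = 3 := by
    rw [← Complex.ofReal_pow, Real.sq_sqrt (by norm_num)]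
    norm_num
  unfold om
  linear_combination (1 / 4 : ℂ) * Complex.I ^ 2 * h3 + (3 / 4 : ℂ) * Complex.I_sq

lemma om_cube : om ^ 3 = 1 := by linear_combination (om - 1) * om_rel

lemma om_ne_zero : om ≠ 0 := by
  intro h
  have := om_rel
  rw [h] at this
  norm_num at this

lemma om_ne_one : om ≠ 1 := by
  intro h
  have := om_rel
  rw [h] at this
  norm_num at this

lemma om_sq_ne_one : om ^ 2 ≠ 1 := by
  intro h
  have h1 := om_rel
  rw [h] at h1
  have h2 : om = -2 := by linear_combination h1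
  rw [h2] at h
  norm_num at h

/-- Vectors representing the twelve triple points. The first four lie on the line `X₀ = X₁`. -/
def pvec : Fin 12 → Fin 3 → ℂ :=
  ![![0, 0, 1], ![1, 1, 1], ![1, 1, om], ![1, 1, om ^ 2], ![1, 0, 0], ![0, 1, 0],
    ![1, om, 1], ![1, om, om], ![1, om, om ^ 2], ![1, om ^ 2, 1], ![1, om ^ 2, om],
    ![1, om ^ 2, om ^ 2]]

lemma pvec_ne_zero (i : Fin 12) : pvec i ≠ 0 := by
  intro h
  have h0 := congrFun h 0
  have h1 := congrFun h 1
  have h2 := congrFun h 2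
  fin_cases i <;> simp_all [pvec]

/-- The twelve triple points. -/
def hp (i : Fin 12) : Plane ℂ := Projectivization.mk ℂ (pvec i) (pvec_ne_zero i)

/-- The coefficients of the equations of the nine lines
`X₀ = ωⁱ X₁` (`0, 1, 2`), `X₁ = ωⁱ X₂` (`3, 4, 5`), `X₂ = ωⁱ X₀` (`6, 7, 8`). -/
def lvec : Fin 9 → Fin 3 → ℂ :=
  ![![1, -1, 0], ![1, -om, 0], ![1, -om ^ 2, 0], ![0, 1, -1], ![0, 1, -om], ![0, 1, -om ^ 2],
    ![-1, 0, 1], ![-om, 0, 1], ![-om ^ 2, 0, 1]]

/-- The linear form with given coefficients. -/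
def lform (c : Fin 3 → ℂ) : CoordRing ℂ := ∑ i, MvPolynomial.C (c i) * MvPolynomial.X i

/-- The plane of `ℂ³` defined by the linear form with given coefficients. -/
def lker (c : Fin 3 → ℂ) : Submodule ℂ (Fin 3 → ℂ) :=
  LinearMap.ker (∑ i, c i • (LinearMap.proj i : (Fin 3 → ℂ) →ₗ[ℂ] ℂ))

/-- The nine lines, as planes of `ℂ³`. -/
def hl (j : Fin 9) : Submodule ℂ (Fin 3 → ℂ) := lker (lvec j)

/-- The boundary divisor: the strict transforms of the nine lines and the exceptional curves over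
the four triple points on the line `X₀ = X₁`. -/
def hD : Set (Curve 12) := {C | (∃ j : Fin 9, C = .line (hl j)) ∨ ∃ i : Fin 12, i.1 < 4 ∧ C = .exc i}

end

end Pool.Agent.Lib.MP_ee7b66_ag
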