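import Mathlib
import Pool.Agent.Lib.MP_ee7b66_ag.LC1
import Pool.Agent.Lib.MP_ee7b66_ag.Witness

/-!
# Frames of linear forms and quotients of linear forms
-/

open scoped LinearAlgebra.Projectivization
open Pool.Agent.Lib.MP_8481ed_ag TopologicalSpace MvPolynomial

namespace Pool.Agent.Lib.MP_ee7b66_ag

noncomputable section

/-- The value of the linear form with coefficients `c`. -/
def lin (c v : Fin 3 → ℂ) : ℂ := ∑ i, c i * v i

lemma eval_lform (c v : Fin 3 → ℂ) : eval v (lform c) = lin c v := by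
  simp [lform, lin]

lemma lform_homog (c : Fin 3 → ℂ) : (lform c).IsHomogeneous 1 := by
  unfold lform
  refine MvPolynomial.IsHomogeneous.sum _ _ _ fun i _ => ?_
  have h := (MvPolynomial.isHomogeneous_C (Fin 3) (c i)).mul (MvPolynomial.isHomogeneous_X ℂ i)
  rwa [zero_add] at h

lemma lin_single (c : Fin 3 → ℂ) (i : Fin 3) : lin c (Pi.single i 1) = c i := by
  unfold lin
  rw [Finset.sum_eq_single i]
  · rw [Pi.single_eq_same, mul_one]
  · intro j _ hj
    rw [Pi.single_eq_of_ne hj, mul_zero]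
  · intro h
    exact absurd (Finset.mem_univ i) h

lemma lform_ne_zero {c : Fin 3 → ℂ} (hc : c ≠ 0) : lform c ≠ 0 := by
  intro h
  apply hc
  funext i
  have h1 := eval_lform c (Pi.single i 1)
  rw [h, map_zero, lin_single] at h1
  exact h1.symm

lemma mem_lker (c v : Fin 3 → ℂ) : v ∈ lker c ↔ lin c v = 0 := by
  rw [lker, LinearMap.mem_ker]
  simp [lin]

lemma finrank_lker {c : Fin 3 → ℂ} (hc : c ≠ 0) : Module.finrank ℂ (lker c) = 2 := by
  have hne : (∑ i, c i • (LinearMap.proj i : (Fin 3 → ℂ) →ₗ[ℂ] ℂ)) ≠ 0 := by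
    intro h
    apply hc
    funext i
    have h1 := LinearMap.congr_fun h (Pi.single i 1)
    have h2 : (∑ i, c i • (LinearMap.proj i : (Fin 3 → ℂ) →ₗ[ℂ] ℂ)) (Pi.single i 1) =
        lin c (Pi.single i 1) := by
      simp [lin]
    rw [h2, lin_single] at h1
    exact h1
  have h := Module.Dual.finrank_ker_add_one_of_ne_zero hne
  rw [Module.finrank_fin_fun] at h
  unfold lker
  omega

/-- Every plane of `ℂ³` is the kernel of a linear form. -/
lemma exists_lker (Λ : Submodule ℂ (Fin 3 → ℂ)) (h : Module.finrank ℂ Λ = 2) :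
    ∃ c : Fin 3 → ℂ, c ≠ 0 ∧ Λ = lker c := by
  have hlt : Λ < ⊤ := by
    rw [lt_top_iff_ne_top]
    rintro rfl
    rw [finrank_top, Module.finrank_fin_fun] at h
    omega
  obtain ⟨f, hf, hle⟩ := Submodule.exists_le_ker_of_lt_top Λ hlt
  have hfv : ∀ v, f v = lin (fun i => f (Pi.single i 1)) v := by
    intro v
    conv_lhs => rw [← Finset.univ_sum_single v]
    rw [map_sum]
    unfold lin
    refine Finset.sum_congr rfl fun i _ => ?_
    have h1 : (Pi.single i (v i) : Fin 3 → ℂ) = v i • Pi.single i 1 := by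
      rw [← Pi.single_smul, smul_eq_mul, mul_one]
    rw [h1, map_smul, smul_eq_mul, mul_comm]
  have hc : (fun i => f (Pi.single i 1)) ≠ 0 := by
    intro h0
    apply hf
    ext v
    simpa using congrFun h0 v
  refine ⟨_, hc, Submodule.eq_of_le_of_finrank_eq ?_ ?_⟩
  · intro v hv
    rw [mem_lker, ← hfv]
    exact hle hv
  · rw [h, finrank_lker hc]

lemma isRatFun_div {n : ℕ} {a b : CoordRing ℂ} (ha : a.IsHomogeneous n) (hb : b.IsHomogeneous n) :
    IsRatFun (toFrac a / toFrac b) := by
  by_cases h : b = 0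
  · rw [h, map_zero, div_zero]
    exact IsRatFun.zero
  · exact ⟨n, a, b, ha, hb, h, rfl⟩

/-- The quotient of two linear forms (zero if the denominator is zero). -/
def lq (c c' : Fin 3 → ℂ) : FunField :=
  ⟨toFrac (lform c) / toFrac (lform c'), isRatFun_div (lform_homog c) (lform_homog c')⟩

lemma incl_lq (c c' : Fin 3 → ℂ) : incl (lq c c') = toFrac (lform c) / toFrac (lform c') := rfl

lemma incl_injective_fr : Function.Injective incl := RingHom.injective incl

lemma incl_algebraMap_fr (a : ℂ) :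
    incl (algebraMap ℂ FunField a) = toFrac (MvPolynomial.C a) := rfl

lemma lq_ne_zero {c c' : Fin 3 → ℂ} (hc : c ≠ 0) (hc' : c' ≠ 0) : lq c c' ≠ 0 := by
  intro h
  have h1 := congrArg incl h
  rw [incl_lq, map_zero] at h1
  exact div_ne_zero (toFrac_ne_zero (lform_ne_zero hc)) (toFrac_ne_zero (lform_ne_zero hc')) h1

lemma lq_mul {c c' c'' : Fin 3 → ℂ} (hc' : c' ≠ 0) : lq c c' * lq c' c'' = lq c c'' := by
  apply incl_injective_fr
  rw [map_mul, incl_lq, incl_lq, incl_lq,
    div_mul_div_cancel₀ (toFrac_ne_zero (lform_ne_zero hc'))]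

lemma lq_self {c : Fin 3 → ℂ} (hc : c ≠ 0) : lq c c = 1 := by
  apply incl_injective_fr
  rw [incl_lq, map_one, div_self (toFrac_ne_zero (lform_ne_zero hc))]

lemma lform_add (c d : Fin 3 → ℂ) : lform (c + d) = lform c + lform d := by
  unfold lform
  rw [← Finset.sum_add_distrib]
  refine Finset.sum_congr rfl fun i _ => ?_
  rw [Pi.add_apply, map_add, add_mul]

lemma lform_smul (a : ℂ) (c : Fin 3 → ℂ) : lform (a • c) = MvPolynomial.C a * lform c := by
  unfold lform
  rw [Finset.mul_sum]
  refine Finset.sum_congr rfl fun i _ => ?_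
  rw [Pi.smul_apply, smul_eq_mul, map_mul, mul_assoc]

lemma lq_add (c d e : Fin 3 → ℂ) : lq (c + d) e = lq c e + lq d e := by
  apply incl_injective_fr
  rw [map_add, incl_lq, incl_lq, incl_lq, lform_add, map_add, add_div]

lemma lq_smul (a : ℂ) (c e : Fin 3 → ℂ) : lq (a • c) e = algebraMap ℂ FunField a * lq c e := by
  apply incl_injective_fr
  rw [map_mul, incl_lq, incl_lq, incl_algebraMap_fr, lform_smul, map_mul, mul_div_assoc]

variable {r : ℕ} {p : Fin r → Plane ℂ}

/-- Values of quotients of linear forms at points outside the exceptional curves. -/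
lemma val_lq_away (q : Plane ℂ) (hq : ∀ i, q ≠ p i) (c c' : Fin 3 → ℂ) (h : lin c' q.rep ≠ 0) :
    Val p (.away q hq) (lq c c') (lin c q.rep / lin c' q.rep) := by
  refine ⟨1, 0, lform c, lform c', lform_homog c, lform_homog c', by simp, by simp, ?_, rfl, ?_⟩
  · rw [BlowUp.lead_zero, eval_lform]
    exact h
  · rw [BlowUp.lead_zero, BlowUp.lead_zero, eval_lform, eval_lform]
    rfl

/-- Values of quotients of linear forms at points of the exceptional curves: first case,
the denominator does not vanish at the point of the plane. -/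
lemma val_lq_exc (i : Fin r) (L : LineThrough (p i)) (c c' : Fin 3 → ℂ)
    (h : lin c' (p i).rep ≠ 0) :
    Val p (.exc i L) (lq c c') (lin c (p i).rep / lin c' (p i).rep) := by
  refine ⟨1, 0, lform c, lform c', lform_homog c, lform_homog c', by simp, by simp, ?_, rfl, ?_⟩
  · rw [BlowUp.lead_zero, eval_lform]
    exact h
  · rw [BlowUp.lead_zero, BlowUp.lead_zero, eval_lform, eval_lform]
    rfl

lemma lin_add_smul_fr (c v w : Fin 3 → ℂ) (α β : ℂ) :
    lin c (α • v + β • w) = α * lin c v + β * lin c w := by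
  unfold lin
  rw [Finset.mul_sum, Finset.mul_sum, ← Finset.sum_add_distrib]
  refine Finset.sum_congr rfl fun i _ => ?_
  rw [Pi.add_apply, Pi.smul_apply, Pi.smul_apply, smul_eq_mul, smul_eq_mul]
  ring

lemma lin_smul_fr (c v : Fin 3 → ℂ) (α : ℂ) : lin c (α • v) = α * lin c v := by
  have h := lin_add_smul_fr c v 0 α 0
  rwa [zero_mul, smul_zero, add_zero, add_zero] at h

lemma coeff_one_linear_fr {l : CoordRing ℂ} (hl : l.IsHomogeneous 1) (v w : Fin 3 → ℂ) :
    (alongLine v w l).coeff 1 = MvPolynomial.eval w l := by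
  have h : l ∈ Submodule.span ℂ (Set.range (MvPolynomial.X : Fin 3 → CoordRing ℂ)) := by
    rw [← MvPolynomial.homogeneousSubmodule_one_eq_span_X]
    exact hl
  clear hl
  induction h using Submodule.span_induction with
  | mem x hx =>
    obtain ⟨i, rfl⟩ := hx
    simp [alongLine, Polynomial.coeff_C]
  | zero => simp
  | add x y _ _ hx hy => rw [map_add, map_add, Polynomial.coeff_add, hx, hy]
  | smul c x _ hx =>
    rw [map_smul, MvPolynomial.smul_eval, Polynomial.coeff_smul, hx, smul_eq_mul]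

lemma lform_mem_pointIdeal {c : Fin 3 → ℂ} {P : Plane ℂ} (h : lin c P.rep = 0) :
    lform c ∈ pointIdeal P := by
  intro v hv
  have hv' : v ∈ P.submodule := hv
  rw [Projectivization.submodule_eq, Submodule.mem_span_singleton] at hv'
  obtain ⟨t, rfl⟩ := hv'
  change eval (t • P.rep) (lform c) = 0
  rw [eval_lform, lin_smul_fr, h, mul_zero]

/-- Values of quotients of linear forms at points of the exceptional curves: second case, both
forms vanish at the point of the plane and the denominator does not vanish on the line. -/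
lemma val_lq_exc' (i : Fin r) (L : LineThrough (p i)) (c c' : Fin 3 → ℂ)
    (h : lin c' (p i).rep = 0) (h' : lin c (p i).rep = 0) (w : Fin 3 → ℂ) (hw : w ∈ L.1)
    (hw' : lin c' w ≠ 0) : Val p (.exc i L) (lq c c') (lin c w / lin c' w) := by
  obtain ⟨α, β, hab⟩ := L.exists_coord w hw
  have h1 : lin c w = β * lin c L.dir := by
    rw [hab, lin_add_smul_fr, h', mul_zero, zero_add]
  have h2 : lin c' w = β * lin c' L.dir := by
    rw [hab, lin_add_smul_fr, h, mul_zero, zero_add]
  rw [h2] at hw'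
  have hl : ∀ d : Fin 3 → ℂ, (BlowUp.exc i L : BlowUp p).lead 1 (lform d) = lin d L.dir := by
    intro d
    have h3 := coeff_one_linear_fr (lform_homog d) (p i).rep L.dir
    rw [eval_lform] at h3
    exact h3
  refine ⟨1, 1, lform c, lform c', lform_homog c, lform_homog c', ?_, ?_, ?_, rfl, ?_⟩
  · rw [pow_one]
    exact lform_mem_pointIdeal h'
  · rw [pow_one]
    exact lform_mem_pointIdeal h
  · rw [hl]
    exact right_ne_zero_of_mul hw'
  · rw [hl, hl, h1, h2, mul_div_mul_left _ _ (left_ne_zero_of_mul hw')]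

/-- A frame: three linearly independent linear forms. -/
structure Frame where
  c : Matrix (Fin 3) (Fin 3) ℂ
  det_ne : c.det ≠ 0

namespace Frame

variable (F : Frame)

lemma row_ne_zero (j : Fin 3) : F.c j ≠ 0 := by
  intro h
  exact F.det_ne (Matrix.det_eq_zero_of_row_eq_zero j fun i => congrFun h i)

/-- The polynomial expressing a form in terms of the frame, dehomogenised:
`X_i ↦ ∑ j, (c⁻¹) i j * Y_j` with `Y_0 = 1`. -/
def dh : CoordRing ℂ →ₐ[ℂ] MvPolynomial (Fin 2) ℂ :=
  aeval (fun i => MvPolynomial.C (F.c⁻¹ i 0) + MvPolynomial.C (F.c⁻¹ i 1) * MvPolynomial.X 0 +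
    MvPolynomial.C (F.c⁻¹ i 2) * MvPolynomial.X 1)

lemma isUnit_det_fr : IsUnit F.c.det := isUnit_iff_ne_zero.2 F.det_ne

lemma lin_eq_mulVec_fr (v : Fin 3 → ℂ) : (fun j => lin (F.c j) v) = F.c.mulVec v := by
  funext j
  rfl

/-- The coordinates of a vector from the values of the forms of the frame. -/
lemma sum_inv_lin (v : Fin 3 → ℂ) (i : Fin 3) : ∑ j, F.c⁻¹ i j * lin (F.c j) v = v i := by
  have h1 : F.c⁻¹.mulVec (F.c.mulVec v) = v := by
    rw [Matrix.mulVec_mulVec, Matrix.nonsing_inv_mul _ F.isUnit_det_fr, Matrix.one_mulVec]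
  have h2 := congrFun h1 i
  rw [← lin_eq_mulVec_fr] at h2
  exact h2

/-- The variables from the forms of the frame. -/
lemma sum_inv_lform (i : Fin 3) :
    ∑ j, MvPolynomial.C (F.c⁻¹ i j) * lform (F.c j) = (MvPolynomial.X i : CoordRing ℂ) := by
  apply MvPolynomial.funext
  intro v
  rw [map_sum, eval_X, ← F.sum_inv_lin v i]
  refine Finset.sum_congr rfl fun j _ => ?_
  rw [map_mul, eval_C, eval_lform]

/-- `a / M ^ n = (dh a)(U / M, V / M)` for a form `a` of degree `n`. -/
lemma incl_aeval_dh {n : ℕ} {a : CoordRing ℂ} (ha : a.IsHomogeneous n) :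
    incl (aeval ![lq (F.c 1) (F.c 0), lq (F.c 2) (F.c 0)] (F.dh a)) =
      toFrac a / toFrac (lform (F.c 0)) ^ n := by
  have h0 : toFrac (lform (F.c 0)) ≠ 0 := toFrac_ne_zero (lform_ne_zero (F.row_ne_zero 0))
  have key : ∀ b : CoordRing ℂ,
      incl (aeval ![lq (F.c 1) (F.c 0), lq (F.c 2) (F.c 0)] (F.dh b)) =
        eval₂ (toFrac.comp MvPolynomial.C)
          (fun i => (toFrac (lform (F.c 0)))⁻¹ * toFrac (MvPolynomial.X i)) b := by
    intro b
    induction b using MvPolynomial.induction_on with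
    | C a =>
      have h1 : F.dh (MvPolynomial.C a) = MvPolynomial.C a := by
        unfold dh
        rw [aeval_C]
        rfl
      rw [h1, aeval_C, eval₂_C]
      rfl
    | add P Q hP hQ => rw [map_add, map_add, map_add, hP, hQ, eval₂_add]
    | mul_X P i hP =>
      have h1 : F.dh (MvPolynomial.X i) = MvPolynomial.C (F.c⁻¹ i 0) +
          MvPolynomial.C (F.c⁻¹ i 1) * MvPolynomial.X 0 +
            MvPolynomial.C (F.c⁻¹ i 2) * MvPolynomial.X 1 := by
        unfold dh
        rw [aeval_X]
      have h2 : incl (aeval ![lq (F.c 1) (F.c 0), lq (F.c 2) (F.c 0)]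
          (F.dh (MvPolynomial.X i))) =
            (toFrac (lform (F.c 0)))⁻¹ * toFrac (MvPolynomial.X i) := by
        rw [h1, ← F.sum_inv_lform i, Fin.sum_univ_three]
        simp only [map_add, map_mul, aeval_C, aeval_X, incl_algebraMap_fr, Matrix.cons_val_zero,
          Matrix.cons_val_one, incl_lq]
        field_simp
      rw [map_mul, map_mul, map_mul, hP, eval₂_mul, eval₂_X, h2]
  have h2 : ∀ b : CoordRing ℂ, eval₂ (toFrac.comp MvPolynomial.C)
      (fun i => toFrac (MvPolynomial.X i)) b = toFrac b := by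
    intro b
    induction b using MvPolynomial.induction_on with
    | C a => rw [eval₂_C]; rfl
    | add P Q hP hQ => rw [eval₂_add, map_add, hP, hQ]
    | mul_X P i hP => rw [eval₂_mul, eval₂_X, map_mul, hP]
  rw [key, eval₂_smul_homog _ ha, inv_pow, div_eq_inv_mul, h2 a]

/-- Evaluation of `dh a` at the coordinates of a vector. -/
lemma eval_dh {n : ℕ} {a : CoordRing ℂ} (ha : a.IsHomogeneous n) (v : Fin 3 → ℂ)
    (hv : lin (F.c 0) v ≠ 0) :
    eval ![lin (F.c 1) v / lin (F.c 0) v, lin (F.c 2) v / lin (F.c 0) v] (F.dh a) =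
      eval v a / lin (F.c 0) v ^ n := by
  have key : ∀ b : CoordRing ℂ,
      eval ![lin (F.c 1) v / lin (F.c 0) v, lin (F.c 2) v / lin (F.c 0) v] (F.dh b) =
        eval ((lin (F.c 0) v)⁻¹ • v) b := by
    intro b
    induction b using MvPolynomial.induction_on with
    | C a =>
      have h1 : F.dh (MvPolynomial.C a) = MvPolynomial.C a := by
        unfold dh
        rw [aeval_C]
        rfl
      rw [h1, eval_C, eval_C]
    | add P Q hP hQ => rw [map_add, map_add, map_add, hP, hQ]
    | mul_X P i hP =>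
      have h1 : F.dh (MvPolynomial.X i) = MvPolynomial.C (F.c⁻¹ i 0) +
          MvPolynomial.C (F.c⁻¹ i 1) * MvPolynomial.X 0 +
            MvPolynomial.C (F.c⁻¹ i 2) * MvPolynomial.X 1 := by
        unfold dh
        rw [aeval_X]
      have h2 : eval ![lin (F.c 1) v / lin (F.c 0) v, lin (F.c 2) v / lin (F.c 0) v]
          (F.dh (MvPolynomial.X i)) = (lin (F.c 0) v)⁻¹ * v i := by
        rw [h1, ← F.sum_inv_lin v i, Fin.sum_univ_three]
        simp only [map_add, map_mul, eval_C, eval_X, Matrix.cons_val_zero, Matrix.cons_val_one]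
        field_simp
      rw [map_mul, map_mul, map_mul, hP, eval_X, h2, Pi.smul_apply, smul_eq_mul]
  rw [key, eval_smul_homog ha, inv_pow, div_eq_inv_mul]

/-- The vector with given coordinates. -/
def vecOf (y : Fin 3 → ℂ) : Fin 3 → ℂ := F.c⁻¹.mulVec y

lemma lin_vecOf (y : Fin 3 → ℂ) (j : Fin 3) : lin (F.c j) (F.vecOf y) = y j := by
  have h1 : F.c.mulVec (F.c⁻¹.mulVec y) = y := by
    rw [Matrix.mulVec_mulVec, Matrix.mul_nonsing_inv _ F.isUnit_det_fr, Matrix.one_mulVec]
  have h2 := congrFun h1 j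
  exact h2

lemma vecOf_lin (v : Fin 3 → ℂ) : F.vecOf (fun j => lin (F.c j) v) = v := by
  rw [lin_eq_mulVec_fr]
  unfold vecOf
  rw [Matrix.mulVec_mulVec, Matrix.nonsing_inv_mul _ F.isUnit_det_fr, Matrix.one_mulVec]

end Frame

end

end Pool.Agent.Lib.MP_ee7b66_ag
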