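import Mathlib
import Pool.Agent.Lib.MP_ee7b66_ag.Frame

/-!
# Charts around points outside the exceptional curves
-/

open scoped LinearAlgebra.Projectivization
open Pool.Agent.Lib.MP_8481ed_ag TopologicalSpace MvPolynomial

namespace Pool.Agent.Lib.MP_ee7b66_ag

noncomputable section

variable {r : ℕ} {p : Fin r → Plane ℂ}

/-- A form `h` such that all the blown up points outside the line `M = 0` are zeros of `h`. -/
def Kills (p : Fin r → Plane ℂ) (M : Fin 3 → ℂ) (h : CoordRing ℂ) : Prop :=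
  ∀ i, eval (p i).rep h = 0 ∨ lin M (p i).rep = 0

/-- The powers of the coordinates divided by a form `b` are regular exactly where `b` does not
vanish. -/
lemma lc8_reg_iff {n : ℕ} {b : CoordRing ℂ} (hb : b.IsHomogeneous n) (hb0 : b ≠ 0)
    (y : BlowUp p) : (∀ i : Fin 3, IsRegularAt p 0 0 y (toFrac (X i ^ n) / toFrac b)) ↔
      eval y.vec b ≠ 0 := by
  have hmlt : ∀ μ : ℕ, ((μ : ℤ) + y.mlt (0 : Fin r → ℤ)).toNat = μ := by
    intro μ
    cases y <;> simp [BlowUp.mlt]
  have hX : ∀ i : Fin 3, (X i ^ n : CoordRing ℂ).IsHomogeneous n := by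
    intro i
    have := (isHomogeneous_X ℂ i).pow n
    rwa [one_mul] at this
  constructor
  · intro h hby
    obtain ⟨i, hi⟩ := exists_linear_ne_zero y.vec y.vec_ne_zero
    have h1 := h i
    rw [isRegularAt_iff] at h1
    obtain ⟨n', e, μ, a, b', ha, hb', hn, haI, hbI, hbl, hab⟩ := h1
    rw [hmlt μ] at haI
    have h2 := toFrac_ne_zero hb0
    have h3 := toFrac_ne_zero (y.ne_zero_of_lead hbl)
    have h4 : toFrac (X i ^ n * b') = toFrac (b * a) := by
      rw [map_mul, map_mul]
      rw [div_eq_div_iff h2 h3] at hab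
      rw [hab]
      ring
    have h5 := toFrac_injective h4
    have h6 : y.lead (0 + μ) (X i ^ n * b') = y.lead (0 + μ) (b * a) := by rw [h5]
    rw [y.lead_mul (by simp) hbI, y.lead_mul (by simp) haI, y.lead_zero, y.lead_zero, hby,
      zero_mul, map_pow] at h6
    exact mul_ne_zero (pow_ne_zero _ hi) hbl h6
  · intro hby i
    rw [isRegularAt_iff]
    refine ⟨n, n, 0, X i ^ n, b, hX i, hb, by simp, ?_, by simp, ?_, rfl⟩
    · rw [hmlt 0]
      simp
    · rw [y.lead_zero]
      exact hby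

/-- The set of points at which a nonzero form does not vanish is open. -/
lemma lc8_isOpen {n : ℕ} {b : CoordRing ℂ} (hb : b.IsHomogeneous n) :
    IsOpen {y : BlowUp p | eval y.vec b ≠ 0} := by
  by_cases hb0 : b = 0
  · have : {y : BlowUp p | eval y.vec b ≠ 0} = ∅ := by
      ext y
      simp [hb0]
    rw [this]
    exact isOpen_empty
  · have : {y : BlowUp p | eval y.vec b ≠ 0} =
        ⋂ i : Fin 3, {y : BlowUp p | (toFrac (X i ^ n) / toFrac b : Frac ℂ) ∈ stalk p 0 0 y} := by
      ext y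
      rw [Set.mem_iInter]
      exact (lc8_reg_iff hb hb0 y).symm
    rw [this]
    exact isOpen_iInter_of_finite fun i => isOpen_generateFrom_of_mem ⟨_, rfl⟩

lemma lc8_lin_smul (c v : Fin 3 → ℂ) (t : ℂ) : lin c (t • v) = t * lin c v := by
  simp only [lin, Pi.smul_apply, smul_eq_mul, Finset.mul_sum]
  exact Finset.sum_congr rfl fun i _ => by ring

lemma lc8_lin_zero (c : Fin 3 → ℂ) : lin c 0 = 0 := by
  simp [lin]

namespace Frame

variable (F : Frame)

/-- The domain of the chart: points outside the exceptional curves with `M ≠ 0`, `h ≠ 0`. -/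
def awayDom (h : CoordRing ℂ) : BlowUp p → Prop
  | .away q _ => lin (F.c 0) q.rep ≠ 0 ∧ eval q.rep h ≠ 0
  | .exc _ _ => False

/-- The coordinates `(U / M, V / M)`. -/
def awayCrd : BlowUp p → Fin 2 → ℂ
  | .away q _ => ![lin (F.c 1) q.rep / lin (F.c 0) q.rep, lin (F.c 2) q.rep / lin (F.c 0) q.rep]
  | .exc _ _ => 0

/-- The domain is the set of points at which `Xᵢⁿ⁺¹ / (h M)` is regular for all `i`. -/
lemma away_isOpen {n : ℕ} {h : CoordRing ℂ} (hh : h.IsHomogeneous n) (hk : Kills p (F.c 0) h) :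
    IsOpen {y : BlowUp p | F.awayDom h y} := by
  have h1 : {y : BlowUp p | F.awayDom h y} = {y : BlowUp p | eval y.vec (h * lform (F.c 0)) ≠ 0} := by
    ext y
    cases y with
    | away q hq =>
      change (lin (F.c 0) q.rep ≠ 0 ∧ eval q.rep h ≠ 0) ↔ eval q.rep (h * lform (F.c 0)) ≠ 0
      rw [map_mul, eval_lform, mul_ne_zero_iff, and_comm]
    | exc i L =>
      change False ↔ eval (p i).rep (h * lform (F.c 0)) ≠ 0
      rw [map_mul, eval_lform, mul_ne_zero_iff]
      constructor
      · exact False.elim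
      · rintro ⟨h1, h2⟩
        rcases hk i with h3 | h3
        · exact h1 h3
        · exact h2 h3
  rw [h1]
  exact lc8_isOpen (hh.mul (lform_homog _))

lemma away_g_ne {n : ℕ} {h : CoordRing ℂ} (hh : h.IsHomogeneous n) (y : BlowUp p)
    (hy : F.awayDom h y) : eval (F.awayCrd y) (F.dh h) ≠ 0 := by
  cases y with
  | away q hq =>
    change eval ![lin (F.c 1) q.rep / lin (F.c 0) q.rep, lin (F.c 2) q.rep / lin (F.c 0) q.rep]
      (F.dh h) ≠ 0
    rw [F.eval_dh hh q.rep hy.1]
    exact div_ne_zero hy.2 (pow_ne_zero _ hy.1)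
  | exc i L => exact hy.elim

lemma away_surj {n : ℕ} {h : CoordRing ℂ} (hh : h.IsHomogeneous n) (hk : Kills p (F.c 0) h)
    (z : Fin 2 → ℂ) (hz : eval z (F.dh h) ≠ 0) :
    ∃ y : BlowUp p, F.awayDom h y ∧ F.awayCrd y = z := by
  have hl : ∀ j, lin (F.c j) (F.vecOf ![1, z 0, z 1]) = ![1, z 0, z 1] j := F.lin_vecOf _
  have hl0 : lin (F.c 0) (F.vecOf ![1, z 0, z 1]) = 1 := hl 0
  have hl1 : lin (F.c 1) (F.vecOf ![1, z 0, z 1]) = z 0 := hl 1
  have hl2 : lin (F.c 2) (F.vecOf ![1, z 0, z 1]) = z 1 := hl 2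
  set v : Fin 3 → ℂ := F.vecOf ![1, z 0, z 1] with hv
  have hv0 : v ≠ 0 := by
    intro h0
    rw [h0, lc8_lin_zero] at hl0
    exact zero_ne_one hl0
  have hvh : eval v h ≠ 0 := by
    have h1 := F.eval_dh hh v (by rw [hl0]; exact one_ne_zero)
    rw [hl0, hl1, hl2, div_one, div_one, one_pow, div_one] at h1
    rw [← h1]
    have h2 : (![z 0, z 1] : Fin 2 → ℂ) = z := by
      funext j
      fin_cases j <;> rfl
    rw [h2]
    exact hz
  obtain ⟨c, hc⟩ := Projectivization.exists_smul_eq_mk_rep ℂ v hv0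
  have hrep : (Projectivization.mk ℂ v hv0).rep = (c : ℂ) • v := by
    rw [← hc, Units.smul_def]
  have hc0 : (c : ℂ) ≠ 0 := c.ne_zero
  have hq0 : lin (F.c 0) (Projectivization.mk ℂ v hv0).rep ≠ 0 := by
    rw [hrep, lc8_lin_smul, hl0, mul_one]
    exact hc0
  have hqh : eval (Projectivization.mk ℂ v hv0).rep h ≠ 0 := by
    rw [Ne, eval_rep_mk hh v hv0]
    exact hvh
  refine ⟨.away (Projectivization.mk ℂ v hv0) ?_, ⟨hq0, hqh⟩, ?_⟩
  · intro i hi
    rcases hk i with h3 | h3
    · rw [← hi] at h3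
      exact hqh h3
    · rw [← hi] at h3
      exact hq0 h3
  · change ![lin (F.c 1) (Projectivization.mk ℂ v hv0).rep /
        lin (F.c 0) (Projectivization.mk ℂ v hv0).rep,
      lin (F.c 2) (Projectivization.mk ℂ v hv0).rep /
        lin (F.c 0) (Projectivization.mk ℂ v hv0).rep] = z
    rw [hrep, lc8_lin_smul, lc8_lin_smul, lc8_lin_smul, hl0, hl1, hl2, mul_one,
      mul_div_cancel_left₀ _ hc0, mul_div_cancel_left₀ _ hc0]
    funext j
    fin_cases j <;> rfl

lemma lc8_vecOf_smul (y : Fin 3 → ℂ) (t : ℂ) : F.vecOf (t • y) = t • F.vecOf y := by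
  unfold vecOf
  rw [Matrix.mulVec_smul]

lemma away_inj {h : CoordRing ℂ} (y y' : BlowUp p) (hy : F.awayDom h y) (hy' : F.awayDom h y')
    (e : F.awayCrd y = F.awayCrd y') : y = y' := by
  cases y with
  | exc i L => exact hy.elim
  | away q hq =>
    cases y' with
    | exc i L => exact hy'.elim
    | away q' hq' =>
      have e0 : lin (F.c 1) q.rep / lin (F.c 0) q.rep = lin (F.c 1) q'.rep / lin (F.c 0) q'.rep :=
        congrFun e 0
      have e1 : lin (F.c 2) q.rep / lin (F.c 0) q.rep = lin (F.c 2) q'.rep / lin (F.c 0) q'.rep :=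
        congrFun e 1
      have h0 : lin (F.c 0) q.rep ≠ 0 := hy.1
      have h0' : lin (F.c 0) q'.rep ≠ 0 := hy'.1
      have key0 : (fun j => lin (F.c j) q.rep) =
          (lin (F.c 0) q.rep / lin (F.c 0) q'.rep) • (fun j => lin (F.c j) q'.rep) := by
        funext j
        rw [div_eq_div_iff h0 h0'] at e0 e1
        fin_cases j
        · change lin (F.c 0) q.rep = lin (F.c 0) q.rep / lin (F.c 0) q'.rep * lin (F.c 0) q'.rep
          field_simp
        · change lin (F.c 1) q.rep = lin (F.c 0) q.rep / lin (F.c 0) q'.rep * lin (F.c 1) q'.rep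
          field_simp
          linear_combination e0
        · change lin (F.c 2) q.rep = lin (F.c 0) q.rep / lin (F.c 0) q'.rep * lin (F.c 2) q'.rep
          field_simp
          linear_combination e1
      have key : q.rep = (lin (F.c 0) q.rep / lin (F.c 0) q'.rep) • q'.rep :=
        calc q.rep = F.vecOf (fun j => lin (F.c j) q.rep) := (F.vecOf_lin _).symm
          _ = F.vecOf ((lin (F.c 0) q.rep / lin (F.c 0) q'.rep) •
              (fun j => lin (F.c j) q'.rep)) := congrArg F.vecOf key0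
          _ = (lin (F.c 0) q.rep / lin (F.c 0) q'.rep) •
              F.vecOf (fun j => lin (F.c j) q'.rep) := F.lc8_vecOf_smul _ _
          _ = (lin (F.c 0) q.rep / lin (F.c 0) q'.rep) • q'.rep :=
              congrArg _ (F.vecOf_lin _)
      have hqq : q = q' := by
        rw [← q.mk_rep, ← q'.mk_rep, Projectivization.mk_eq_mk_iff']
        exact ⟨_, key.symm⟩
      subst hqq
      rfl

lemma away_reg {h : CoordRing ℂ} (y : BlowUp p) (hy : F.awayDom h y) (s : FunField)
    (hs : Reg p y s) : ∃ P Q : MvPolynomial (Fin 2) ℂ, eval (F.awayCrd y) Q ≠ 0 ∧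
      s * aeval ![lq (F.c 1) (F.c 0), lq (F.c 2) (F.c 0)] Q =
        aeval ![lq (F.c 1) (F.c 0), lq (F.c 2) (F.c 0)] P := by
  cases y with
  | exc i L => exact hy.elim
  | away q hq =>
    obtain ⟨n, e, a, b, ha, hb, hn, hbq, hab⟩ := hs
    have hne : n = e := by
      rw [add_zero] at hn
      exact_mod_cast hn
    subst hne
    refine ⟨F.dh a, F.dh b, ?_, ?_⟩
    · change eval ![lin (F.c 1) q.rep / lin (F.c 0) q.rep, lin (F.c 2) q.rep / lin (F.c 0) q.rep]
        (F.dh b) ≠ 0
      rw [F.eval_dh hb q.rep hy.1]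
      exact div_ne_zero hbq (pow_ne_zero _ hy.1)
    · apply incl.injective
      exact (map_mul incl s _).trans ((congrArg (fun z => incl s * z) (F.incl_aeval_dh hb)).trans
        ((mul_div_assoc _ _ _).symm.trans
          ((congrArg (fun z => z / toFrac (lform (F.c 0)) ^ n) hab).trans
            (F.incl_aeval_dh ha).symm)))

/-- The chart `(U / M, V / M)` on the set of points outside the exceptional curves with
`M ≠ 0`, `h ≠ 0`. -/
def awayChart {n : ℕ} (h : CoordRing ℂ) (hh : h.IsHomogeneous n) (hk : Kills p (F.c 0) h) :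
    LChart p where
  u := lq (F.c 1) (F.c 0)
  v := lq (F.c 2) (F.c 0)
  g := F.dh h
  dom := {y | F.awayDom h y}
  crd := F.awayCrd
  isOpen := F.away_isOpen hh hk
  g_ne := F.away_g_ne hh
  surj := F.away_surj hh hk
  inj := fun y hy y' hy' e => F.away_inj y y' hy hy' e
  val_u := fun y hy => by
    cases y with
    | away q hq => exact val_lq_away q hq _ _ hy.1
    | exc i L => exact hy.elim
  val_v := fun y hy => by
    cases y with
    | away q hq => exact val_lq_away q hq _ _ hy.1
    | exc i L => exact hy.elim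
  reg := F.away_reg

end Frame

/-- Existence of charts around a point outside the exceptional curves: for every frame with
`M(q) ≠ 0` there is a suitable `h` with `h(q) ≠ 0` (a product of linear forms, one through every
blown up point). -/
lemma exists_kills (M : Fin 3 → ℂ) (q : Plane ℂ) (hq : ∀ i, q ≠ p i) :
    ∃ (n : ℕ) (h : CoordRing ℂ), h.IsHomogeneous n ∧ Kills p M h ∧ eval q.rep h ≠ 0 := by
  choose l hl1 hl2 hl3 using fun i => exists_separating (p i) q (hq i)
  refine ⟨∑ i : Fin r, 1, ∏ i, l i, IsHomogeneous.prod _ _ _ fun i _ => hl1 i, ?_, ?_⟩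
  · intro i
    left
    rw [map_prod]
    exact Finset.prod_eq_zero (Finset.mem_univ i) (hl2 i)
  · rw [map_prod]
    exact Finset.prod_ne_zero_iff.2 fun i _ => hl3 i

end

end Pool.Agent.Lib.MP_ee7b66_ag
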