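import Mathlib
import Pool.Agent.Lib.MP_ee7b66_ag.Frame

/-!
# The complement of a curve is open
-/

open scoped LinearAlgebra.Projectivization
open Pool.Agent.Lib.MP_8481ed_ag TopologicalSpace MvPolynomial Topology

namespace Pool.Agent.Lib.MP_ee7b66_ag

noncomputable section

variable {r : ℕ} {p : Fin r → Plane ℂ}

/-- Domains of regularity are open. -/
lemma clo_isOpen_reg (s : FunField) : IsOpen {y : BlowUp p | Reg p y s} :=
  isOpen_generateFrom_of_mem ⟨incl s, rfl⟩

/-- If `c / c'` vanishes at a point then `c' / c` is not regular there. -/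
lemma clo_not_reg {y : BlowUp p} {c c' : Fin 3 → ℂ} (hc : c ≠ 0) (hc' : c' ≠ 0)
    (h : Val p y (lq c c') 0) : ¬ Reg p y (lq c' c) := by
  intro hr
  obtain ⟨z, hz⟩ := hr.exists_val
  have h1 := h.mul hz
  rw [lq_mul hc', lq_self hc, zero_mul] at h1
  have h2 := Val.const (p := p) y 1
  rw [map_one] at h2
  exact zero_ne_one (h1.unique h2)

lemma clo_lin_single (j : Fin 3) (v : Fin 3 → ℂ) : lin (Pi.single j 1) v = v j := by
  unfold lin
  rw [Finset.sum_eq_single j]
  · rw [Pi.single_eq_same, one_mul]
  · intro i _ hij
    rw [Pi.single_eq_of_ne hij, zero_mul]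
  · intro h
    exact (h (Finset.mem_univ j)).elim

lemma clo_single_ne_zero (j : Fin 3) : (Pi.single j 1 : Fin 3 → ℂ) ≠ 0 := by
  intro h
  have h1 := congrFun h j
  rw [Pi.single_eq_same, Pi.zero_apply] at h1
  exact one_ne_zero h1

/-- Points of the strict transform of `lker c` lie over points with `c = 0`. -/
lemma clo_lin_vec_of_on {y : BlowUp p} {c : Fin 3 → ℂ} (h : On p (.line (lker c)) y) :
    lin c y.vec = 0 := by
  cases y with
  | away q hq =>
    have h1 : q.submodule ≤ lker c := h
    rw [← mem_lker]
    apply h1
    rw [Projectivization.submodule_eq]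
    exact Submodule.mem_span_singleton_self _
  | exc i L =>
    have h1 : L.1 = lker c := h
    rw [← mem_lker, ← h1]
    exact L.rep_mem

/-- Values of quotients of linear forms at points where the denominator does not vanish. -/
lemma clo_val_vec (y : BlowUp p) (c c' : Fin 3 → ℂ) (h : lin c' y.vec ≠ 0) :
    Val p y (lq c c') (lin c y.vec / lin c' y.vec) := by
  cases y with
  | away q hq => exact val_lq_away q hq c c' h
  | exc i L => exact val_lq_exc i L c c' h

lemma clo_inf_eq {P : Plane ℂ} {A B : Submodule ℂ (Fin 3 → ℂ)} (hA : Module.finrank ℂ A = 2)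
    (hB : Module.finrank ℂ B = 2) (hAB : A ≠ B) (hPA : P.submodule ≤ A) (hPB : P.submodule ≤ B) :
    P.submodule = A ⊓ B := by
  have hle : P.submodule ≤ A ⊓ B := le_inf hPA hPB
  apply Submodule.eq_of_le_of_finrank_le hle
  rw [Projectivization.finrank_submodule]
  by_contra hcon
  have h2 : 2 ≤ Module.finrank ℂ (A ⊓ B : Submodule ℂ (Fin 3 → ℂ)) := by omega
  have e1 : A ⊓ B = A := Submodule.eq_of_le_of_finrank_le inf_le_left (by rw [hA]; exact h2)
  have e2 : A ⊓ B = B := Submodule.eq_of_le_of_finrank_le inf_le_right (by rw [hB]; exact h2)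
  exact hAB (e1.symm.trans e2)

/-- The complement of the strict transform of a line is open. -/
lemma isOpen_not_on_line {Λ : Submodule ℂ (Fin 3 → ℂ)} (hΛ : Module.finrank ℂ Λ = 2) :
    IsOpen {y : BlowUp p | ¬ On p (.line Λ) y} := by
  obtain ⟨c, hc, rfl⟩ := exists_lker Λ hΛ
  rw [isOpen_iff_forall_mem_open]
  intro x hx
  have hx' : ¬ On p (.line (lker c)) x := hx
  by_cases hcx : lin c x.vec = 0
  · cases x with
    | away q hq =>
      exfalso
      apply hx'
      change q.submodule ≤ lker c
      rw [Projectivization.submodule_eq, Submodule.span_singleton_le_iff_mem, mem_lker]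
      exact hcx
    | exc i L =>
      have hLΛ : L.1 ≠ lker c := hx'
      have hcp : lin c (p i).rep = 0 := hcx
      obtain ⟨c', hc', hL⟩ := exists_lker L.1 L.2.1
      have hpΛ : (p i).submodule ≤ lker c := by
        rw [Projectivization.submodule_eq, Submodule.span_singleton_le_iff_mem, mem_lker]
        exact hcp
      have hinf := clo_inf_eq L.2.1 hΛ hLΛ L.2.2 hpΛ
      have hc'p : lin c' (p i).rep = 0 := by
        rw [← mem_lker, ← hL]
        exact L.rep_mem
      refine ⟨{y | Reg p y (lq c' c)}, ?_, clo_isOpen_reg _, ?_⟩
      · intro y hy hyon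
        refine clo_not_reg hc hc' ?_ hy
        cases y with
        | away q hq =>
          have hqc : lin c q.rep = 0 := clo_lin_vec_of_on hyon
          have hqc' : lin c' q.rep ≠ 0 := by
            intro h0
            have hqL : q.submodule ≤ L.1 := by
              rw [hL, Projectivization.submodule_eq, Submodule.span_singleton_le_iff_mem, mem_lker]
              exact h0
            have h1 := clo_inf_eq L.2.1 hΛ hLΛ hqL hyon
            exact hq i (Projectivization.submodule_injective (h1.trans hinf.symm))
          have h2 := val_lq_away (p := p) q hq c c' hqc'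
          rwa [hqc, zero_div] at h2
        | exc j M =>
          have hM : M.1 = lker c := hyon
          have hjc : lin c (p j).rep = 0 := clo_lin_vec_of_on hyon
          by_cases hjc' : lin c' (p j).rep = 0
          · have hdc : lin c M.dir = 0 := by
              rw [← mem_lker, ← hM]
              exact M.dir_mem
            have hdc' : lin c' M.dir ≠ 0 := by
              intro h0
              apply M.dir_not_mem
              have hjL : (p j).submodule ≤ L.1 := by
                rw [hL, Projectivization.submodule_eq, Submodule.span_singleton_le_iff_mem,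
                  mem_lker]
                exact hjc'
              have hjM : (p j).submodule ≤ lker c := by
                rw [← hM]
                exact M.2.2
              rw [clo_inf_eq L.2.1 hΛ hLΛ hjL hjM]
              refine ⟨?_, ?_⟩
              · rw [SetLike.mem_coe, hL, mem_lker]
                exact h0
              · rw [SetLike.mem_coe, mem_lker]
                exact hdc
            have h2 := val_lq_exc' (p := p) j M c c' hjc' hjc M.dir M.dir_mem hdc'
            rwa [hdc, zero_div] at h2
          · have h2 := val_lq_exc (p := p) j M c c' hjc'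
            rwa [hjc, zero_div] at h2
      · have hex : ∃ w ∈ L.1, lin c w ≠ 0 := by
          by_contra hcon
          push Not at hcon
          apply hLΛ
          apply Submodule.eq_of_le_of_finrank_le
          · intro w hw
            rw [mem_lker]
            exact hcon w hw
          · rw [hΛ, L.2.1]
        obtain ⟨w, hw, hwc⟩ := hex
        exact (val_lq_exc' (p := p) i L c' c hcp hc'p w hw hwc).reg
  · refine ⟨⋂ j : Fin 3, {y | Reg p y (lq (Pi.single j 1) c)}, ?_,
      isOpen_iInter_of_finite fun j => clo_isOpen_reg _, ?_⟩
    · intro y hy hyon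
      have h0 : lin c y.vec = 0 := clo_lin_vec_of_on hyon
      obtain ⟨j, hj⟩ := Function.ne_iff.1 y.vec_ne_zero
      have hj' : lin (Pi.single j 1) y.vec ≠ 0 := by
        rw [clo_lin_single]
        exact hj
      have h1 := clo_val_vec y c (Pi.single j 1) hj'
      rw [h0, zero_div] at h1
      exact clo_not_reg hc (clo_single_ne_zero j) h1 (Set.mem_iInter.1 hy j)
    · rw [Set.mem_iInter]
      intro j
      exact (clo_val_vec x (Pi.single j 1) c hcx).reg

/-- Points of a curve form a closed set: the complement of the points of the strict transform of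
a line, and of an exceptional curve, is Zariski open. -/
lemma isOpen_not_on (hp : Function.Injective p) {Cu : Curve r}
    (hCu : ∀ Λ, Cu = .line Λ → Module.finrank ℂ Λ = 2) :
    IsOpen {y : BlowUp p | ¬ On p Cu y} := by
  cases Cu with
  | line Λ => exact isOpen_not_on_line (hCu Λ rfl)
  | exc i =>
    have h1 : {y : BlowUp p | ¬ On p (.exc i) y} = {y : BlowUp p | y.center ≠ p i} := by
      ext y
      cases y with
      | away q hq => exact ⟨fun _ => hq i, fun _ h => h⟩
      | exc j L => exact ⟨fun h h' => h (hp h'), fun h h' => h (congrArg p h')⟩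
    rw [h1]
    exact isOpen_center_ne (p i)

/-- At a point outside the curve the ideal of the curve is the whole local ring. -/
lemma inIdeal_iff_of_not_on (hp : Function.Injective p) {Cu : Curve r}
    (hCu : ∀ Λ, Cu = .line Λ → Module.finrank ℂ Λ = 2)
    {x : BlowUp p} (hx : ¬ On p Cu x) (s : FunField) : InIdeal p Cu x s ↔ Reg p x s := by
  constructor
  · rintro ⟨U, _, hxU, hU⟩
    exact (hU x hxU).1
  · intro hs
    exact ⟨{y | Reg p y s} ∩ {y | ¬ On p Cu y},
      (clo_isOpen_reg s).inter (isOpen_not_on hp hCu), ⟨hs, hx⟩,
      fun y hy => ⟨hy.1, fun hon => (hy.2 hon).elim⟩⟩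

end

end Pool.Agent.Lib.MP_ee7b66_ag
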