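import Mathlib
import Pool.Agent.Lib.MP_ee7b66_ag.PencilA

/-!
# The affine chart `G / F`: local generators and denominators of `𝒪(dH + j ∑ Eᵢ)`
-/

open scoped LinearAlgebra.Projectivization
open TopologicalSpace

universe u

namespace Pool.Agent.Lib.MP_ee7b66_ag.Hes

open Pool.Agent.Lib.MP_8481ed_ag

noncomputable section

variable {k : Type u} [Field k] [IsAlgClosed k] {r : ℕ} {p : Fin r → Plane k} {c : Fin 3}

/-- Powers of `X_c` are regular sections where `X_c` does not vanish. -/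
lemma isRegularAt_zpow (x : BlowUp p)
    (hx : MvPolynomial.eval x.vec (MvPolynomial.X c : CoordRing k) ≠ 0) (z : ℤ) :
    IsRegularAt p z 0 x (toFrac (MvPolynomial.X c) ^ z) := by
  rw [isRegularAt_iff]
  have hm : x.mlt (0 : Fin r → ℤ) = 0 := by cases x <;> simp [BlowUp.mlt]
  rw [hm]
  have hX : ∀ n : ℕ, (MvPolynomial.X c ^ n : CoordRing k).IsHomogeneous n := by
    intro n
    have := (MvPolynomial.isHomogeneous_X k c).pow n
    rwa [one_mul] at this
  rcases Int.le_total 0 z with h | h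
  · obtain ⟨n, rfl⟩ := Int.eq_ofNat_of_zero_le h
    refine ⟨n, 0, 0, MvPolynomial.X c ^ n, 1, hX n, MvPolynomial.isHomogeneous_one _ _, by simp,
      by simp, by simp, ?_, by simp⟩
    rw [x.lead_zero, map_one]
    exact one_ne_zero
  · obtain ⟨n, hn⟩ := Int.eq_ofNat_of_zero_le (Int.neg_nonneg.2 h)
    refine ⟨0, n, 0, 1, MvPolynomial.X c ^ n, MvPolynomial.isHomogeneous_one _ _, hX n,
      by push_cast; omega, by simp, by simp, ?_, ?_⟩
    · rw [x.lead_zero, map_pow]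
      exact pow_ne_zero _ hx
    · have : z = -(n : ℤ) := by omega
      rw [this, zpow_neg, zpow_natCast, map_one, map_pow, one_div]

omit [IsAlgClosed k] in
lemma pow_mem_idl (x : BlowUp p) {A : CoordRing k} {m : ℕ} (hA : A ∈ x.idl ^ m) (j : ℕ) :
    A ^ j ∈ x.idl ^ (m * j) := by
  rw [pow_mul]
  exact Ideal.pow_mem_pow hA j

omit [IsAlgClosed k] in
lemma lead_pow (x : BlowUp p) {A : CoordRing k} {m : ℕ} (hA : A ∈ x.idl ^ m) (j : ℕ) :
    x.lead (m * j) (A ^ j) = x.lead m A ^ j := by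
  induction j with
  | zero => simp [x.lead_zero]
  | succ j ih =>
    rw [pow_succ, mul_add, mul_one, x.lead_mul (pow_mem_idl x hA j) hA, ih, pow_succ]

namespace LPencil

variable (Q : LPencil p c)

/-- A local generator of `𝒪_X(dH + j ∑ Eᵢ)` on the chart. -/
def gen (d : ℤ) (j : ℕ) : Frac k := toFrac (MvPolynomial.X c) ^ d * (Q.phi (dh Q.F) ^ j)⁻¹

lemma isRegularAt_inv_F_pow (j : ℕ) (x : Q.W) :
    IsRegularAt p 0 (fun _ => -(j : ℤ)) x.1 (Q.phi (dh Q.F) ^ j)⁻¹ := by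
  rw [isRegularAt_iff]
  refine ⟨4 * j, 4 * j, x.1.ord * j, MvPolynomial.X c ^ (4 * j), Q.F ^ j, ?_, Q.hF.pow j, by simp,
    ?_, pow_mem_idl _ (Q.F_mem x.1 x.2.1) j, ?_, ?_⟩
  · have := (MvPolynomial.isHomogeneous_X k c).pow (4 * j)
    rwa [one_mul] at this
  · have : (((x.1.ord * j : ℕ) : ℤ) + x.1.mlt (fun _ : Fin r => -(j : ℤ))).toNat = 0 := by
      obtain ⟨x, hx⟩ := x
      cases x <;> simp [BlowUp.mlt, BlowUp.ord]
    rw [this]
    simp
  · rw [lead_pow _ (Q.F_mem x.1 x.2.1)]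
    exact pow_ne_zero _ x.2.2
  · rw [Q.phi_dh Q.hF, map_pow, map_pow]
    have h1 := toFrac_ne_zero Q.hF0
    have h2 := toFrac_X_ne (k := k) c
    rw [div_pow, inv_div, pow_mul]

lemma gen_regular (d : ℤ) (j : ℕ) (x : Q.W) :
    IsRegularAt p d (fun _ => -(j : ℤ)) x.1 (Q.gen d j) := by
  have h1 := isRegularAt_mul (isRegularAt_zpow x.1 x.2.1 d) (Q.isRegularAt_inv_F_pow j x)
  rw [add_zero] at h1
  have e : (0 : Fin r → ℤ) + (fun _ => -(j : ℤ)) = fun _ => -(j : ℤ) := zero_add _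
  have h2 : IsRegularAt p d ((0 : Fin r → ℤ) + (fun _ => -(j : ℤ))) x.1 (Q.gen d j) := h1
  rwa [e] at h2

/-- sections over the chart -/
def L (d : ℤ) (j : ℕ) : AddSubgroup (Frac k) where
  carrier := {s | ∃ g, s = Q.gen d j * Q.phi g}
  zero_mem' := ⟨0, by simp⟩
  add_mem' := by
    rintro _ _ ⟨g₁, rfl⟩ ⟨g₂, rfl⟩
    exact ⟨g₁ + g₂, by rw [map_add, mul_add]⟩
  neg_mem' := by
    rintro _ ⟨g, rfl⟩
    exact ⟨-g, by rw [map_neg, mul_neg]⟩

omit [IsAlgClosed k] in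
lemma toFrac_eq_phi {A : CoordRing k} {n : ℕ} (hA : A.IsHomogeneous n) :
    toFrac A = Q.phi (dh A) * toFrac (MvPolynomial.X c) ^ n := by
  rw [Q.phi_dh hA, div_mul_cancel₀ _ (pow_ne_zero _ (toFrac_X_ne c))]

/-- The value of the function `phi gb` of `exists_phi_eq` does not vanish. -/
lemma eval_gb_ne (i : Fin r) (L : LineThrough (p i)) (hx : MvPolynomial.eval
      (BlowUp.exc (p := p) i L).vec (MvPolynomial.X c : CoordRing k) ≠ 0 ∧
      (BlowUp.exc (p := p) i L).lead (BlowUp.exc (p := p) i L).ord Q.F ≠ 0)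
    {b : CoordRing k} {e μ : ℕ} (hb : b.IsHomogeneous e) (hbI : b ∈ pointIdeal (p i) ^ μ)
    (hbl : (BlowUp.exc (p := p) i L).lead μ b ≠ 0) {gb : MvPolynomial (Option (Fin 3)) k}
    (hgb : Q.phi (dh b) * Q.phi (dh (Q.F' i * Q.G' i)) ^ μ = Q.phi (dh Q.F) ^ μ * Q.phi gb) :
    MvPolynomial.eval (Q.xi ⟨BlowUp.exc i L, hx⟩) gb ≠ 0 := by
  set x : BlowUp p := .exc i L with hxdef
  have hi : MvPolynomial.eval (p i).rep (MvPolynomial.X c : CoordRing k) ≠ 0 := hx.1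
  have hz : x.vec c ≠ 0 := by
    have := hx.1
    rwa [MvPolynomial.eval_X] at this
  have hFG6 : (Q.F' i * Q.G' i).IsHomogeneous 6 := (Q.hF'3 i).mul (Q.hG'3 i)
  have hFGv : MvPolynomial.eval x.vec (Q.F' i * Q.G' i) ≠ 0 := by
    rw [map_mul]
    exact mul_ne_zero (Q.hF' i hi) (Q.hG' i hi)
  have hFG0 : Q.F' i * Q.G' i ≠ 0 := by
    intro h0
    rw [h0, map_zero] at hFGv
    exact hFGv rfl
  have hb0 : b ≠ 0 := x.ne_zero_of_lead hbl
  have hFord : x.ord = 1 := rfl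
  have hFm : Q.F ∈ x.idl ^ 1 := hFord ▸ Q.F_mem x hx.1
  have hl1 : x.lead μ (b * (Q.F' i * Q.G' i) ^ μ) =
      x.lead μ b * MvPolynomial.eval x.vec (Q.F' i * Q.G' i) ^ μ := by
    have := x.lead_mul (μ := μ) (ν := 0) (a := b) (b := (Q.F' i * Q.G' i) ^ μ) hbI (by simp)
    rw [add_zero] at this
    rw [this, x.lead_zero, map_pow]
  have hFμ : Q.F ^ μ ∈ x.idl ^ μ := by
    have := pow_mem_idl x hFm μ
    rwa [one_mul] at this
  have hlF : x.lead μ (Q.F ^ μ) = x.lead 1 Q.F ^ μ := by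
    have := lead_pow x hFm μ
    rwa [one_mul] at this
  have hl2 : x.lead μ (Q.F ^ μ * MvPolynomial.X c ^ (e + 2 * μ)) =
      x.lead 1 Q.F ^ μ * x.vec c ^ (e + 2 * μ) := by
    have := x.lead_mul (μ := μ) (ν := 0) (a := Q.F ^ μ)
      (b := MvPolynomial.X c ^ (e + 2 * μ)) hFμ (by simp)
    rw [add_zero] at this
    rw [this, hlF, x.lead_zero, map_pow, MvPolynomial.eval_X]
  have hne2 : x.lead μ (Q.F ^ μ * MvPolynomial.X c ^ (e + 2 * μ)) ≠ 0 := by
    rw [hl2]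
    exact mul_ne_zero (pow_ne_zero _ hx.2) (pow_ne_zero _ hz)
  have hne1 : x.lead μ (b * (Q.F' i * Q.G' i) ^ μ) ≠ 0 := by
    rw [hl1]
    exact mul_ne_zero hbl (pow_ne_zero _ hFGv)
  have hval : HasVal x (Q.phi gb) (x.lead μ (b * (Q.F' i * Q.G' i) ^ μ) /
      x.lead μ (Q.F ^ μ * MvPolynomial.X c ^ (e + 2 * μ))) := by
    refine ⟨e + 6 * μ, μ, _, _, hb.mul (hFG6.pow μ), ?_, ?_, ?_, hne2, ?_, rfl⟩
    · have h1 := (Q.hF.pow μ).mul ((MvPolynomial.isHomogeneous_X k c).pow (e + 2 * μ))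
      have h2 : 4 * μ + 1 * (e + 2 * μ) = e + 6 * μ := by ring
      rwa [h2] at h1
    · exact Ideal.mul_mem_right _ _ hbI
    · exact Ideal.mul_mem_right _ _ hFμ
    · have hZ := toFrac_X_ne (k := k) c
      have hF' := toFrac_ne_zero Q.hF0
      rw [Q.phi_dh hb, Q.phi_dh hFG6, Q.phi_dh Q.hF] at hgb
      rw [map_mul, map_mul, map_pow, map_pow, map_pow]
      rw [div_pow, div_pow, ← pow_mul, ← pow_mul] at hgb
      field_simp at hgb
      field_simp
      have e1 : toFrac (MvPolynomial.X c : CoordRing k) ^ (6 * μ) =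
          toFrac (MvPolynomial.X c) ^ (2 * μ) * toFrac (MvPolynomial.X c) ^ (4 * μ) := by
        rw [← pow_add]
        congr 1
        ring
      rw [e1] at hgb
      have hZ4 : toFrac (MvPolynomial.X c : CoordRing k) ^ (4 * μ) ≠ 0 := pow_ne_zero _ hZ
      apply mul_right_cancel₀ hZ4
      rw [pow_add]
      linear_combination -hgb
  rw [HasVal.unique (Q.hasVal_phi ⟨x, hx⟩ gb) hval]
  exact div_ne_zero hne1 hne2

/-- denominators -/
lemma denom (d : ℤ) (j : ℕ) (x : Q.W) (s : Frac k)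
    (hs : IsRegularAt p d (fun _ => -(j : ℤ)) x.1 s) :
    ∃ h, MvPolynomial.eval (Q.xi x) h ≠ 0 ∧ Q.phi h * s ∈ Q.L d j := by
  have hZ := toFrac_X_ne (k := k) c
  have hz : x.1.vec c ≠ 0 := by
    have := x.2.1
    rwa [MvPolynomial.eval_X] at this
  have hΦ := Q.phi_dhF_ne
  obtain ⟨x, hx⟩ := x
  cases x with
  | away q hq =>
    obtain ⟨n, e, a, b, ha, hb, hn, hbq, rfl⟩ := (isRegularAt_away_iff _ _ _ _ _).1 hs
    have hb0 : b ≠ 0 := by
      rintro rfl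
      simp at hbq
    refine ⟨dh b, ?_, dh a * dh Q.F ^ j, ?_⟩
    · rw [Q.eval_xi_dh _ hb]
      exact div_ne_zero hbq (pow_ne_zero _ hz)
    · rw [gen, map_mul, map_pow, Q.phi_dh hb, Q.phi_dh ha]
      have hb' := toFrac_ne_zero hb0
      have hd : toFrac (MvPolynomial.X c : CoordRing k) ^ d =
          toFrac (MvPolynomial.X c) ^ n / toFrac (MvPolynomial.X c) ^ e := by
        have : d = n - e := by omega
        rw [this, zpow_sub₀ hZ, zpow_natCast, zpow_natCast]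
      rw [hd]
      field_simp
  | exc i L =>
    rw [isRegularAt_iff] at hs
    obtain ⟨n, e, μ, a, b, ha, hb, hn, haI, hbI, hbl, rfl⟩ := hs
    set x : BlowUp p := .exc i L with hxdef
    have hi : MvPolynomial.eval (p i).rep (MvPolynomial.X c : CoordRing k) ≠ 0 := hx.1
    have haI' : a ∈ pointIdeal (p i) ^ (μ - j) := by
      have : ((μ : ℤ) + x.mlt fun _ => -(j : ℤ)).toNat = μ - j := by
        simp [hxdef, BlowUp.mlt]
        omega
      rw [this] at haI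
      exact haI
    have hbI' : b ∈ pointIdeal (p i) ^ μ := hbI
    obtain ⟨ga, hga⟩ := Q.exists_phi_eq i hi (μ - j) a haI'
    obtain ⟨gb, hgb⟩ := Q.exists_phi_eq i hi μ b hbI'
    have hb0 : b ≠ 0 := x.ne_zero_of_lead hbl
    have hb' := toFrac_ne_zero hb0
    have hFG6 : (Q.F' i * Q.G' i).IsHomogeneous 6 := (Q.hF'3 i).mul (Q.hG'3 i)
    have hFG0 : Q.F' i * Q.G' i ≠ 0 := by
      intro h0
      have h1 := mul_ne_zero (Q.hF' i hi) (Q.hG' i hi)
      rw [← map_mul, h0, map_zero] at h1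
      exact h1 rfl
    have hT0 : Q.phi (dh (Q.F' i * Q.G' i)) ≠ 0 := by
      rw [Q.phi_dh hFG6]
      exact div_ne_zero (toFrac_ne_zero hFG0) (pow_ne_zero _ hZ)
    obtain ⟨ν, ε, hμ, hε⟩ : ∃ ν ε : ℕ, μ = (μ - j) + ν ∧ (μ - j) + j = μ + ε :=
      ⟨μ - (μ - j), (μ - j) + j - μ, by omega, by omega⟩
    refine ⟨gb, Q.eval_gb_ne i L hx hb hbI' hbl hgb,
      dh Q.F ^ ε * dh (Q.F' i * Q.G' i) ^ ν * ga, ?_⟩
    rw [gen, map_mul, map_mul, map_pow, map_pow]
    have hd : toFrac (MvPolynomial.X c : CoordRing k) ^ d =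
        toFrac (MvPolynomial.X c) ^ n / toFrac (MvPolynomial.X c) ^ e := by
      have : d = n - e := by omega
      rw [this, zpow_sub₀ hZ, zpow_natCast, zpow_natCast]
    rw [hd, Q.toFrac_eq_phi ha, Q.toFrac_eq_phi hb]
    have hB0 : Q.phi (dh b) ≠ 0 := by
      rw [Q.phi_dh hb]
      exact div_ne_zero hb' (pow_ne_zero _ hZ)
    generalize hPa : Q.phi (dh a) = Pa at *
    generalize hPb : Q.phi (dh b) = Pb at *
    generalize hPF : Q.phi (dh Q.F) = Φ at *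
    generalize hPT : Q.phi (dh (Q.F' i * Q.G' i)) = T at *
    generalize Q.phi ga = Ga at *
    generalize Q.phi gb = Gb at *
    generalize toFrac (MvPolynomial.X c : CoordRing k) = Z at *
    -- Gb * (Pa Z^n / (Pb Z^e)) = Z^n/Z^e * (Φ^j)⁻¹ * (Φ^ε * T^ν * Ga)
    have h1 : Gb = Pb * T ^ μ / Φ ^ μ := by
      rw [hgb]
      field_simp
    have h2 : Pa = Φ ^ (μ - j) * Ga / T ^ (μ - j) := by
      rw [← hga]
      field_simp
    have h3 : T ^ μ = T ^ (μ - j) * T ^ ν := by rw [← pow_add, ← hμ]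
    have h4 : Φ ^ (μ - j) * Φ ^ j = Φ ^ μ * Φ ^ ε := by rw [← pow_add, ← pow_add, hε]
    rw [h1, h2, h3]
    field_simp
    linear_combination Ga * h4

end LPencil

end

end Pool.Agent.Lib.MP_ee7b66_ag.Hes
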