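import Mathlib
import Pool.Agent.Lib.MP_8481ed_ag.NonVan
import Pool.Agent.Lib.MP_8481ed_ag.GlueA2
import Pool.Agent.Lib.MP_ee7b66_ag.PencilB

/-!
# The Cousin problem for `𝒪(dH + ∑ Eᵢ)` over an affine plane `X_c ≠ 0`
-/

open scoped LinearAlgebra.Projectivization
open TopologicalSpace

universe u

namespace Pool.Agent.Lib.MP_ee7b66_ag.Hes

open Pool.Agent.Lib.MP_8481ed_ag

noncomputable section

variable {k : Type u} [Field k] {r : ℕ} {p : Fin r → Plane k} {c : Fin 3}

namespace LPencil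

variable (Q : LPencil p c)

lemma ker (x : Q.W) (h : MvPolynomial (Option (Fin 3)) k) (h0 : Q.phi h = 0) :
    MvPolynomial.eval (Q.xi x) h = 0 := by
  have h1 := Q.hasVal_phi x h
  rw [h0] at h1
  have h2 := HasVal.const x.1 (0 : k)
  rw [map_zero] at h2
  exact h1.unique h2

lemma pts (z : Option (Fin 3) → k)
    (hz : ∀ g, Q.phi g = 0 → MvPolynomial.eval z g = 0) : ∃ x : Q.W, Q.xi x = z := by
  set v : Fin 3 → k := fun j => z (some j) with hv
  have hvc : v c = 1 := by
    have h1 := hz (MvPolynomial.X (some c) - 1) (by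
      rw [map_sub, map_one, Q.phi_X]
      change toFrac (MvPolynomial.X c) / toFrac (MvPolynomial.X c) - 1 = 0
      rw [div_self (toFrac_X_ne c), sub_self])
    rw [map_sub, MvPolynomial.eval_X, map_one] at h1
    exact sub_eq_zero.1 h1
  have hv0 : v ≠ 0 := by
    intro h
    have := congrFun h c
    rw [hvc] at this
    exact one_ne_zero this
  have hrel : z none * MvPolynomial.eval v Q.F = MvPolynomial.eval v Q.G := by
    have h1 := hz (MvPolynomial.X none * dh Q.F - dh Q.G) (by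
      rw [map_sub, map_mul, Q.phi_none_mul, sub_self])
    rw [map_sub, map_mul, MvPolynomial.eval_X, eval_dh, eval_dh] at h1
    exact sub_eq_zero.1 h1
  set q : Plane k := Projectivization.mk k v hv0 with hq
  obtain ⟨a, ha⟩ := Projectivization.exists_smul_eq_mk_rep k v hv0
  have ha' : q.rep = (a : k) • v := ha.symm
  have ha0 : (a : k) ≠ 0 := a.ne_zero
  have hrepc : q.rep c ≠ 0 := by
    rw [ha']
    simp [hvc]
  have hqc : MvPolynomial.eval q.rep (MvPolynomial.X c : CoordRing k) ≠ 0 := by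
    rw [MvPolynomial.eval_X]
    exact hrepc
  have h01 : ∀ j : Fin 3, q.rep j / q.rep c = v j := by
    intro j
    rw [ha']
    simp only [Pi.smul_apply, smul_eq_mul, hvc, mul_one]
    field_simp
  by_cases hF : MvPolynomial.eval q.rep Q.F = 0
  · -- the point is one of the `p i`
    have hFv : MvPolynomial.eval v Q.F = 0 := (eval_rep_mk Q.hF v hv0).1 hF
    have hGv : MvPolynomial.eval v Q.G = 0 := by rw [← hrel, hFv, mul_zero]
    obtain ⟨i, hi⟩ := Q.hcommon q hqc hF ((eval_rep_mk Q.hG v hv0).2 hGv)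
    have hic : MvPolynomial.eval (p i).rep (MvPolynomial.X c : CoordRing k) ≠ 0 := by
      rw [← hi]
      exact hqc
    obtain ⟨w, hwU, hwV⟩ := Q.hdir i hic 1
      (z none * MvPolynomial.eval (p i).rep (Q.F' i) / MvPolynomial.eval (p i).rep (Q.G' i))
    have hw : w ∉ (p i).submodule := by
      intro hw
      have h1 := Q.hUI i hic w hw
      have h2 : MvPolynomial.eval w (Q.U i) = 0 := h1
      rw [hwU] at h2
      exact one_ne_zero h2
    obtain ⟨α, β, hβ, hdir⟩ := LineThrough.ofDir_dir (p i) w hw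
    let x : BlowUp p := .exc i (LineThrough.ofDir (p i) w hw)
    have hUrep : MvPolynomial.eval (p i).rep (Q.U i) = 0 := eval_rep_eq_zero (Q.hUI i hic)
    have hVrep : MvPolynomial.eval (p i).rep (Q.V i) = 0 := eval_rep_eq_zero (Q.hVI i hic)
    have hleadF : x.lead x.ord Q.F = β * MvPolynomial.eval (p i).rep (Q.F' i) := by
      have hU1 : Q.U i ∈ x.idl ^ 1 := by
        rw [pow_one]
        exact Q.hUI i hic
      have e1 := x.lead_mul (μ := 1) (ν := 0) (a := Q.U i) (b := Q.F' i) hU1 (by simp)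
      rw [add_zero, ← Q.hFU i hic, x.lead_zero] at e1
      change x.lead 1 Q.F = _
      rw [e1]
      have e2 : x.lead 1 (Q.U i) = β := by
        have e3 : x.lead 1 (Q.U i) = MvPolynomial.eval x.dir (Q.U i) :=
          coeff_one_linear (Q.hU i) _ _
        have e4 : x.dir = α • (p i).rep + β • w := hdir
        rw [e3, e4, eval_linear (Q.hU i), hUrep, hwU]
        ring
      rw [e2]
      rfl
    have hleadG : x.lead x.ord Q.G = β * (z none * MvPolynomial.eval (p i).rep (Q.F' i)) := by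
      have hV1 : Q.V i ∈ x.idl ^ 1 := by
        rw [pow_one]
        exact Q.hVI i hic
      have e1 := x.lead_mul (μ := 1) (ν := 0) (a := Q.V i) (b := Q.G' i) hV1 (by simp)
      rw [add_zero, ← Q.hGV i hic, x.lead_zero] at e1
      change x.lead 1 Q.G = _
      rw [e1]
      have e3 : x.lead 1 (Q.V i) = MvPolynomial.eval x.dir (Q.V i) :=
        coeff_one_linear (Q.hV i) _ _
      have e4 : x.dir = α • (p i).rep + β • w := hdir
      have e5 : x.vec = (p i).rep := rfl
      rw [e3, e4, eval_linear (Q.hV i), hVrep, hwV, e5]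
      have := Q.hG' i hic
      field_simp
      ring
    have hF'i := Q.hF' i hic
    refine ⟨⟨x, hic, ?_⟩, ?_⟩
    · rw [hleadF]
      exact mul_ne_zero hβ hF'i
    · have hxv : x.vec = q.rep := by
        rw [hi]
        rfl
      funext o
      cases o with
      | none =>
        change x.lead x.ord Q.G / x.lead x.ord Q.F = z none
        rw [hleadF, hleadG]
        field_simp
      | some j =>
        change x.vec j / x.vec c = z (some j)
        rw [hxv]
        exact h01 j
  · have hq' : ∀ i, q ≠ p i := by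
      intro i hi
      have hic : MvPolynomial.eval (p i).rep (MvPolynomial.X c : CoordRing k) ≠ 0 := by
        rw [← hi]
        exact hqc
      apply hF
      rw [hi, Q.hFU i hic, map_mul, eval_rep_eq_zero (Q.hUI i hic), zero_mul]
    refine ⟨⟨.away q hq', hqc, ?_⟩, ?_⟩
    · change (BlowUp.away q hq').lead 0 Q.F ≠ 0
      rw [BlowUp.lead_zero]
      exact hF
    · funext o
      cases o with
      | none =>
        change (BlowUp.away q hq').lead 0 Q.G / (BlowUp.away q hq').lead 0 Q.F = z none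
        rw [BlowUp.lead_zero, BlowUp.lead_zero]
        change MvPolynomial.eval q.rep Q.G / MvPolynomial.eval q.rep Q.F = z none
        rw [div_eq_iff hF, ha', eval_smul_homog Q.hG, eval_smul_homog Q.hF, ← hrel]
        ring
      | some j => exact h01 j

/-- Setting the last coordinate to zero. -/
def kill : MvPolynomial (Option (Fin 3)) k →+* MvPolynomial (Option (Fin 3)) k :=
  MvPolynomial.eval₂Hom MvPolynomial.C (fun o => o.elim 0 (fun j => MvPolynomial.X (some j)))

lemma exists_kill (g : MvPolynomial (Option (Fin 3)) k) :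
    ∃ g₁, g = kill g + MvPolynomial.X none * g₁ := by
  induction g using MvPolynomial.induction_on with
  | C c => exact ⟨0, by simp [kill]⟩
  | add f g hf hg =>
    obtain ⟨f₁, hf⟩ := hf
    obtain ⟨g₁, hg⟩ := hg
    refine ⟨f₁ + g₁, ?_⟩
    rw [map_add]
    linear_combination hf + hg
  | mul_X f j hf =>
    obtain ⟨f₁, hf⟩ := hf
    cases j with
    | none =>
      refine ⟨f, ?_⟩
      simp [kill, mul_comm]
    | some j =>
      refine ⟨f₁ * MvPolynomial.X (some j), ?_⟩
      rw [map_mul]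
      have : kill (MvPolynomial.X (some j) : MvPolynomial (Option (Fin 3)) k) =
          MvPolynomial.X (some j) := by simp [kill]
      rw [this]
      linear_combination (MvPolynomial.X (some j)) * hf

lemma phi_kill (g : MvPolynomial (Option (Fin 3)) k) : Q.swap.phi (kill g) = Q.phi (kill g) := by
  have : Q.swap.phi.comp kill = Q.phi.comp kill := by
    apply MvPolynomial.ringHom_ext
    · intro c
      simp [kill, phi]
    · intro o
      cases o <;> simp [kill, phi, gens]
  exact congrArg (fun f : MvPolynomial (Option (Fin 3)) k →+* Frac k => f g) this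

/-- The key decomposition of sections over the intersection of the two charts. -/
lemma decompose (d : ℤ) (N : ℕ) :
    ∀ g : MvPolynomial (Option (Fin 3)) k, ∃ s₁ ∈ Q.L d 1, ∃ s₂ ∈ Q.swap.L d 1,
      Q.gen d 1 * Q.phi g * (toFrac Q.F / toFrac Q.G) ^ N = s₁ + s₂ := by
  have hF := toFrac_ne_zero Q.hF0
  have hG := toFrac_ne_zero Q.hG0
  have hZ := toFrac_X_ne (k := k) c
  have hX2 := Q.phi_none
  have hX2' : Q.swap.phi (MvPolynomial.X none) = toFrac Q.F / toFrac Q.G := Q.swap.phi_none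
  induction N with
  | zero =>
    intro g
    exact ⟨_, ⟨g, rfl⟩, 0, AddSubgroup.zero_mem _, by simp⟩
  | succ N ih =>
    intro g
    obtain ⟨g₁, hg₁⟩ := exists_kill g
    obtain ⟨s₁, hs₁, s₂, hs₂, h⟩ := ih g₁
    refine ⟨s₁, hs₁, s₂ + Q.swap.gen d 1 *
      Q.swap.phi (MvPolynomial.X none ^ N * kill g),
      AddSubgroup.add_mem _ hs₂ ⟨_, rfl⟩, ?_⟩
    rw [← add_assoc, ← h, map_mul, map_pow, Q.phi_kill, hX2']
    have hg2 : Q.phi g = Q.phi (kill g) + toFrac Q.G / toFrac Q.F * Q.phi g₁ := by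
      conv_lhs => rw [hg₁]
      rw [map_add, map_mul, hX2]
    have e0 : Q.swap.gen d 1 = Q.gen d 1 * (toFrac Q.F / toFrac Q.G) := by
      rw [gen, gen, pow_one, pow_one, Q.phi_dh Q.hF, Q.swap.phi_dh Q.swap.hF]
      change _ * (toFrac Q.G / _)⁻¹ = _
      field_simp
    rw [hg2, e0]
    have e2 : toFrac Q.G / toFrac Q.F * (toFrac Q.F / toFrac Q.G) = 1 := by field_simp
    rw [pow_succ _ N]
    linear_combination (Q.gen d 1 * Q.phi g₁ * (toFrac Q.F / toFrac Q.G) ^ N) * e2

lemma lead_ne_zero_or (x : BlowUp p)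
    (hx : MvPolynomial.eval x.vec (MvPolynomial.X c : CoordRing k) ≠ 0) :
    x.lead x.ord Q.F ≠ 0 ∨ x.lead x.ord Q.G ≠ 0 := by
  cases x with
  | away q hq =>
    by_contra h
    push Not at h
    have h1 : MvPolynomial.eval q.rep Q.F = 0 := by
      have := h.1
      rwa [BlowUp.ord, BlowUp.lead_zero] at this
    have h2 : MvPolynomial.eval q.rep Q.G = 0 := by
      have := h.2
      rwa [BlowUp.ord, BlowUp.lead_zero] at this
    obtain ⟨i, hi⟩ := Q.hcommon q hx h1 h2
    exact hq i hi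
  | exc i L =>
    have hi : MvPolynomial.eval (p i).rep (MvPolynomial.X c : CoordRing k) ≠ 0 := hx
    set x : BlowUp p := .exc i L with hxdef
    have hF : ∀ R : LPencil p c, x.lead x.ord R.F =
        MvPolynomial.eval L.dir (R.U i) * MvPolynomial.eval (p i).rep (R.F' i) := by
      intro R
      have hU1 : R.U i ∈ x.idl ^ 1 := by
        rw [pow_one]
        exact R.hUI i hi
      have e1 := x.lead_mul (μ := 1) (ν := 0) (a := R.U i) (b := R.F' i) hU1 (by simp)
      rw [add_zero, ← R.hFU i hi, x.lead_zero] at e1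
      change x.lead 1 R.F = _
      rw [e1]
      have e3 : x.lead 1 (R.U i) = MvPolynomial.eval x.dir (R.U i) :=
        coeff_one_linear (R.hU i) _ _
      rw [e3]
      rfl
    by_contra h
    push Not at h
    have h1 := h.1
    have h2 : x.lead x.ord Q.swap.F = 0 := h.2
    rw [hF Q] at h1
    rw [hF Q.swap] at h2
    have hU := (mul_eq_zero.1 h1).resolve_right (Q.hF' i hi)
    have hV := (mul_eq_zero.1 h2).resolve_right (Q.swap.hF' i hi)
    obtain ⟨l, hl, hlw⟩ := Pencil.exists_linear_dir (p i) L.dir L.dir_not_mem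
    obtain ⟨α, β, hαβ⟩ := Ideal.mem_span_pair.1 (Q.hI i hi hl)
    apply hlw
    rw [← hαβ, map_add, map_mul, map_mul, hU]
    change _ * 0 + _ * MvPolynomial.eval L.dir (Q.swap.U i) = 0
    rw [hV]
    ring

variable [IsAlgClosed k]

/-- The chart. -/
def chart (d : ℤ) (j : ℕ) : ChartN (Option (Fin 3)) k (Frac k) Q.W where
  xi := Q.xi
  phi := Q.phi
  M := fun x => stalk p d (fun _ => -(j : ℤ)) x.1
  L := Q.L d j
  ker := Q.ker
  inv_mem := fun x h hx s hs => by
    rw [← mul_comm s, mul_comm]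
    exact isRegularAt_smul ((Q.hasVal_phi x h).inv hx).isRegular hs
  smul_mem := by
    rintro g _ ⟨g', rfl⟩
    exact ⟨g * g', by rw [map_mul]; ring⟩
  denom := Q.denom d j
  le := by
    rintro x _ ⟨g, rfl⟩
    rw [mul_comm]
    exact isRegularAt_smul (Q.hasVal_phi x g).isRegular (Q.gen_regular d j x)
  pts := Q.pts

/-- Basic open subsets of the chart are a basis of its topology. -/
lemma exists_basic (x : Q.W) {V : Set (BlowUp p)} (hV : IsOpen V) (hx : x.1 ∈ V) :
    ∃ h, MvPolynomial.eval (Q.xi x) h ≠ 0 ∧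
      ∀ y : Q.W, MvPolynomial.eval (Q.xi y) h ≠ 0 → y.1 ∈ V := by
  induction hV with
  | basic s hs =>
    obtain ⟨g, rfl⟩ := hs
    have hz : (fun _ : Fin r => -((0 : ℕ) : ℤ)) = 0 := by
      funext
      simp
    have hx' : IsRegularAt p 0 (fun _ => -((0 : ℕ) : ℤ)) x.1 g := by
      rw [hz]
      exact hx
    obtain ⟨h, hh, g', hg'⟩ := Q.denom 0 0 x g hx'
    refine ⟨h, hh, fun y hy => ?_⟩
    have h1 : g = (Q.phi h)⁻¹ * (Q.gen 0 0 * Q.phi g') := by
      rw [← hg']
      have : Q.phi h ≠ 0 := fun h0 => hh (Q.ker x h h0)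
      field_simp
    have h2 := (Q.chart 0 0).inv_mem y h hy (Q.gen 0 0 * Q.phi g')
      ((Q.chart 0 0).le y ⟨g', rfl⟩)
    have h3 : (Q.phi h)⁻¹ * (Q.gen 0 0 * Q.phi g') ∈ stalk p 0 (fun _ => -((0 : ℕ) : ℤ)) y.1 := h2
    rw [← h1, hz] at h3
    exact h3
  | univ => exact ⟨1, by simp, fun _ _ => trivial⟩
  | inter s t _ _ ih1 ih2 =>
    obtain ⟨h1, hh1, hs1⟩ := ih1 hx.1
    obtain ⟨h2, hh2, hs2⟩ := ih2 hx.2
    refine ⟨h1 * h2, ?_, fun y hy => ?_⟩
    · rw [map_mul]
      exact mul_ne_zero hh1 hh2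
    · rw [map_mul] at hy
      exact ⟨hs1 y (left_ne_zero_of_mul hy), hs2 y (right_ne_zero_of_mul hy)⟩
  | sUnion S _ ih =>
    obtain ⟨s, hs, hxs⟩ := hx
    obtain ⟨h, hh, hs'⟩ := ih s hs hxs
    exact ⟨h, hh, fun y hy => ⟨s, hs, hs' y hy⟩⟩

include Q in
/-- Over the affine plane `X_c ≠ 0` every Cousin datum for `𝒪(dH + ∑ Eᵢ)` can be solved. -/
theorem solve_affinePlane (d : ℤ) (e : BlowUp p → Frac k)
    (he : ∀ x : BlowUp p, MvPolynomial.eval x.vec (MvPolynomial.X c : CoordRing k) ≠ 0 →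
      ∃ V : Set (BlowUp p), IsOpen V ∧ x ∈ V ∧ ∀ y ∈ V, e y - e x ∈ stalk p d (fun _ => -1) y) :
    ∃ f : Frac k, ∀ x : BlowUp p,
      MvPolynomial.eval x.vec (MvPolynomial.X c : CoordRing k) ≠ 0 →
      f - e x ∈ stalk p d (fun _ => -1) x := by
  have hone : (fun _ : Fin r => -((1 : ℕ) : ℤ)) = fun _ => -1 := by
    funext
    simp
  have step : ∀ R : LPencil p c, ∃ f : Frac k, ∀ x : R.W,
      f - e x.1 ∈ stalk p d (fun _ => -1) x.1 := by
    intro R
    rw [← hone]
    refine (R.chart d 1).cousin (fun x => e x.1) fun x => ?_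
    obtain ⟨V, hV, hxV, hcV⟩ := he x.1 x.2.1
    obtain ⟨h, hh, hy⟩ := R.exists_basic x hV hxV
    refine ⟨h, hh, fun y hyh => ?_⟩
    change e y.1 - e x.1 ∈ stalk p d (fun _ => -((1 : ℕ) : ℤ)) y.1
    rw [hone]
    exact hcV y.1 (hy y hyh)
  have hle : ∀ (R : LPencil p c) (x : R.W) (s : Frac k), s ∈ R.L d 1 →
      s ∈ stalk p d (fun _ => -1) x.1 := by
    intro R x s hs
    have := (R.chart d 1).le x hs
    rw [← hone]
    exact this
  obtain ⟨f₁, hf₁⟩ := step Q
  obtain ⟨f₂, hf₂⟩ := step Q.swap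
  obtain ⟨N, g, hN⟩ := (Q.chart d 1).exists_pow_mul_mem (f₁ - f₂) (MvPolynomial.X none)
    (fun x hx => by
      have hx' : (Q.xi x) none ≠ 0 := by
        have : MvPolynomial.eval (Q.xi x) (MvPolynomial.X none) ≠ 0 := hx
        rwa [MvPolynomial.eval_X] at this
      have hG : x.1.lead x.1.ord Q.G ≠ 0 := by
        intro h0
        apply hx'
        change x.1.lead x.1.ord Q.G / _ = 0
        rw [h0, zero_div]
      have h1 := hf₁ x
      have h2 := hf₂ ⟨x.1, x.2.1, hG⟩
      have e : f₁ - f₂ = (f₁ - e x.1) - (f₂ - e x.1) := by ring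
      rw [e]
      change _ ∈ stalk p d (fun _ => -((1 : ℕ) : ℤ)) x.1
      rw [hone]
      exact AddSubgroup.sub_mem _ h1 h2)
  obtain ⟨s₁, hs₁, s₂, hs₂, hs⟩ := Q.decompose d N g
  have hX2 : (Q.chart d 1).phi (MvPolynomial.X none) = toFrac Q.G / toFrac Q.F := Q.phi_none
  have hF := toFrac_ne_zero Q.hF0
  have hG := toFrac_ne_zero Q.hG0
  have hdiff : f₁ - f₂ = s₁ + s₂ := by
    rw [← hs]
    have h1 : (toFrac Q.G / toFrac Q.F) ^ N * (f₁ - f₂) = Q.gen d 1 * Q.phi g := by
      rw [← hN, hX2]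
    rw [← h1]
    have h2 : (toFrac Q.G / toFrac Q.F) ^ N * (toFrac Q.F / toFrac Q.G) ^ N = 1 := by
      rw [← mul_pow]
      have : toFrac Q.G / toFrac Q.F * (toFrac Q.F / toFrac Q.G) = 1 := by field_simp
      rw [this, one_pow]
    calc f₁ - f₂ = ((toFrac Q.G / toFrac Q.F) ^ N * (toFrac Q.F / toFrac Q.G) ^ N) *
          (f₁ - f₂) := by rw [h2, one_mul]
      _ = _ := by ring
  refine ⟨f₁ - s₁, fun x hx => ?_⟩
  rcases Q.lead_ne_zero_or x hx with h | h
  · have h1 := hf₁ ⟨x, hx, h⟩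
    have h2 := hle Q ⟨x, hx, h⟩ s₁ hs₁
    have e : f₁ - s₁ - e x = (f₁ - e x) - s₁ := by ring
    rw [e]
    exact AddSubgroup.sub_mem _ h1 h2
  · have h1 := hf₂ ⟨x, hx, h⟩
    have h2 := hle Q.swap ⟨x, hx, h⟩ s₂ hs₂
    have e : f₁ - s₁ - e x = (f₂ - e x) + s₂ := by linear_combination hdiff
    rw [e]
    exact AddSubgroup.add_mem _ h1 h2

end LPencil

end

end Pool.Agent.Lib.MP_ee7b66_ag.Hes
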