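import Mathlib
import Pool.Agent.Lib.MP_ee7b66_ag.PencilC

/-!
# The quartic pencils through the twelve triple points of the dual Hesse arrangement
-/

open scoped LinearAlgebra.Projectivization
open TopologicalSpace MvPolynomial

universe u

namespace Pool.Agent.Lib.MP_ee7b66_ag.Hes

open Pool.Agent.Lib.MP_8481ed_ag

noncomputable section

variable {k : Type u} [Field k] {r : ℕ} {p : Fin r → Plane k}

/-- The equations of the twelve triple points of the dual Hesse arrangement. -/
def HesseZero (v : Fin 3 → k) : Prop :=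
  v 0 * (v 1 ^ 3 - v 2 ^ 3) = 0 ∧ v 1 * (v 2 ^ 3 - v 0 ^ 3) = 0 ∧ v 2 * (v 0 ^ 3 - v 1 ^ 3) = 0

lemma fin3_cases : ∀ a b c : Fin 3, a ≠ b → a ≠ c → b ≠ c → ∀ j, j = a ∨ j = b ∨ j = c := by
  decide

lemma HesseZero.eqs {v : Fin 3 → k} (h : HesseZero v) : ∀ a b c : Fin 3, a ≠ b → a ≠ c → b ≠ c →
    v a * (v b ^ 3 - v c ^ 3) = 0 := by
  obtain ⟨h0, h1, h2⟩ := h
  intro a b c hab hac hbc
  fin_cases a <;> fin_cases b <;> fin_cases c <;> simp at hab hac hbc
  all_goals simp only [Fin.zero_eta, Fin.mk_one, Fin.reduceFinMk]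
  all_goals first
    | linear_combination h0
    | linear_combination h1
    | linear_combination h2
    | linear_combination -h0
    | linear_combination -h1
    | linear_combination -h2

lemma hesseZero_of_eqs {v : Fin 3 → k} (a b c : Fin 3) (hab : a ≠ b) (hac : a ≠ c) (hbc : b ≠ c)
    (h1 : v a * (v b ^ 3 - v c ^ 3) = 0) (h2 : v b * (v a ^ 3 - v c ^ 3) = 0)
    (h3 : v c * (v a ^ 3 - v b ^ 3) = 0) : HesseZero v := by
  unfold HesseZero
  fin_cases a <;> fin_cases b <;> fin_cases c <;> simp at hab hac hbc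
  all_goals
    simp only [Fin.zero_eta, Fin.mk_one, Fin.reduceFinMk] at h1 h2 h3
    refine ⟨?_, ?_, ?_⟩
  all_goals first
    | linear_combination h1
    | linear_combination h2
    | linear_combination h3
    | linear_combination -h1
    | linear_combination -h2
    | linear_combination -h3

lemma pointIdeal_le [Infinite k] (P : Plane k) {a b c : Fin 3} (hab : a ≠ b) (hac : a ≠ c)
    (hbc : b ≠ c) (hc : P.rep c ≠ 0) :
    pointIdeal P ≤ Ideal.span {X a - C (P.rep a / P.rep c) * X c,
      X b - C (P.rep b / P.rep c) * X c} := by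
  intro f hf
  set I : Ideal (CoordRing k) := Ideal.span {X a - C (P.rep a / P.rep c) * X c,
      X b - C (P.rep b / P.rep c) * X c} with hI
  let ψ : CoordRing k →ₐ[k] CoordRing k := aeval (fun j => C (P.rep j / P.rep c) * X c)
  have h1 : (Ideal.Quotient.mkₐ k I).comp ψ = Ideal.Quotient.mkₐ k I := by
    apply MvPolynomial.algHom_ext
    intro j
    have hj : ψ (X j) = C (P.rep j / P.rep c) * X c := aeval_X _ _
    rw [AlgHom.comp_apply, hj]
    change Ideal.Quotient.mk I _ = Ideal.Quotient.mk I _
    rw [eq_comm, Ideal.Quotient.eq]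
    rcases fin3_cases a b c hab hac hbc j with rfl | rfl | rfl
    · exact Ideal.subset_span (by simp)
    · exact Ideal.subset_span (by simp)
    · rw [div_self hc]
      simp
  have h2 : ψ f = 0 := by
    apply MvPolynomial.funext
    intro v
    have e1 : eval v (ψ f) = eval ((v c / P.rep c) • P.rep) f := by
      have e2 : (MvPolynomial.aeval v : CoordRing k →ₐ[k] k).comp ψ =
          MvPolynomial.aeval ((v c / P.rep c) • P.rep) := by
        apply MvPolynomial.algHom_ext
        intro j
        have hj : ψ (X j) = C (P.rep j / P.rep c) * X c := aeval_X _ _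
        rw [AlgHom.comp_apply, hj]
        simp
        ring
      have e3 := congrArg (fun φ : CoordRing k →ₐ[k] k => φ f) e2
      exact e3
    rw [e1, map_zero]
    apply eval_eq_zero_of_mem_pointIdeal hf
  have h3 := congrArg (fun φ : CoordRing k →ₐ[k] (CoordRing k ⧸ I) => φ f) h1
  have h4 : Ideal.Quotient.mk I (ψ f) = Ideal.Quotient.mk I f := h3
  rw [h2, map_zero] at h4
  exact (Ideal.Quotient.eq_zero_iff_mem).1 h4.symm

lemma hom_X (j : Fin 3) : (X j : CoordRing k).IsHomogeneous 1 := isHomogeneous_X k j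

lemma hom_X_pow (j : Fin 3) (n : ℕ) : (X j ^ n : CoordRing k).IsHomogeneous n := by
  have := (isHomogeneous_X k j).pow n
  rwa [one_mul] at this

lemma hom_C_mul {A : CoordRing k} {n : ℕ} (hA : A.IsHomogeneous n) (t : k) :
    (C t * A).IsHomogeneous n := by
  have := (isHomogeneous_C (Fin 3) t).mul hA
  rwa [zero_add] at this

lemma hom_sub_X (a c : Fin 3) (t : k) : (X a - C t * X c : CoordRing k).IsHomogeneous 1 :=
  (hom_X a).sub (hom_C_mul (hom_X c) t)

lemma hom_cube (a c : Fin 3) : (X a ^ 3 - X c ^ 3 : CoordRing k).IsHomogeneous 3 :=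
  (hom_X_pow a 3).sub (hom_X_pow c 3)

lemma hom_quad (a b c : Fin 3) (t : k) :
    (X b * (X a ^ 2 + C t * X a * X c + C t ^ 2 * X c ^ 2) : CoordRing k).IsHomogeneous 3 := by
  have h1 : (X a ^ 2 + C t * X a * X c + C t ^ 2 * X c ^ 2 : CoordRing k).IsHomogeneous 2 := by
    refine ((hom_X_pow a 2).add ?_).add ?_
    · exact (hom_C_mul (hom_X a) t).mul (hom_X c)
    · rw [← C_pow]
      exact hom_C_mul (hom_X_pow c 2) _
  exact (hom_X b).mul h1

/-- Values of a point of the configuration in the affine plane `X_c ≠ 0`. -/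
lemma hesse_cases {v : Fin 3 → k} (hv : HesseZero v) {a b c : Fin 3} (hab : a ≠ b) (hac : a ≠ c)
    (hbc : b ≠ c) (hc : v c ≠ 0) :
    (v a = 0 ∧ v b = 0) ∨ (v a ≠ 0 ∧ v b ≠ 0 ∧ (v a / v c) ^ 3 = 1 ∧ (v b / v c) ^ 3 = 1) := by
  have h1 := hv.eqs a b c hab hac hbc
  have h2 := hv.eqs b a c hab.symm hbc hac
  have h3 := hv.eqs c a b hac.symm hbc.symm hab
  have h4 := (mul_eq_zero.1 h3).resolve_left hc
  by_cases ha : v a = 0
  · left
    refine ⟨ha, ?_⟩
    rw [ha] at h4
    have : v b ^ 3 = 0 := by linear_combination -h4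
    exact pow_eq_zero_iff (n := 3) (by norm_num) |>.1 this
  · right
    have h5 := (mul_eq_zero.1 h1).resolve_left ha
    have hb : v b ≠ 0 := by
      intro hb
      rw [hb] at h5
      exact hc (pow_eq_zero_iff (n := 3) (by norm_num) |>.1 (by linear_combination -h5))
    have h6 := (mul_eq_zero.1 h2).resolve_left hb
    refine ⟨ha, hb, ?_, ?_⟩
    · rw [div_pow, sub_eq_zero.1 h6, div_self (pow_ne_zero _ hc)]
    · rw [div_pow, sub_eq_zero.1 h5, div_self (pow_ne_zero _ hc)]

lemma cube_factor (a c : Fin 3) {t : k} (ht : t ^ 3 = 1) (B : CoordRing k) :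
    B * (X a ^ 3 - X c ^ 3) = (X a - C t * X c) * (B * (X a ^ 2 + C t * X a * X c +
      C t ^ 2 * X c ^ 2)) := by
  have h : (C t : CoordRing k) ^ 3 = 1 := by rw [← C_pow, ht, C_1]
  linear_combination (B * X c ^ 3) * h

open Classical in
/-- The pencil of quartics `X_b (X_a³ - X_c³)`, `X_a (X_b³ - X_c³)`: over the affine plane
`X_c ≠ 0` its base points are exactly the points of the configuration. -/
def hessePencil [Infinite k] (h3 : (3 : k) ≠ 0)
    (hp : ∀ q : Plane k, HesseZero q.rep ↔ ∃ i, q = p i)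
    (a b c : Fin 3) (hab : a ≠ b) (hac : a ≠ c) (hbc : b ≠ c) : LPencil p c where
  F := X b * (X a ^ 3 - X c ^ 3)
  G := X a * (X b ^ 3 - X c ^ 3)
  U i := if (p i).rep a = 0 then X b else X a - C ((p i).rep a / (p i).rep c) * X c
  V i := if (p i).rep a = 0 then X a else X b - C ((p i).rep b / (p i).rep c) * X c
  F' i := if (p i).rep a = 0 then X a ^ 3 - X c ^ 3 else
    X b * (X a ^ 2 + C ((p i).rep a / (p i).rep c) * X a * X c +
      C ((p i).rep a / (p i).rep c) ^ 2 * X c ^ 2)
  G' i := if (p i).rep a = 0 then X b ^ 3 - X c ^ 3 else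
    X a * (X b ^ 2 + C ((p i).rep b / (p i).rep c) * X b * X c +
      C ((p i).rep b / (p i).rep c) ^ 2 * X c ^ 2)
  hF := (hom_X b).mul (hom_cube a c)
  hG := (hom_X a).mul (hom_cube b c)
  hF0 := by
    intro h
    have := congrArg (eval (fun j => if j = a ∨ j = b then (1 : k) else 0)) h
    simp [hac.symm, hbc.symm] at this
  hG0 := by
    intro h
    have := congrArg (eval (fun j => if j = a ∨ j = b then (1 : k) else 0)) h
    simp [hac.symm, hbc.symm] at this
  hFU := by
    intro i hi
    rw [eval_X] at hi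
    rcases hesse_cases ((hp (p i)).2 ⟨i, rfl⟩) hab hac hbc hi with h | h
    · rw [if_pos h.1, if_pos h.1]
    · rw [if_neg h.1, if_neg h.1]
      exact cube_factor a c h.2.2.1 _
  hGV := by
    intro i hi
    rw [eval_X] at hi
    rcases hesse_cases ((hp (p i)).2 ⟨i, rfl⟩) hab hac hbc hi with h | h
    · rw [if_pos h.1, if_pos h.1]
    · rw [if_neg h.1, if_neg h.1]
      exact cube_factor b c h.2.2.2 _
  hU := by
    intro i
    split_ifs
    · exact hom_X b
    · exact hom_sub_X a c _
  hV := by
    intro i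
    split_ifs
    · exact hom_X a
    · exact hom_sub_X b c _
  hF'3 := by
    intro i
    split_ifs
    · exact hom_cube a c
    · exact hom_quad a b c _
  hG'3 := by
    intro i
    split_ifs
    · exact hom_cube b c
    · exact hom_quad b a c _
  hF' := by
    intro i hi
    rw [eval_X] at hi
    rcases hesse_cases ((hp (p i)).2 ⟨i, rfl⟩) hab hac hbc hi with h | h
    · rw [if_pos h.1]
      simp [h.1, hi]
    · rw [if_neg h.1]
      have h1 : (p i).rep a / (p i).rep c * (p i).rep c = (p i).rep a := div_mul_cancel₀ _ hi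
      simp only [map_mul, map_add, map_pow, eval_X, eval_C]
      have h2 : (p i).rep a ^ 2 + (p i).rep a / (p i).rep c * (p i).rep a * (p i).rep c +
          ((p i).rep a / (p i).rep c) ^ 2 * (p i).rep c ^ 2 = 3 * (p i).rep a ^ 2 := by
        field_simp
        ring
      rw [h2]
      exact mul_ne_zero h.2.1 (mul_ne_zero h3 (pow_ne_zero _ h.1))
  hG' := by
    intro i hi
    rw [eval_X] at hi
    rcases hesse_cases ((hp (p i)).2 ⟨i, rfl⟩) hab hac hbc hi with h | h
    · rw [if_pos h.1]
      simp [h.2, hi]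
    · rw [if_neg h.1]
      simp only [map_mul, map_add, map_pow, eval_X, eval_C]
      have h2 : (p i).rep b ^ 2 + (p i).rep b / (p i).rep c * (p i).rep b * (p i).rep c +
          ((p i).rep b / (p i).rep c) ^ 2 * (p i).rep c ^ 2 = 3 * (p i).rep b ^ 2 := by
        field_simp
        ring
      rw [h2]
      exact mul_ne_zero h.1 (mul_ne_zero h3 (pow_ne_zero _ h.2.1))
  hUI := by
    intro i hi
    rw [eval_X] at hi
    rcases hesse_cases ((hp (p i)).2 ⟨i, rfl⟩) hab hac hbc hi with h | h
    · rw [if_pos h.1]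
      refine mem_pointIdeal_of_homog (hom_X b) _ ?_
      rw [eval_X, h.2]
    · rw [if_neg h.1]
      refine mem_pointIdeal_of_homog (hom_sub_X a c _) _ ?_
      simp [hi]
  hVI := by
    intro i hi
    rw [eval_X] at hi
    rcases hesse_cases ((hp (p i)).2 ⟨i, rfl⟩) hab hac hbc hi with h | h
    · rw [if_pos h.1]
      refine mem_pointIdeal_of_homog (hom_X a) _ ?_
      rw [eval_X, h.1]
    · rw [if_neg h.1]
      refine mem_pointIdeal_of_homog (hom_sub_X b c _) _ ?_
      simp [hi]
  hI := by
    intro i hi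
    rw [eval_X] at hi
    have h0 := pointIdeal_le (p i) hab hac hbc hi
    rcases hesse_cases ((hp (p i)).2 ⟨i, rfl⟩) hab hac hbc hi with h | h
    · rw [if_pos h.1, if_pos h.1]
      rw [h.1, h.2] at h0
      simp only [zero_div, C_0, zero_mul, sub_zero] at h0
      rwa [Set.pair_comm]
    · rw [if_neg h.1, if_neg h.1]
      exact h0
  hdir := by
    intro i hi u v
    rw [eval_X] at hi
    by_cases h : (p i).rep a = 0
    · rw [if_pos h, if_pos h]
      refine ⟨fun j => if j = b then u else v, ?_, ?_⟩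
      · simp
      · simp [hab]
    · rw [if_neg h, if_neg h]
      refine ⟨fun j => if j = a then u else if j = b then v else 0, ?_, ?_⟩
      · simp [hac.symm, hbc.symm]
      · simp [hac.symm, hbc.symm, hab.symm]
  hcommon := by
    intro q hq hF hG
    rw [eval_X] at hq
    simp only [map_mul, map_sub, map_pow, eval_X] at hF hG
    apply (hp q).1
    refine hesseZero_of_eqs a b c hab hac hbc hG hF ?_
    rcases mul_eq_zero.1 hF with h | h
    · rw [h] at hG ⊢
      have : q.rep a * q.rep c ^ 3 = 0 := by linear_combination -hG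
      have ha := (mul_eq_zero.1 this).resolve_right (pow_ne_zero _ hq)
      rw [ha]
      ring
    · by_cases ha : q.rep a = 0
      · rw [ha] at h
        exact absurd (pow_eq_zero_iff (n := 3) (by norm_num) |>.1 (by linear_combination -h)) hq
      · have h5 := (mul_eq_zero.1 hG).resolve_left ha
        linear_combination q.rep c * (h - h5)

end

end Pool.Agent.Lib.MP_ee7b66_ag.Hes
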