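import Mathlib
import Pool.Agent.Lib.MP_ee7b66_ag.HessePencil

/-!
# The contraction of a rational vector field with the second basic derivation of the arrangement
-/

open scoped LinearAlgebra.Projectivization
open TopologicalSpace MvPolynomial

universe u

namespace Pool.Agent.Lib.MP_ee7b66_ag.Hes

open Pool.Agent.Lib.MP_8481ed_ag

noncomputable section

variable {k : Type u} [Field k]

/-- The linear form with given coefficients. -/
def lf (u : Fin 3 → k) : CoordRing k := ∑ j, C (u j) * X j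

/-- The equation of the arrangement: the product of the nine lines. -/
def arrQ (k : Type u) [Field k] : CoordRing k :=
  (X 0 ^ 3 - X 1 ^ 3) * (X 1 ^ 3 - X 2 ^ 3) * (X 2 ^ 3 - X 0 ^ 3)

/-- The value of the derivation `X₁²X₂² ∂₀ + X₀²X₂² ∂₁ + X₀²X₁² ∂₂` at a linear form. -/
def th2 (u : Fin 3 → k) : CoordRing k :=
  C (u 0) * (X 1 ^ 2 * X 2 ^ 2) + C (u 1) * (X 0 ^ 2 * X 2 ^ 2) + C (u 2) * (X 0 ^ 2 * X 1 ^ 2)

/-- The derivative of `U / M` for a derivation with given values at `X₀/X₂` and `X₁/X₂`. -/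
def dlin (u m : Fin 3 → k) (dx dy : Frac k) : Frac k :=
  toFrac (X 2) * (toFrac (lf m) * (toFrac (C (u 0)) * dx + toFrac (C (u 1)) * dy) -
    toFrac (lf u) * (toFrac (C (m 0)) * dx + toFrac (C (m 1)) * dy)) / toFrac (lf m) ^ 2

/-- The contraction. -/
def contr (dx dy : Frac k) : Frac k :=
  toFrac (X 2) * (dx * toFrac (X 0 ^ 2 * (X 2 ^ 3 - X 1 ^ 3)) -
    dy * toFrac (X 1 ^ 2 * (X 2 ^ 3 - X 0 ^ 3))) / toFrac (arrQ k)

/-- The determinant of three linear forms. -/
def det3 (u v m : Fin 3 → k) : k :=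
  u 0 * (v 1 * m 2 - v 2 * m 1) - u 1 * (v 0 * m 2 - v 2 * m 0) + u 2 * (v 0 * m 1 - v 1 * m 0)

lemma lin_apply (u : Fin 3 → k) : lf u = C (u 0) * X 0 + C (u 1) * X 1 + C (u 2) * X 2 := by
  rw [lf, Fin.sum_univ_three]

lemma hom_lin (u : Fin 3 → k) : (lf u).IsHomogeneous 1 := by
  rw [lin_apply]
  exact ((hom_C_mul (hom_X 0) _).add (hom_C_mul (hom_X 1) _)).add (hom_C_mul (hom_X 2) _)

lemma hom_th2 (u : Fin 3 → k) : (th2 u).IsHomogeneous 4 := by
  unfold th2
  exact ((hom_C_mul ((hom_X_pow 1 2).mul (hom_X_pow 2 2)) _).add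
    (hom_C_mul ((hom_X_pow 0 2).mul (hom_X_pow 2 2)) _)).add
    (hom_C_mul ((hom_X_pow 0 2).mul (hom_X_pow 1 2)) _)

lemma eval_lin (u z : Fin 3 → k) : eval z (lf u) = u 0 * z 0 + u 1 * z 1 + u 2 * z 2 := by
  simp [lin_apply]

lemma arrQ_ne_zero : arrQ k ≠ 0 := by
  have h : ∀ a b : Fin 3, a ≠ b → (X a ^ 3 - X b ^ 3 : CoordRing k) ≠ 0 := by
    intro a b hab h
    have := congrArg (eval (fun j => if j = a then (1 : k) else 0)) h
    simp [hab.symm] at this
  exact mul_ne_zero (mul_ne_zero (h 0 1 (by decide)) (h 1 2 (by decide))) (h 2 0 (by decide))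

/-- The contraction in a frame of linear forms. -/
lemma frame_identity (u v m : Fin 3 → k) (dx dy : Frac k) (hm : lf m ≠ 0) :
    contr dx dy * toFrac (C (det3 u v m)) * toFrac (arrQ k) =
      toFrac (lf m) * (dlin u m dx dy * toFrac (lf m * th2 v - lf v * th2 m) -
        dlin v m dx dy * toFrac (lf m * th2 u - lf u * th2 m)) := by
  have hM := toFrac_ne_zero hm
  have hQ := toFrac_ne_zero (arrQ_ne_zero (k := k))
  rw [contr, dlin, dlin]
  rw [div_mul_eq_mul_div, div_mul_cancel₀ _ hQ]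
  field_simp
  simp only [lin_apply, th2, det3, map_add, map_sub, map_mul, map_pow]
  ring

/-- Product rule for `V / M = (U / M) (V / U)`. -/
lemma dlin_mul (u v m : Fin 3 → k) (dx dy : Frac k) (hm : lf m ≠ 0) (hu : lf u ≠ 0) :
    dlin v m dx dy = toFrac (lf u) / toFrac (lf m) * dlin v u dx dy +
      toFrac (lf v) / toFrac (lf u) * dlin u m dx dy := by
  have hM := toFrac_ne_zero hm
  have hU := toFrac_ne_zero hu
  rw [dlin, dlin, dlin]
  field_simp
  ring

/-- The contraction at a point of an exceptional curve. -/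
lemma frame_identity_exc (u v m : Fin 3 → k) (dx dy : Frac k) (hm : lf m ≠ 0) (hu : lf u ≠ 0) :
    contr dx dy * toFrac (C (det3 u v m)) * toFrac (arrQ k) =
      dlin u m dx dy * toFrac (lf m) ^ 2 * toFrac (lf u * th2 v - lf v * th2 u) /
        toFrac (lf u) -
      dlin v u dx dy * toFrac (lf u * (lf m * th2 u - lf u * th2 m)) := by
  have hM := toFrac_ne_zero hm
  have hU := toFrac_ne_zero hu
  rw [frame_identity u v m dx dy hm, dlin_mul u v m dx dy hm hu]
  simp only [map_sub, map_mul]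
  field_simp
  ring

end

end Pool.Agent.Lib.MP_ee7b66_ag.Hes
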