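import Mathlib
import Pool.Agent.Lib.MP_ee7b66_ag.ContrDefs

/-!
# Local algebra of the dual Hesse arrangement at its triple points
-/

open scoped LinearAlgebra.Projectivization
open TopologicalSpace MvPolynomial

universe u

namespace Pool.Agent.Lib.MP_ee7b66_ag.Hes

open Pool.Agent.Lib.MP_8481ed_ag

noncomputable section

variable {k : Type u} [Field k]

/-- The nine lines `X_a = ζ X_b`, `ζ³ = 1`, of the arrangement. -/
def ArrLine (l : Fin 3 → k) : Prop :=
  ∃ (a b : Fin 3) (ζ : k), a ≠ b ∧ ζ ^ 3 = 1 ∧ l = Pi.single a 1 - ζ • Pi.single b 1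

lemma lin_sub_smul {a b : Fin 3} (hab : a ≠ b) (ζ : k) :
    lf (Pi.single a 1 - ζ • Pi.single b 1 : Fin 3 → k) = X a - C ζ * X b := by
  rw [lin_apply]
  fin_cases a <;> fin_cases b <;> simp at hab ⊢
  all_goals ring

lemma th2_sub_smul {a b c : Fin 3} (hab : a ≠ b) (hac : a ≠ c) (hbc : b ≠ c) (ζ : k) :
    th2 (Pi.single a 1 - ζ • Pi.single b 1 : Fin 3 → k) =
      X b ^ 2 * X c ^ 2 - C ζ * (X a ^ 2 * X c ^ 2) := by
  rw [th2]
  fin_cases a <;> fin_cases b <;> fin_cases c <;> simp at hab hac hbc ⊢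
  all_goals ring

/-- The derivation is tangent to the line `X_a = ζ X_b`. -/
lemma th2_line {a b c : Fin 3} (hab : a ≠ b) (hac : a ≠ c) (hbc : b ≠ c) {ζ : k} (hζ : ζ ^ 3 = 1) :
    th2 (Pi.single a 1 - ζ • Pi.single b 1 : Fin 3 → k) =
      (X a - C ζ * X b) * (-(C ζ * X c ^ 2 * (X a + C ζ * X b))) := by
  have h : (C ζ : CoordRing k) ^ 3 = 1 := by rw [← C_pow, hζ, C_1]
  rw [th2_sub_smul hab hac hbc]
  linear_combination (-(X b ^ 2 * X c ^ 2)) * h

/-- The equation of the arrangement in terms of distinct indices. -/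
lemma arrQ_eq {a b c : Fin 3} (hab : a ≠ b) (hac : a ≠ c) (hbc : b ≠ c) :
    ∃ s : k, s ≠ 0 ∧ arrQ k = C s * ((X a ^ 3 - X b ^ 3) * (X b ^ 3 - X c ^ 3) *
      (X c ^ 3 - X a ^ 3)) := by
  have h1 : (1 : k) ≠ 0 := one_ne_zero
  have h2 : (-1 : k) ≠ 0 := neg_ne_zero.2 h1
  unfold arrQ
  fin_cases a <;> fin_cases b <;> fin_cases c <;> simp at hab hac hbc
  all_goals simp only [Fin.zero_eta, Fin.mk_one, Fin.reduceFinMk]
  all_goals first
    | (refine ⟨1, h1, ?_⟩; rw [C_1]; ring1)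
    | (refine ⟨-1, h2, ?_⟩; rw [C_neg, C_1]; ring1)

/-- The structure of the arrangement at a triple point `P`: three lines `l j` through `P`, the
other lines do not pass through `P`, and `U θ(V) - V θ(U)` is divisible by the three lines for all
linear forms `U`, `V` vanishing at `P`. -/
structure TriplePt (P : Fin 3 → k) where
  /-- the three lines -/
  l : Fin 3 → (Fin 3 → k)
  /-- the product of the other lines -/
  Q' : CoordRing k
  line : ∀ j, ArrLine (l j)
  hl : ∀ j, eval P (lf (l j)) = 0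
  hQ : arrQ k = lf (l 0) * lf (l 1) * lf (l 2) * Q'
  homQ' : Q'.IsHomogeneous 6
  hQ' : eval P Q' ≠ 0
  /-- different lines have different directions -/
  indep : ∀ i j, i ≠ j → ∀ w : Fin 3 → k, eval w (lf (l i)) = 0 → eval w (lf (l j)) = 0 →
    ∃ t : k, w = t • P
  /-- the key divisibility -/
  wedge : ∀ u v : Fin 3 → k, eval P (lf u) = 0 → eval P (lf v) = 0 →
    ∃ R : CoordRing k, R.IsHomogeneous 2 ∧
      lf u * th2 v - lf v * th2 u = lf (l 0) * lf (l 1) * lf (l 2) * R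
  /-- the derivation vanishes at `P` -/
  van : ∀ u : Fin 3 → k, eval P (lf u) = 0 → eval P (th2 u) = 0

/-- The triple points with three nonzero coordinates. -/
lemma triplePt_B (h3 : (3 : k) ≠ 0) (P : Fin 3 → k) (h0 : P 0 ≠ 0) (h1 : P 1 ≠ 0) (h2 : P 2 ≠ 0)
    (h01 : P 0 ^ 3 = P 1 ^ 3) (h12 : P 1 ^ 3 = P 2 ^ 3) : Nonempty (TriplePt P) := by
  obtain ⟨ζ, hζ⟩ : ∃ ζ, ζ = P 0 / P 1 := ⟨_, rfl⟩
  obtain ⟨η, hη⟩ : ∃ η, η = P 1 / P 2 := ⟨_, rfl⟩
  obtain ⟨θ, hθ⟩ : ∃ θ, θ = P 2 / P 0 := ⟨_, rfl⟩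
  have hζ3 : ζ ^ 3 = 1 := by rw [hζ, div_pow, h01, div_self (pow_ne_zero _ h1)]
  have hη3 : η ^ 3 = 1 := by rw [hη, div_pow, h12, div_self (pow_ne_zero _ h2)]
  have hθ3 : θ ^ 3 = 1 := by
    rw [hθ, div_pow, ← h12, ← h01, div_self (pow_ne_zero _ h0)]
  have e0 : P 0 = ζ * P 1 := by rw [hζ, div_mul_cancel₀ _ h1]
  have e1 : P 1 = η * P 2 := by rw [hη, div_mul_cancel₀ _ h2]
  have e2 : P 2 = θ * P 0 := by rw [hθ, div_mul_cancel₀ _ h0]
  have hprod : θ = ζ ^ 2 * η ^ 2 := by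
    have h : ζ * η * θ = 1 := by
      rw [hζ, hη, hθ]
      field_simp
    linear_combination (ζ ^ 2 * η ^ 2) * h - (θ * η ^ 3) * hζ3 - θ * hη3
  have hl0 := lin_sub_smul (k := k) (a := 0) (b := 1) (by decide) ζ
  have hl1 := lin_sub_smul (k := k) (a := 1) (b := 2) (by decide) η
  have hl2 := lin_sub_smul (k := k) (a := 2) (b := 0) (by decide) θ
  refine ⟨⟨![Pi.single 0 1 - ζ • Pi.single 1 1, Pi.single 1 1 - η • Pi.single 2 1,
      Pi.single 2 1 - θ • Pi.single 0 1],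
    (X 0 ^ 2 + C ζ * X 0 * X 1 + C ζ ^ 2 * X 1 ^ 2) *
      (X 1 ^ 2 + C η * X 1 * X 2 + C η ^ 2 * X 2 ^ 2) *
      (X 2 ^ 2 + C θ * X 2 * X 0 + C θ ^ 2 * X 0 ^ 2), ?_, ?_, ?_, ?_, ?_, ?_, ?_, ?_⟩⟩
  · intro j
    fin_cases j
    · exact ⟨0, 1, ζ, by decide, hζ3, rfl⟩
    · exact ⟨1, 2, η, by decide, hη3, rfl⟩
    · exact ⟨2, 0, θ, by decide, hθ3, rfl⟩
  · intro j
    fin_cases j
    · change eval P (lf (Pi.single 0 1 - ζ • Pi.single 1 1)) = 0
      rw [hl0]
      simp [← e0]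
    · change eval P (lf (Pi.single 1 1 - η • Pi.single 2 1)) = 0
      rw [hl1]
      simp [← e1]
    · change eval P (lf (Pi.single 2 1 - θ • Pi.single 0 1)) = 0
      rw [hl2]
      simp [← e2]
  · change arrQ k = lf (Pi.single 0 1 - ζ • Pi.single 1 1) * lf (Pi.single 1 1 - η • Pi.single 2 1) *
      lf (Pi.single 2 1 - θ • Pi.single 0 1) * _
    rw [hl0, hl1, hl2]
    have a0 := cube_factor (k := k) 0 1 hζ3 1
    have a1 := cube_factor (k := k) 1 2 hη3 1
    have a2 := cube_factor (k := k) 2 0 hθ3 1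
    rw [one_mul, one_mul] at a0 a1 a2
    rw [arrQ, a0, a1, a2]
    ring
  · have key : ∀ (a b : Fin 3) (t : k),
        (X a ^ 2 + C t * X a * X b + C t ^ 2 * X b ^ 2 : CoordRing k).IsHomogeneous 2 := by
      intro a b t
      refine ((hom_X_pow a 2).add ?_).add ?_
      · exact (hom_C_mul (hom_X a) t).mul (hom_X b)
      · rw [← C_pow]
        exact hom_C_mul (hom_X_pow b 2) _
    exact ((key 0 1 ζ).mul (key 1 2 η)).mul (key 2 0 θ)
  · simp only [map_mul, map_add, map_pow, eval_X, eval_C]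
    have f0 : P 0 ^ 2 + ζ * P 0 * P 1 + ζ ^ 2 * P 1 ^ 2 = 3 * P 0 ^ 2 := by
      rw [e0]
      ring
    have f1 : P 1 ^ 2 + η * P 1 * P 2 + η ^ 2 * P 2 ^ 2 = 3 * P 1 ^ 2 := by
      rw [e1]
      ring
    have f2 : P 2 ^ 2 + θ * P 2 * P 0 + θ ^ 2 * P 0 ^ 2 = 3 * P 2 ^ 2 := by
      rw [e2]
      ring
    rw [f0, f1, f2]
    exact mul_ne_zero (mul_ne_zero (mul_ne_zero h3 (pow_ne_zero _ h0))
      (mul_ne_zero h3 (pow_ne_zero _ h1))) (mul_ne_zero h3 (pow_ne_zero _ h2))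
  · -- directions
    have g0 : ∀ w : Fin 3 → k, eval w (lf (Pi.single 0 1 - ζ • Pi.single 1 1)) = 0 →
        w 0 / P 0 = w 1 / P 1 := by
      intro w hw
      rw [hl0] at hw
      simp only [map_sub, map_mul, eval_X, eval_C] at hw
      rw [div_eq_div_iff h0 h1, e0]
      linear_combination P 1 * hw
    have g1 : ∀ w : Fin 3 → k, eval w (lf (Pi.single 1 1 - η • Pi.single 2 1)) = 0 →
        w 1 / P 1 = w 2 / P 2 := by
      intro w hw
      rw [hl1] at hw
      simp only [map_sub, map_mul, eval_X, eval_C] at hw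
      rw [div_eq_div_iff h1 h2, e1]
      linear_combination P 2 * hw
    have g2 : ∀ w : Fin 3 → k, eval w (lf (Pi.single 2 1 - θ • Pi.single 0 1)) = 0 →
        w 2 / P 2 = w 0 / P 0 := by
      intro w hw
      rw [hl2] at hw
      simp only [map_sub, map_mul, eval_X, eval_C] at hw
      rw [div_eq_div_iff h2 h0, e2]
      linear_combination P 0 * hw
    have fin : ∀ w : Fin 3 → k, w 0 / P 0 = w 1 / P 1 → w 1 / P 1 = w 2 / P 2 →
        ∃ t : k, w = t • P := by
      intro w a b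
      refine ⟨w 0 / P 0, ?_⟩
      funext j
      fin_cases j
      · change w 0 = w 0 / P 0 * P 0
        rw [div_mul_cancel₀ _ h0]
      · change w 1 = w 0 / P 0 * P 1
        rw [a, div_mul_cancel₀ _ h1]
      · change w 2 = w 0 / P 0 * P 2
        rw [a, b, div_mul_cancel₀ _ h2]
    intro i j hij w hi hj
    fin_cases i <;> fin_cases j
    · exact absurd rfl hij
    · exact fin w (g0 w hi) (g1 w hj)
    · exact fin w (g0 w hi) (((g2 w hj).trans (g0 w hi)).symm)
    · exact fin w (g0 w hj) (g1 w hi)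
    · exact absurd rfl hij
    · exact fin w (((g1 w hi).trans (g2 w hj)).symm) (g1 w hi)
    · exact fin w (g0 w hj) (((g2 w hi).trans (g0 w hj)).symm)
    · exact fin w (((g1 w hj).trans (g2 w hi)).symm) (g1 w hj)
    · exact absurd rfl hij
  · -- the wedge
    intro u v hu hv
    rw [eval_lin] at hu hv
    have decomp : ∀ u : Fin 3 → k, u 0 * P 0 + u 1 * P 1 + u 2 * P 2 = 0 →
        u 2 = -(η * (u 1 + u 0 * ζ)) := by
      intro u hu
      apply mul_right_cancel₀ h2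
      rw [e0, e1] at hu
      linear_combination hu
    have hu2 := decomp u hu
    have hv2 := decomp v hv
    refine ⟨C (u 0 * (v 1 + v 0 * ζ) - v 0 * (u 1 + u 0 * ζ)) *
      (C (ζ * η ^ 2) * (X 0 * X 1) + C (ζ ^ 2) * (X 1 * X 2) + C ζ * (X 0 * X 2)), ?_, ?_⟩
    · apply hom_C_mul
      exact ((hom_C_mul ((hom_X 0).mul (hom_X 1)) _).add
        (hom_C_mul ((hom_X 1).mul (hom_X 2)) _)).add (hom_C_mul ((hom_X 0).mul (hom_X 2)) _)
    · change _ = lf (Pi.single 0 1 - ζ • Pi.single 1 1) *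
        lf (Pi.single 1 1 - η • Pi.single 2 1) * lf (Pi.single 2 1 - θ • Pi.single 0 1) * _
      have cζ : (C ζ : CoordRing k) ^ 3 = 1 := by rw [← C_pow, hζ3, C_1]
      have cη : (C η : CoordRing k) ^ 3 = 1 := by rw [← C_pow, hη3, C_1]
      set L0 : CoordRing k := lf (Pi.single 0 1 - ζ • Pi.single 1 1) with hL0
      set L1 : CoordRing k := lf (Pi.single 1 1 - η • Pi.single 2 1) with hL1
      have t0 := th2_line (k := k) (a := 0) (b := 1) (c := 2) (by decide) (by decide) (by decide) hζ3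
      have t1 := th2_line (k := k) (a := 1) (b := 2) (c := 0) (by decide) (by decide) (by decide) hη3
      have lu : ∀ u : Fin 3 → k, u 2 = -(η * (u 1 + u 0 * ζ)) →
          lf u = C (u 0) * L0 + C (u 1 + u 0 * ζ) * L1 := by
        intro u h
        rw [hl0, hl1, lin_apply, h]
        simp only [C_add, C_mul, C_neg]
        ring
      have tu : ∀ u : Fin 3 → k, u 2 = -(η * (u 1 + u 0 * ζ)) →
          th2 u = C (u 0) * th2 (Pi.single 0 1 - ζ • Pi.single 1 1) +
            C (u 1 + u 0 * ζ) * th2 (Pi.single 1 1 - η • Pi.single 2 1) := by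
        intro u h
        rw [th2_sub_smul (a := 0) (b := 1) (c := 2) (by decide) (by decide) (by decide),
          th2_sub_smul (a := 1) (b := 2) (c := 0) (by decide) (by decide) (by decide), th2, h]
        simp only [C_add, C_mul, C_neg]
        ring
      rw [lu u hu2, lu v hv2, tu u hu2, tu v hv2, t0, t1, hl0, hl1, hl2, hprod]
      simp only [C_add, C_sub, C_mul, C_pow]
      linear_combination ((C (u 0) * (C (v 1) + C (v 0) * C ζ) - C (v 0) * (C (u 1) + C (u 0) * C ζ)) *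
        (X 0 - C ζ * X 1) * (X 1 - C η * X 2)) * ((C ζ * C η ^ 2 * X 0 * X 1 * X 2 +
        C η ^ 2 * X 0 ^ 2 * X 2 + C η ^ 4 * X 0 ^ 2 * X 1) * cζ + (C η * X 0 ^ 2 * X 1) * cη)
  · intro u hu
    rw [eval_lin] at hu
    simp only [th2, map_add, map_mul, map_pow, eval_X, eval_C]
    have hne : P 0 ^ 3 ≠ 0 := pow_ne_zero _ h0
    apply mul_left_cancel₀ hne
    have h02 : P 0 ^ 3 = P 2 ^ 3 := h01.trans h12
    have : P 0 ^ 3 * (u 0 * (P 1 ^ 2 * P 2 ^ 2) + u 1 * (P 0 ^ 2 * P 2 ^ 2) +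
        u 2 * (P 0 ^ 2 * P 1 ^ 2)) = (P 0 * P 1 * P 2) ^ 2 * (u 0 * P 0 + u 1 * P 1 + u 2 * P 2) := by
      linear_combination (u 1 * P 0 ^ 2 * P 2 ^ 2) * h01 + (u 2 * P 0 ^ 2 * P 1 ^ 2) * h02
    rw [this, hu, mul_zero, mul_zero]

lemma lin_abc {a b c : Fin 3} (hab : a ≠ b) (hac : a ≠ c) (hbc : b ≠ c) (u : Fin 3 → k) :
    lf u = C (u a) * X a + C (u b) * X b + C (u c) * X c := by
  rw [lin_apply]
  fin_cases a <;> fin_cases b <;> fin_cases c <;> simp at hab hac hbc <;>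
    simp only [Fin.zero_eta, Fin.mk_one, Fin.reduceFinMk] <;> ring

lemma th2_abc {a b c : Fin 3} (hab : a ≠ b) (hac : a ≠ c) (hbc : b ≠ c) (u : Fin 3 → k) :
    th2 u = C (u a) * (X b ^ 2 * X c ^ 2) + C (u b) * (X a ^ 2 * X c ^ 2) +
      C (u c) * (X a ^ 2 * X b ^ 2) := by
  rw [th2]
  fin_cases a <;> fin_cases b <;> fin_cases c <;> simp at hab hac hbc <;>
    simp only [Fin.zero_eta, Fin.mk_one, Fin.reduceFinMk] <;> ring

/-- The coordinate points. -/
lemma triplePt_A {ω : k} (h3 : (3 : k) ≠ 0) (hω : ω ^ 2 + ω + 1 = 0) (P : Fin 3 → k) {a b c : Fin 3}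
    (hab : a ≠ b) (hac : a ≠ c) (hbc : b ≠ c) (ha : P a = 0) (hb : P b = 0) (hc : P c ≠ 0) :
    Nonempty (TriplePt P) := by
  have hω3 : ω ^ 3 = 1 := by linear_combination (ω - 1) * hω
  have hω1 : ω ≠ 1 := by
    rintro rfl
    apply h3
    linear_combination hω
  have hω0 : ω ≠ 0 := by
    rintro rfl
    simp at hω
  obtain ⟨s, hs, hQ⟩ := arrQ_eq (k := k) hab hac hbc
  have hl0 := lin_sub_smul (k := k) hab 1
  have hl1 := lin_sub_smul (k := k) hab ω
  have hl2 := lin_sub_smul (k := k) hab (ω ^ 2)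
  have hval : ∀ (ζ : k) (w : Fin 3 → k), eval w (lf (Pi.single a 1 - ζ • Pi.single b 1)) = 0 →
      w a = ζ * w b := by
    intro ζ w hw
    rw [lin_sub_smul hab] at hw
    simp only [map_sub, map_mul, eval_X, eval_C] at hw
    linear_combination hw
  have hvan : ∀ ζ : k, eval P (lf (Pi.single a 1 - ζ • Pi.single b 1)) = 0 := by
    intro ζ
    rw [lin_sub_smul hab]
    simp [ha, hb]
  have hlin : ∀ u : Fin 3 → k, eval P (lf u) = 0 → u c = 0 := by
    intro u hu
    rw [lin_abc hab hac hbc] at hu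
    simp only [map_add, map_mul, eval_X, eval_C, ha, hb, mul_zero, zero_add] at hu
    exact (mul_eq_zero.1 hu).resolve_right hc
  refine ⟨⟨![Pi.single a 1 - (1 : k) • Pi.single b 1, Pi.single a 1 - ω • Pi.single b 1,
      Pi.single a 1 - (ω ^ 2) • Pi.single b 1],
    C s * ((X b ^ 3 - X c ^ 3) * (X c ^ 3 - X a ^ 3)), ?_, ?_, ?_, ?_, ?_, ?_, ?_, ?_⟩⟩
  · intro j
    fin_cases j
    · exact ⟨a, b, 1, hab, one_pow 3, rfl⟩
    · exact ⟨a, b, ω, hab, hω3, rfl⟩
    · exact ⟨a, b, ω ^ 2, hab, by rw [← pow_mul, mul_comm, pow_mul, hω3, one_pow], rfl⟩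
  · intro j
    fin_cases j
    · exact hvan 1
    · exact hvan ω
    · exact hvan (ω ^ 2)
  · change arrQ k = lf (Pi.single a 1 - (1 : k) • Pi.single b 1) *
      lf (Pi.single a 1 - ω • Pi.single b 1) * lf (Pi.single a 1 - (ω ^ 2) • Pi.single b 1) * _
    rw [hl0, hl1, hl2, hQ]
    have h : (C ω : CoordRing k) ^ 2 + C ω + 1 = 0 := by
      rw [← C_pow, ← C_1, ← C_add, ← C_add, hω, C_0]
    simp only [C_1, C_pow]
    have key : (X a ^ 3 - X b ^ 3 : CoordRing k) =
        (X a - 1 * X b) * (X a - C ω * X b) * (X a - C ω ^ 2 * X b) := by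
      linear_combination (X a ^ 2 * X b - X a * X b ^ 2 * (C ω) + X b ^ 3 * (C ω - 1)) * h
    rw [key]
    ring
  · apply hom_C_mul
    exact (hom_cube b c).mul (hom_cube c a)
  · simp only [map_mul, map_sub, map_pow, eval_X, eval_C, ha, hb]
    refine mul_ne_zero hs (mul_ne_zero ?_ ?_)
    · simpa using hc
    · simpa using hc
  · have fin : ∀ (ζ η : k) (w : Fin 3 → k), ζ ≠ η → w a = ζ * w b → w a = η * w b →
        ∃ t : k, w = t • P := by
      intro ζ η w hne h1 h2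
      have hwb : w b = 0 := by
        have : (ζ - η) * w b = 0 := by linear_combination h2 - h1
        exact (mul_eq_zero.1 this).resolve_left (sub_ne_zero.2 hne)
      have hwa : w a = 0 := by rw [h1, hwb, mul_zero]
      refine ⟨w c / P c, ?_⟩
      funext j
      rcases fin3_cases a b c hab hac hbc j with rfl | rfl | rfl
      · rw [Pi.smul_apply, ha, smul_zero, hwa]
      · rw [Pi.smul_apply, hb, smul_zero, hwb]
      · rw [Pi.smul_apply, smul_eq_mul, div_mul_cancel₀ _ hc]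
    have n01 : (1 : k) ≠ ω := hω1.symm
    have n02 : (1 : k) ≠ ω ^ 2 := by
      intro h
      apply hω1
      have : ω ^ 3 = ω := by rw [pow_succ, ← h, one_mul]
      rw [hω3] at this
      exact this.symm
    have n12 : ω ≠ ω ^ 2 := by
      intro h
      apply hω1
      have : ω * ω = ω * 1 := by rw [mul_one, ← sq, ← h]
      exact mul_left_cancel₀ hω0 this
    intro i j hij w hi hj
    fin_cases i <;> fin_cases j
    · exact absurd rfl hij
    · exact fin 1 ω w n01 (hval _ w hi) (hval _ w hj)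
    · exact fin 1 (ω ^ 2) w n02 (hval _ w hi) (hval _ w hj)
    · exact fin ω 1 w n01.symm (hval _ w hi) (hval _ w hj)
    · exact absurd rfl hij
    · exact fin ω (ω ^ 2) w n12 (hval _ w hi) (hval _ w hj)
    · exact fin (ω ^ 2) 1 w n02.symm (hval _ w hi) (hval _ w hj)
    · exact fin (ω ^ 2) ω w n12.symm (hval _ w hi) (hval _ w hj)
    · exact absurd rfl hij
  · intro u v hu hv
    have hu' := hlin u hu
    have hv' := hlin v hv
    have h : (C ω : CoordRing k) ^ 2 + C ω + 1 = 0 := by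
      rw [← C_pow, ← C_1, ← C_add, ← C_add, hω, C_0]
    refine ⟨C (u a * v b - u b * v a) * X c ^ 2, hom_C_mul (hom_X_pow c 2) _, ?_⟩
    change _ = lf (Pi.single a 1 - (1 : k) • Pi.single b 1) *
      lf (Pi.single a 1 - ω • Pi.single b 1) * lf (Pi.single a 1 - (ω ^ 2) • Pi.single b 1) * _
    rw [hl0, hl1, hl2]
    simp only [C_1, C_pow]
    have key : (X a - 1 * X b) * (X a - C ω * X b) * (X a - C ω ^ 2 * X b) =
        (X a ^ 3 - X b ^ 3 : CoordRing k) := by
      linear_combination -(X a ^ 2 * X b - X a * X b ^ 2 * (C ω) + X b ^ 3 * (C ω - 1)) * h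
    rw [key]
    have lu : ∀ u : Fin 3 → k, u c = 0 → lf u = C (u a) * X a + C (u b) * X b := by
      intro u hu
      rw [lin_abc hab hac hbc, hu, C_0, zero_mul, add_zero]
    have tu : ∀ u : Fin 3 → k, u c = 0 → th2 u = C (u a) * (X b ^ 2 * X c ^ 2) +
        C (u b) * (X a ^ 2 * X c ^ 2) := by
      intro u hu
      rw [th2_abc hab hac hbc, hu, C_0, zero_mul, add_zero]
    rw [lu u hu', lu v hv', tu u hu', tu v hv']
    simp only [C_sub, C_mul]
    ring
  · intro u hu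
    rw [th2_abc hab hac hbc]
    simp only [map_add, map_mul, map_pow, eval_X, eval_C, ha, hb]
    ring

/-- Every point of the configuration is a triple point. -/
lemma triplePt {ω : k} (h3 : (3 : k) ≠ 0) (hω : ω ^ 2 + ω + 1 = 0) (P : Fin 3 → k) (hP0 : P ≠ 0)
    (hP : HesseZero P) : Nonempty (TriplePt P) := by
  obtain ⟨c, hc⟩ := Function.ne_iff.1 hP0
  have hc' : P c ≠ 0 := hc
  have hex : ∀ c : Fin 3, ∃ a b : Fin 3, a ≠ b ∧ a ≠ c ∧ b ≠ c := by decide
  obtain ⟨a, b, hab, hac, hbc⟩ := hex c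
  rcases hesse_cases hP hab hac hbc hc' with h | h
  · exact triplePt_A h3 hω P hab hac hbc h.1 h.2 hc'
  · have hall : ∀ j, P j ≠ 0 ∧ P j ^ 3 = P c ^ 3 := by
      intro j
      have e : ∀ {x : k}, (x / P c) ^ 3 = 1 → x ^ 3 = P c ^ 3 := by
        intro x hx
        rw [div_pow, div_eq_iff (pow_ne_zero _ hc'), one_mul] at hx
        exact hx
      rcases fin3_cases a b c hab hac hbc j with rfl | rfl | rfl
      · exact ⟨h.1, e h.2.2.1⟩
      · exact ⟨h.2.1, e h.2.2.2⟩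
      · exact ⟨hc', rfl⟩
    exact triplePt_B h3 P (hall 0).1 (hall 1).1 (hall 2).1 ((hall 0).2.trans (hall 1).2.symm)
      ((hall 1).2.trans (hall 2).2.symm)

end

end Pool.Agent.Lib.MP_ee7b66_ag.Hes
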