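import Mathlib
import Pool.Agent.Lib.MP_ee7b66_ag.Triple

/-!
# Regularity of the contraction
-/

open scoped LinearAlgebra.Projectivization
open TopologicalSpace MvPolynomial

universe u

namespace Pool.Agent.Lib.MP_ee7b66_ag.Hes

open Pool.Agent.Lib.MP_8481ed_ag

noncomputable section

variable {k : Type u} [Field k] [IsAlgClosed k] {r : ℕ} {p : Fin r → Plane k}

lemma regular_const (x : BlowUp p) (t : k) : IsRegularAt p 0 0 x (toFrac (C t)) := by
  have h := (HasVal.const x t).isRegular
  rw [IsScalarTower.algebraMap_apply k (CoordRing k) (Frac k)] at h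
  exact h

lemma regular_sub {d : ℤ} {m : Fin r → ℤ} {x : BlowUp p} {s t : Frac k}
    (hs : IsRegularAt p d m x s) (ht : IsRegularAt p d m x t) : IsRegularAt p d m x (s - t) :=
  (stalk p d m x).sub_mem hs ht

omit [IsAlgClosed k] in
lemma toFrac_C_inv {t : k} (ht : t ≠ 0) : toFrac (C t⁻¹ : CoordRing k) * toFrac (C t) = 1 := by
  rw [← map_mul, ← C_mul, inv_mul_cancel₀ ht, C_1, map_one]

omit [IsAlgClosed k] in
lemma det3_single {a b c : Fin 3} (hab : a ≠ b) (hac : a ≠ c) (hbc : b ≠ c) :
    det3 (Pi.single a (1 : k)) (Pi.single b 1) (Pi.single c 1) ≠ 0 := by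
  unfold det3
  fin_cases a <;> fin_cases b <;> fin_cases c <;> simp at hab hac hbc ⊢

omit [IsAlgClosed k] in
lemma det3_line {a b c : Fin 3} (hab : a ≠ b) (hac : a ≠ c) (hbc : b ≠ c) (ζ : k) :
    det3 (Pi.single c (1 : k)) (Pi.single a 1 - ζ • Pi.single b 1) (Pi.single b 1) ≠ 0 := by
  unfold det3
  fin_cases a <;> fin_cases b <;> fin_cases c <;> simp at hab hac hbc ⊢

omit [IsAlgClosed k] in
lemma lin_single (a : Fin 3) : lf (Pi.single a (1 : k)) = X a := by
  rw [lin_apply]
  fin_cases a <;> simp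

/-- The contraction of a local vector field at a point outside the exceptional curves. -/
lemma contr_away (h3 : (3 : k) ≠ 0) (q : Plane k) (hq : ∀ i, q ≠ p i) (hH : ¬ HesseZero q.rep)
    (dx dy : Frac k)
    (H1 : ∀ u m : Fin 3 → k, eval q.rep (lf m) ≠ 0 →
      IsRegularAt p 0 0 (.away q hq) (dlin u m dx dy))
    (H2 : ∀ l m : Fin 3 → k, ArrLine l → eval q.rep (lf l) = 0 → eval q.rep (lf m) ≠ 0 →
      ∃ f, IsRegularAt p 0 0 (.away q hq) f ∧
        dlin l m dx dy = toFrac (lf l) / toFrac (lf m) * f) (e : Fin r → ℤ) :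
    IsRegularAt p (-3) e (.away q hq) (contr dx dy) := by
  set z := q.rep with hz
  have hdiv : ∀ {A B : CoordRing k} {n m : ℕ}, A.IsHomogeneous n → B.IsHomogeneous m →
      (n : ℤ) = m + (-3) → eval z B ≠ 0 →
      IsRegularAt p (-3) e (.away q hq) (toFrac A / toFrac B) := by
    intro A B n m hA hB hnm hBz
    rw [isRegularAt_away_iff]
    exact ⟨n, m, A, B, hA, hB, hnm, hBz, rfl⟩
  have hsm : ∀ {s t : Frac k}, IsRegularAt p 0 0 (.away q hq) s →
      IsRegularAt p (-3) e (.away q hq) t → IsRegularAt p (-3) e (.away q hq) (s * t) :=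
    fun hs ht => isRegularAt_smul hs ht
  have hQ0 := toFrac_ne_zero (arrQ_ne_zero (k := k))
  by_cases hQ : eval z (arrQ k) = 0
  · -- the point lies on exactly one line
    obtain ⟨a, b, c, hab, hac, hbc, hcube⟩ : ∃ a b c : Fin 3, a ≠ b ∧ a ≠ c ∧ b ≠ c ∧
        z a ^ 3 = z b ^ 3 := by
      rw [arrQ, map_mul, map_mul] at hQ
      rcases mul_eq_zero.1 hQ with h | h
      · rcases mul_eq_zero.1 h with h | h
        · exact ⟨0, 1, 2, by decide, by decide, by decide, sub_eq_zero.1 (by simpa using h)⟩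
        · exact ⟨1, 2, 0, by decide, by decide, by decide, sub_eq_zero.1 (by simpa using h)⟩
      · exact ⟨2, 0, 1, by decide, by decide, by decide, sub_eq_zero.1 (by simpa using h)⟩
    have hb : z b ≠ 0 := by
      intro hb
      rw [hb] at hcube
      have ha : z a = 0 := pow_eq_zero_iff (n := 3) (by norm_num) |>.1 (by rw [hcube]; ring)
      apply hH
      refine hesseZero_of_eqs a b c hab hac hbc ?_ ?_ ?_
      · rw [ha, zero_mul]
      · rw [hb, zero_mul]
      · rw [ha, hb]
        ring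
    have hc1 : z b ^ 3 - z c ^ 3 ≠ 0 := by
      intro h
      apply hH
      refine hesseZero_of_eqs a b c hab hac hbc ?_ ?_ ?_
      · rw [h, mul_zero]
      · rw [hcube, h, mul_zero]
      · rw [hcube]
        ring
    have hc2 : z c ^ 3 - z a ^ 3 ≠ 0 := by
      rw [hcube]
      intro h
      exact hc1 (by linear_combination -h)
    obtain ⟨ζ, hζ⟩ : ∃ ζ, ζ = z a / z b := ⟨_, rfl⟩
    have hζ3 : ζ ^ 3 = 1 := by rw [hζ, div_pow, hcube, div_self (pow_ne_zero _ hb)]
    have hza : z a = ζ * z b := by rw [hζ, div_mul_cancel₀ _ hb]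
    obtain ⟨s, hs, hQs⟩ := arrQ_eq (k := k) hab hac hbc
    set l : Fin 3 → k := Pi.single a 1 - ζ • Pi.single b 1 with hl
    have hlin : lf l = X a - C ζ * X b := lin_sub_smul hab ζ
    have hlz : eval z (lf l) = 0 := by
      rw [hlin]
      simp only [map_sub, map_mul, eval_X, eval_C]
      rw [hza, sub_self]
    have hmz : eval z (lf (Pi.single b (1 : k))) ≠ 0 := by
      rw [lin_single, eval_X]
      exact hb
    obtain ⟨f, hf, hdv⟩ := H2 l (Pi.single b 1) ⟨a, b, ζ, hab, hζ3, rfl⟩ hlz hmz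
    have hdu := H1 (Pi.single c 1) (Pi.single b 1) hmz
    have hid := frame_identity (Pi.single c 1) l (Pi.single b 1) dx dy (by
      rw [lin_single]
      exact X_ne_zero b)
    have hdet : det3 (Pi.single c (1 : k)) l (Pi.single b 1) ≠ 0 := det3_line hab hac hbc ζ
    rw [hdv] at hid
    rw [th2_line hab hac hbc hζ3, ← hlin, lin_single, lin_single] at hid
    -- the remaining factor of the equation
    set Q' : CoordRing k := C s * ((X a ^ 2 + C ζ * X a * X b + C ζ ^ 2 * X b ^ 2) *
      ((X b ^ 3 - X c ^ 3) * (X c ^ 3 - X a ^ 3))) with hQ'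
    have hQQ' : arrQ k = lf l * Q' := by
      have h1 := cube_factor (k := k) a b hζ3 1
      rw [one_mul, one_mul] at h1
      rw [hQs, h1, hlin, hQ']
      ring
    have hQ'z : eval z Q' ≠ 0 := by
      rw [hQ']
      simp only [map_mul, map_add, map_sub, map_pow, eval_X, eval_C]
      refine mul_ne_zero hs (mul_ne_zero ?_ (mul_ne_zero hc1 hc2))
      have : z a ^ 2 + ζ * z a * z b + ζ ^ 2 * z b ^ 2 = 3 * z a ^ 2 := by
        rw [hza]
        ring
      rw [this]
      refine mul_ne_zero h3 (pow_ne_zero _ ?_)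
      intro ha
      rw [ha] at hcube
      exact hb (pow_eq_zero_iff (n := 3) (by norm_num) |>.1 (by rw [← hcube]; ring))
    have hQ'hom : Q'.IsHomogeneous 8 := by
      have h1 : (X a ^ 2 + C ζ * X a * X b + C ζ ^ 2 * X b ^ 2 : CoordRing k).IsHomogeneous 2 := by
        refine ((hom_X_pow a 2).add ?_).add ?_
        · exact (hom_C_mul (hom_X a) ζ).mul (hom_X b)
        · rw [← C_pow]
          exact hom_C_mul (hom_X_pow b 2) _
      exact hom_C_mul (h1.mul ((hom_cube b c).mul (hom_cube c a))) s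
    set κ : CoordRing k := -(C ζ * X c ^ 2 * (X a + C ζ * X b)) with hκ
    have hκhom : κ.IsHomogeneous 3 := by
      refine IsHomogeneous.neg ?_
      exact (hom_C_mul (hom_X_pow c 2) ζ).mul ((hom_X a).add (hom_C_mul (hom_X b) ζ))
    obtain ⟨A, hA⟩ : ∃ A : CoordRing k, A = X b * (X b * κ - th2 (Pi.single b 1)) := ⟨_, rfl⟩
    obtain ⟨B, hB⟩ : ∃ B : CoordRing k, B = X b * th2 (Pi.single c 1) -
      X c * th2 (Pi.single b 1) := ⟨_, rfl⟩
    have hAhom : A.IsHomogeneous 5 := by
      rw [hA]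
      exact (hom_X b).mul (((hom_X b).mul hκhom).sub (hom_th2 _))
    have hBhom : B.IsHomogeneous 5 := by
      rw [hB]
      exact ((hom_X b).mul (hom_th2 _)).sub ((hom_X c).mul (hom_th2 _))
    have hL0 : toFrac (lf l) ≠ 0 := by
      intro h
      rw [hQQ', map_mul, h, zero_mul] at hQ0
      exact hQ0 rfl
    have hQ'0 : toFrac Q' ≠ 0 := by
      intro h
      rw [hQQ', map_mul, h, mul_zero] at hQ0
      exact hQ0 rfl
    have hXb : toFrac (X b : CoordRing k) ≠ 0 := toFrac_ne_zero (X_ne_zero b)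
    have hD0 : toFrac (C (det3 (Pi.single c (1 : k)) l (Pi.single b 1))) ≠ 0 :=
      toFrac_ne_zero (by rwa [Ne, C_eq_zero])
    have hfinal : contr dx dy = toFrac (C (det3 (Pi.single c (1 : k)) l (Pi.single b 1))⁻¹) *
        (dlin (Pi.single c 1) (Pi.single b 1) dx dy * (toFrac A / toFrac Q') -
          f * (toFrac B / toFrac Q')) := by
      have hinv := toFrac_C_inv hdet
      have e1 : toFrac (C (det3 (Pi.single c (1 : k)) l (Pi.single b 1))⁻¹) =
          (toFrac (C (det3 (Pi.single c (1 : k)) l (Pi.single b 1))))⁻¹ :=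
        eq_inv_of_mul_eq_one_left hinv
      rw [e1]
      rw [hQQ'] at hid
      rw [hA, hB]
      simp only [map_mul, map_sub] at hid ⊢
      field_simp at hid ⊢
      linear_combination hid
    rw [hfinal]
    refine hsm (regular_const _ _) (regular_sub (hsm hdu ?_) (hsm hf ?_))
    · exact hdiv hAhom hQ'hom (by norm_num) hQ'z
    · exact hdiv hBhom hQ'hom (by norm_num) hQ'z
  · obtain ⟨c, hc⟩ := Function.ne_iff.1 q.rep_nonzero
    have hc' : z c ≠ 0 := hc
    have hex : ∀ c : Fin 3, ∃ a b : Fin 3, a ≠ b ∧ a ≠ c ∧ b ≠ c := by decide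
    obtain ⟨a, b, hab, hac, hbc⟩ := hex c
    have hmz : eval z (lf (Pi.single c (1 : k))) ≠ 0 := by
      rw [lin_single, eval_X]
      exact hc'
    have hdu := H1 (Pi.single a 1) (Pi.single c 1) hmz
    have hdv := H1 (Pi.single b 1) (Pi.single c 1) hmz
    have hid := frame_identity (Pi.single a 1) (Pi.single b 1) (Pi.single c 1) dx dy (by
      rw [lin_single]
      exact X_ne_zero c)
    have hdet := det3_single (k := k) hab hac hbc
    have hinv := toFrac_C_inv hdet
    set D : k := det3 (Pi.single a (1 : k)) (Pi.single b 1) (Pi.single c 1) with hD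
    have e1 : toFrac (C D⁻¹) = (toFrac (C D))⁻¹ := eq_inv_of_mul_eq_one_left hinv
    have hD0 : toFrac (C D) ≠ 0 := toFrac_ne_zero (by rwa [Ne, C_eq_zero])
    have hAhom : ∀ i j : Fin 3, (X c * (X c * th2 (Pi.single i (1 : k)) -
        X j * th2 (Pi.single c 1))).IsHomogeneous 6 := fun i j =>
      (hom_X c).mul (((hom_X c).mul (hom_th2 _)).sub ((hom_X j).mul (hom_th2 _)))
    have hQhom : (arrQ k).IsHomogeneous 9 :=
      ((hom_cube 0 1).mul (hom_cube 1 2)).mul (hom_cube 2 0)
    rw [lin_single, lin_single, lin_single] at hid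
    have hfinal : contr dx dy = toFrac (C D⁻¹) *
        (dlin (Pi.single a 1) (Pi.single c 1) dx dy * (toFrac (X c * (X c * th2 (Pi.single b (1 : k)) -
          X b * th2 (Pi.single c 1))) / toFrac (arrQ k)) -
         dlin (Pi.single b 1) (Pi.single c 1) dx dy * (toFrac (X c * (X c * th2 (Pi.single a (1 : k)) -
          X a * th2 (Pi.single c 1))) / toFrac (arrQ k))) := by
      rw [e1]
      simp only [map_mul, map_sub] at hid ⊢
      field_simp at hid ⊢
      linear_combination hid
    rw [hfinal]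
    refine hsm (regular_const _ _) (regular_sub (hsm hdu ?_) (hsm hdv ?_))
    · exact hdiv (hAhom b b) hQhom (by norm_num) hQ
    · exact hdiv (hAhom a a) hQhom (by norm_num) hQ

end

end Pool.Agent.Lib.MP_ee7b66_ag.Hes
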