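import Mathlib
import Pool.Agent.Lib.MP_ee7b66_ag.Away

/-!
# Charts around points of the exceptional curves
-/

open scoped LinearAlgebra.Projectivization
open Pool.Agent.Lib.MP_8481ed_ag TopologicalSpace MvPolynomial

namespace Pool.Agent.Lib.MP_ee7b66_ag

noncomputable section

variable {r : ℕ} {p : Fin r → Plane ℂ}

/-- A frame `(M, U, V)` at the point `p k`: `U` and `V` vanish there. -/
structure FrameAt (p : Fin r → Plane ℂ) (k : Fin r) extends Frame where
  hU : lin (c 1) (p k).rep = 0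
  hV : lin (c 2) (p k).rep = 0

/-- A form `h` not vanishing at `p k` such that all the other blown up points outside the line
`M = 0` are zeros of `h`. -/
def KillsOther (p : Fin r → Plane ℂ) (k : Fin r) (M : Fin 3 → ℂ) (h : CoordRing ℂ) : Prop :=
  eval (p k).rep h ≠ 0 ∧ ∀ i, i ≠ k → eval (p i).rep h = 0 ∨ lin M (p i).rep = 0

lemma lc9_lin_add (c v w : Fin 3 → ℂ) : lin c (v + w) = lin c v + lin c w := by
  simp only [lin, Pi.add_apply, mul_add, Finset.sum_add_distrib]

lemma lc9_lin_smul (c v : Fin 3 → ℂ) (t : ℂ) : lin c (t • v) = t * lin c v := by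
  simp only [lin, Pi.smul_apply, smul_eq_mul, Finset.mul_sum]
  exact Finset.sum_congr rfl fun i _ => by ring

lemma lc9_vecOf_smul (F : Frame) (y : Fin 3 → ℂ) (t : ℂ) : F.vecOf (t • y) = t • F.vecOf y := by
  unfold Frame.vecOf
  rw [Matrix.mulVec_smul]

lemma lc9_vecOf_add (F : Frame) (y z : Fin 3 → ℂ) :
    F.vecOf (y + z) = F.vecOf y + F.vecOf z := by
  unfold Frame.vecOf
  rw [Matrix.mulVec_add]

/-- Two vectors with the same coordinates are equal. -/
lemma lc9_ext (F : Frame) (v w : Fin 3 → ℂ) (h0 : lin (F.c 0) v = lin (F.c 0) w)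
    (h1 : lin (F.c 1) v = lin (F.c 1) w) (h2 : lin (F.c 2) v = lin (F.c 2) w) : v = w := by
  have h : (fun j => lin (F.c j) v) = fun j => lin (F.c j) w := by
    funext j
    fin_cases j
    · exact h0
    · exact h1
    · exact h2
  exact (F.vecOf_lin v).symm.trans ((congrArg F.vecOf h).trans (F.vecOf_lin w))

lemma lc9_eval_dh (F : Frame) (z : Fin 2 → ℂ) (a : CoordRing ℂ) :
    eval z (F.dh a) = eval (F.vecOf ![1, z 0, z 1]) a := by
  have h : (aeval z).comp F.dh = (aeval (F.vecOf ![1, z 0, z 1]) : CoordRing ℂ →ₐ[ℂ] ℂ) := by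
    apply MvPolynomial.algHom_ext
    intro i
    simp [Frame.dh, Frame.vecOf, Matrix.mulVec, dotProduct, Fin.sum_univ_three]
  have h2 := congrArg (fun φ : CoordRing ℂ →ₐ[ℂ] ℂ => φ a) h
  exact h2

/-- Divisibility by `X₀`. -/
lemma lc9_X_dvd (g : MvPolynomial (Fin 2) ℂ) (h : ∀ w : ℂ, eval ![0, w] g = 0) :
    (X 0 : MvPolynomial (Fin 2) ℂ) ∣ g := by
  have h1 : ∀ g : MvPolynomial (Fin 2) ℂ, (X 0 : MvPolynomial (Fin 2) ℂ) ∣
      g - aeval ![(0 : MvPolynomial (Fin 2) ℂ), X 1] g := by
    intro g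
    induction g using MvPolynomial.induction_on with
    | C c => simp
    | add f g hf hg =>
      have := dvd_add hf hg
      rw [map_add]
      have e : f - aeval ![(0 : MvPolynomial (Fin 2) ℂ), X 1] f +
          (g - aeval ![(0 : MvPolynomial (Fin 2) ℂ), X 1] g) = f + g -
          (aeval ![(0 : MvPolynomial (Fin 2) ℂ), X 1] f +
            aeval ![(0 : MvPolynomial (Fin 2) ℂ), X 1] g) := by ring
      rw [e] at this
      exact this
    | mul_X f j hf =>
      have hX : (X 0 : MvPolynomial (Fin 2) ℂ) ∣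
          X j - aeval ![(0 : MvPolynomial (Fin 2) ℂ), X 1] (X j : MvPolynomial (Fin 2) ℂ) := by
        fin_cases j <;> simp
      rw [map_mul]
      have : f * X j - aeval ![(0 : MvPolynomial (Fin 2) ℂ), X 1] f *
          aeval ![(0 : MvPolynomial (Fin 2) ℂ), X 1] (X j : MvPolynomial (Fin 2) ℂ) =
        (f - aeval ![(0 : MvPolynomial (Fin 2) ℂ), X 1] f) * X j +
          aeval ![(0 : MvPolynomial (Fin 2) ℂ), X 1] f *
            (X j - aeval ![(0 : MvPolynomial (Fin 2) ℂ), X 1] (X j : MvPolynomial (Fin 2) ℂ)) := by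
        ring
      rw [this]
      exact dvd_add (hf.mul_right _) (hX.mul_left _)
  have h2 : aeval ![(0 : MvPolynomial (Fin 2) ℂ), X 1] g = 0 := by
    apply MvPolynomial.funext
    intro z
    have h3 : (aeval z : MvPolynomial (Fin 2) ℂ →ₐ[ℂ] ℂ).comp
        (aeval ![(0 : MvPolynomial (Fin 2) ℂ), (X 1 : MvPolynomial (Fin 2) ℂ)]) =
        (aeval ![0, z 1] : MvPolynomial (Fin 2) ℂ →ₐ[ℂ] ℂ) := by
      apply MvPolynomial.algHom_ext
      intro i
      fin_cases i <;> simp
    have h4 := congrArg (fun φ : MvPolynomial (Fin 2) ℂ →ₐ[ℂ] ℂ => φ g) h3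
    have h5 : eval z (aeval ![(0 : MvPolynomial (Fin 2) ℂ), X 1] g) = eval ![0, z 1] g := h4
    rw [h5, h, map_zero]
  have h3 := h1 g
  rw [h2, sub_zero] at h3
  exact h3

namespace FrameAt

variable {k : Fin r} (F : FrameAt p k)

lemma hM : lin (F.c 0) (p k).rep ≠ 0 := by
  intro h0
  apply (p k).rep_nonzero
  have hz : ∀ c : Fin 3 → ℂ, lin c 0 = 0 := fun c => by simp [lin]
  exact lc9_ext F.toFrame _ _ (h0.trans (hz _).symm) (F.hU.trans (hz _).symm)
    (F.hV.trans (hz _).symm)

/-- The domain of the chart: the points with `M ≠ 0`, `U ≠ 0`, `h ≠ 0` outside the exceptional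
curves, and the points `(p k, L)` such that `U` does not vanish on `L`. -/
def excDom (h : CoordRing ℂ) : BlowUp p → Prop
  | .away q _ => lin (F.c 0) q.rep ≠ 0 ∧ lin (F.c 1) q.rep ≠ 0 ∧ eval q.rep h ≠ 0
  | .exc i L => i = k ∧ ∃ w ∈ L.1, lin (F.c 1) w ≠ 0

/-- The coordinates `(U / M, V / U)`. -/
def excCrd : BlowUp p → Fin 2 → ℂ
  | .away q _ => ![lin (F.c 1) q.rep / lin (F.c 0) q.rep, lin (F.c 2) q.rep / lin (F.c 1) q.rep]
  | .exc _ L => ![0, lin (F.c 2) (LineThrough.dir L) / lin (F.c 1) (LineThrough.dir L)]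

/-- `h(1, X₀, X₀ X₁)`. -/
def excPoly : CoordRing ℂ →ₐ[ℂ] MvPolynomial (Fin 2) ℂ :=
  (aeval ![MvPolynomial.X 0, MvPolynomial.X 0 * MvPolynomial.X 1]).comp F.dh

lemma lc9_eval_excPoly (x w : ℂ) (a : CoordRing ℂ) :
    eval ![x, w] (F.excPoly a) = eval (F.vecOf ![1, x, x * w]) a := by
  have h3 : (aeval ![x, w]).comp (aeval ![(X 0 : MvPolynomial (Fin 2) ℂ), X 0 * X 1]) =
      (aeval ![x, x * w] : MvPolynomial (Fin 2) ℂ →ₐ[ℂ] ℂ) := by
    apply MvPolynomial.algHom_ext
    intro i
    fin_cases i <;> simp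
  have h4 := congrArg (fun φ : MvPolynomial (Fin 2) ℂ →ₐ[ℂ] ℂ => φ (F.dh a)) h3
  have h5 : eval ![x, w] (F.excPoly a) = eval ![x, x * w] (F.dh a) := h4
  rw [h5, lc9_eval_dh]
  rfl

/-- The vector with coordinates `(1, x, x w)`. -/
lemma lc9_vec (x w : ℂ) : F.vecOf ![1, x, x * w] =
    (lin (F.c 0) (p k).rep)⁻¹ • (fun i => (p k).rep i +
      F.vecOf ![0, 1, w] i * (x * lin (F.c 0) (p k).rep)) := by
  have e : (fun i => (p k).rep i + F.vecOf ![0, 1, w] i * (x * lin (F.c 0) (p k).rep)) =
      (p k).rep + (x * lin (F.c 0) (p k).rep) • F.vecOf ![0, 1, w] := by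
    funext i
    simp only [Pi.add_apply, Pi.smul_apply, smul_eq_mul]
    ring
  have hl : ∀ (y : Fin 3 → ℂ) j, lin (F.c j) (F.vecOf y) = y j := fun y j => F.lin_vecOf y j
  have hm := F.hM
  have hU := F.hU
  have hV := F.hV
  rw [e]
  apply lc9_ext F.toFrame
  · refine (hl _ 0).trans ?_
    rw [lc9_lin_smul, lc9_lin_add, lc9_lin_smul]
    refine Eq.trans ?_ (congrArg (fun t => (lin (F.c 0) (p k).rep)⁻¹ * (lin (F.c 0) (p k).rep +
      x * lin (F.c 0) (p k).rep * t)) (hl ![0, 1, w] 0).symm)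
    simp [hm]
  · refine (hl _ 1).trans ?_
    rw [lc9_lin_smul, lc9_lin_add, lc9_lin_smul]
    refine Eq.trans ?_ (congrArg (fun t => (lin (F.c 0) (p k).rep)⁻¹ * (lin (F.c 1) (p k).rep +
      x * lin (F.c 0) (p k).rep * t)) (hl ![0, 1, w] 1).symm)
    simp only [Matrix.cons_val_one, Matrix.cons_val_zero]
    rw [hU]
    field_simp
    ring
  · refine (hl _ 2).trans ?_
    rw [lc9_lin_smul, lc9_lin_add, lc9_lin_smul]
    refine Eq.trans ?_ (congrArg (fun t => (lin (F.c 0) (p k).rep)⁻¹ * (lin (F.c 2) (p k).rep +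
      x * lin (F.c 0) (p k).rep * t)) (hl ![0, 1, w] 2).symm)
    simp only [Matrix.cons_val]
    rw [hV]
    field_simp
    ring

/-- A form in the `μ`-th power of the ideal of `p k` becomes divisible by `X₀ ^ μ`, and the
quotient at `(0, w)` is the leading coefficient along the line with slope `w`, up to a nonzero
factor. (The ideal of `p k` is generated by `U` and `V` in degree one:
every form of `pointIdeal` is a combination `f U + g V`.) -/
lemma exists_excPoly_eq (μ : ℕ) (a : CoordRing ℂ) (ha : a ∈ pointIdeal (p k) ^ μ) :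
    ∃ b : MvPolynomial (Fin 2) ℂ, F.excPoly a = MvPolynomial.X 0 ^ μ * b ∧
      ∀ (n : ℕ), a.IsHomogeneous n → ∀ (L : LineThrough (p k)),
        (∃ w ∈ L.1, lin (F.c 1) w ≠ 0) → ∀ w ∈ L.1,
        (alongLine (p k).rep w a).coeff μ * lin (F.c 0) (p k).rep ^ μ =
          lin (F.c 0) (p k).rep ^ n * lin (F.c 1) w ^ μ *
            eval ![0, lin (F.c 2) (LineThrough.dir L) / lin (F.c 1) (LineThrough.dir L)] b := by
  have hm := F.hM
  have hU := F.hU
  have hV := F.hV
  have hle : pointIdeal (p k) ≤ Ideal.comap F.excPoly (Ideal.span {X 0}) := by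
    intro f hf
    rw [Ideal.mem_comap, Ideal.mem_span_singleton]
    apply lc9_X_dvd
    intro w
    rw [lc9_eval_excPoly, lc9_vec]
    have e : (fun i => (p k).rep i + F.vecOf ![0, 1, w] i * (0 * lin (F.c 0) (p k).rep)) =
        (p k).rep := by
      funext i
      ring
    rw [e]
    exact eval_eq_zero_of_mem_pointIdeal hf _
  have hdvd : (X 0 ^ μ : MvPolynomial (Fin 2) ℂ) ∣ F.excPoly a := by
    have h2 : pointIdeal (p k) ^ μ ≤ Ideal.comap F.excPoly (Ideal.span {X 0} ^ μ) :=
      (Ideal.pow_right_mono hle μ).trans (Ideal.le_comap_pow _ μ)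
    have h3 := h2 ha
    rwa [Ideal.mem_comap, Ideal.span_singleton_pow, Ideal.mem_span_singleton] at h3
  obtain ⟨b, hb⟩ := hdvd
  refine ⟨b, hb, ?_⟩
  intro n hn L hL w hw
  have key : ∀ w : ℂ, eval ![0, w] b * lin (F.c 0) (p k).rep ^ n =
      lin (F.c 0) (p k).rep ^ μ * (alongLine (p k).rep (F.vecOf ![0, 1, w]) a).coeff μ := by
    intro w
    have hI : ∀ f ∈ pointIdeal (p k),
        (alongLine (p k).rep (F.vecOf ![0, 1, w]) f).coeff 0 = 0 := by
      intro f hf
      rw [alongLine_coeff_zero]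
      exact eval_rep_eq_zero hf
    obtain ⟨f, hf⟩ := X_pow_dvd_alongLine hI μ ha
    have hcoef : (alongLine (p k).rep (F.vecOf ![0, 1, w]) a).coeff μ = f.eval 0 := by
      rw [hf, ← Polynomial.coeff_zero_eq_eval_zero]
      have := Polynomial.coeff_X_pow_mul f μ 0
      rwa [zero_add] at this
    let B : Polynomial ℂ := aeval ![Polynomial.X, Polynomial.C w] b
    have hB : ∀ x : ℂ, B.eval x = eval ![x, w] b := by
      intro x
      have h3 : (Polynomial.aeval x).comp
          (aeval ![Polynomial.X, Polynomial.C w] : MvPolynomial (Fin 2) ℂ →ₐ[ℂ] Polynomial ℂ) =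
          (aeval ![x, w] : MvPolynomial (Fin 2) ℂ →ₐ[ℂ] ℂ) := by
        apply MvPolynomial.algHom_ext
        intro i
        fin_cases i <;> simp
      have h4 := congrArg (fun φ : MvPolynomial (Fin 2) ℂ →ₐ[ℂ] ℂ => φ b) h3
      have h5 : Polynomial.aeval x B = eval ![x, w] b := h4
      rw [← h5, Polynomial.coe_aeval_eq_eval]
    have hpoly : Polynomial.X ^ μ * (B * Polynomial.C (lin (F.c 0) (p k).rep ^ n)) =
        Polynomial.X ^ μ * (Polynomial.C (lin (F.c 0) (p k).rep ^ μ) *
          f.comp (Polynomial.X * Polynomial.C (lin (F.c 0) (p k).rep))) := by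
      apply Polynomial.funext
      intro x
      simp only [Polynomial.eval_mul, Polynomial.eval_pow, Polynomial.eval_X, Polynomial.eval_C,
        Polynomial.eval_comp]
      rw [hB]
      have h1 : eval ![x, w] (F.excPoly a) = x ^ μ * eval ![x, w] b := by
        rw [hb]
        simp
      rw [lc9_eval_excPoly, lc9_vec, eval_smul_homog hn, ← eval_alongLine, hf,
        Polynomial.eval_mul, Polynomial.eval_pow, Polynomial.eval_X] at h1
      rw [← mul_assoc, ← h1, inv_pow, mul_pow]
      field_simp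
    have hpoly2 := mul_left_cancel₀ (pow_ne_zero μ Polynomial.X_ne_zero) hpoly
    have h6 := congrArg (Polynomial.eval 0) hpoly2
    simp only [Polynomial.eval_mul, Polynomial.eval_C, Polynomial.eval_comp, Polynomial.eval_X,
      zero_mul] at h6
    rw [hB] at h6
    rw [h6, hcoef]
  obtain ⟨w', hw', hw'1⟩ := hL
  have hd1 : lin (F.c 1) L.dir ≠ 0 := by
    obtain ⟨α, β, rfl⟩ := L.exists_coord w' hw'
    rw [lc9_lin_add, lc9_lin_smul, lc9_lin_smul, hU, mul_zero, zero_add] at hw'1
    exact right_ne_zero_of_mul hw'1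
  have hl : ∀ (y : Fin 3 → ℂ) j, lin (F.c j) (F.vecOf y) = y j := fun y j => F.lin_vecOf y j
  obtain ⟨α, β, hwe⟩ := L.exists_coord w hw
  have hw1 : lin (F.c 1) w = β * lin (F.c 1) L.dir := by
    rw [hwe, lc9_lin_add, lc9_lin_smul, lc9_lin_smul, hU, mul_zero, zero_add]
  have hw2 : lin (F.c 2) w = β * lin (F.c 2) L.dir := by
    rw [hwe, lc9_lin_add, lc9_lin_smul, lc9_lin_smul, hV, mul_zero, zero_add]
  have hdec : w = (lin (F.c 0) w / lin (F.c 0) (p k).rep) • (p k).rep + lin (F.c 1) w •
      F.vecOf ![0, 1, lin (F.c 2) L.dir / lin (F.c 1) L.dir] := by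
    apply lc9_ext F.toFrame
    · rw [lc9_lin_add, lc9_lin_smul, lc9_lin_smul]
      refine Eq.trans ?_ (congrArg (fun t => lin (F.c 0) w / lin (F.c 0) (p k).rep *
        lin (F.c 0) (p k).rep + lin (F.c 1) w * t) (hl _ 0).symm)
      simp [hm]
    · rw [lc9_lin_add, lc9_lin_smul, lc9_lin_smul]
      refine Eq.trans ?_ (congrArg (fun t => lin (F.c 0) w / lin (F.c 0) (p k).rep *
        lin (F.c 1) (p k).rep + lin (F.c 1) w * t) (hl _ 1).symm)
      simp [hU]
    · rw [lc9_lin_add, lc9_lin_smul, lc9_lin_smul]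
      refine Eq.trans ?_ (congrArg (fun t => lin (F.c 0) w / lin (F.c 0) (p k).rep *
        lin (F.c 2) (p k).rep + lin (F.c 1) w * t) (hl _ 2).symm)
      simp only [Matrix.cons_val]
      rw [hV, hw1, hw2]
      field_simp
      ring
  have hlead : (alongLine (p k).rep w a).coeff μ = lin (F.c 1) w ^ μ *
      (alongLine (p k).rep (F.vecOf ![0, 1, lin (F.c 2) L.dir / lin (F.c 1) L.dir]) a).coeff μ := by
    conv_lhs => rw [hdec]
    exact coeff_alongLine_dir _ _ _ μ a ha
  rw [hlead]
  linear_combination (-lin (F.c 1) w ^ μ) * key (lin (F.c 2) L.dir / lin (F.c 1) L.dir)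

/-- exc10: a vector on which `U` and `V` vanish is a multiple of the vector of the point. -/
lemma exc10_mem_span (v : Fin 3 → ℂ) (h1 : lin (F.c 1) v = 0) (h2 : lin (F.c 2) v = 0) :
    ∃ a : ℂ, v = a • (p k).rep := by
  have hM := F.hM
  refine ⟨lin (F.c 0) v / lin (F.c 0) (p k).rep, ?_⟩
  have e3 : (fun j => lin (F.c j) v) =
      (lin (F.c 0) v / lin (F.c 0) (p k).rep) • (fun j => lin (F.c j) (p k).rep) := by
    funext j
    fin_cases j
    · simp only [Pi.smul_apply, smul_eq_mul]
      exact (div_mul_cancel₀ _ hM).symm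
    · simp only [Pi.smul_apply, smul_eq_mul]
      change lin (F.c 1) v = _ * lin (F.c 1) (p k).rep
      rw [h1, F.hU, mul_zero]
    · simp only [Pi.smul_apply, smul_eq_mul]
      change lin (F.c 2) v = _ * lin (F.c 2) (p k).rep
      rw [h2, F.hV, mul_zero]
  calc v = F.vecOf (fun j => lin (F.c j) v) := (F.vecOf_lin v).symm
    _ = (lin (F.c 0) v / lin (F.c 0) (p k).rep) •
        F.vecOf (fun j => lin (F.c j) (p k).rep) := by
      rw [e3]
      simp only [Frame.vecOf, Matrix.mulVec_smul]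
    _ = _ := by rw [F.vecOf_lin]

lemma exc10_lin_add (c v w : Fin 3 → ℂ) (a b : ℂ) :
    lin c (a • v + b • w) = a * lin c v + b * lin c w := by
  simp only [lin, Pi.add_apply, Pi.smul_apply, smul_eq_mul, Finset.mul_sum, mul_add,
    Finset.sum_add_distrib]
  congr 1 <;> exact Finset.sum_congr rfl fun i _ => by ring

/-- exc10: `U` does not vanish on the direction vector. -/
lemma exc10_dir {L : LineThrough (p k)} (h : ∃ w ∈ L.1, lin (F.c 1) w ≠ 0) :
    lin (F.c 1) (LineThrough.dir L) ≠ 0 := by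
  obtain ⟨w, hw, hw1⟩ := h
  obtain ⟨α, β, rfl⟩ := L.exists_coord w hw
  rw [exc10_lin_add, F.hU, mul_zero, zero_add] at hw1
  exact right_ne_zero_of_mul hw1

lemma exc10_val_v {h : CoordRing ℂ} (y : BlowUp p) (hy : F.excDom h y) :
    Val p y (lq (F.c 2) (F.c 1)) (F.excCrd y 1) := by
  cases y with
  | away q hq =>
    exact val_lq_away q hq _ _ hy.2.1
  | exc i L =>
    obtain ⟨rfl, hw⟩ := hy
    exact val_lq_exc' i L (F.c 2) (F.c 1) F.hU F.hV _ L.dir_mem (F.exc10_dir hw)

omit F in
lemma exc10_lform_mem {i : Fin r} (c : Fin 3 → ℂ) (hc : lin c (p i).rep = 0) :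
    lform c ∈ pointIdeal (p i) := by
  intro v hv
  rw [Projectivization.submodule_eq] at hv
  obtain ⟨a, rfl⟩ := Submodule.mem_span_singleton.1 hv
  have h1 : eval (a • (p i).rep) (lform c) = 0 := by
    rw [eval_smul_homog (lform_homog c), eval_lform, hc, mul_zero]
  exact h1

omit F in
lemma exc10_coeff_one (c v w : Fin 3 → ℂ) : (alongLine v w (lform c)).coeff 1 = lin c w := by
  have h1 : alongLine v w (lform c) =
      ∑ i, Polynomial.C (c i) * (Polynomial.C (v i) + Polynomial.C (w i) * Polynomial.X) := by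
    simp only [lform, map_sum, map_mul, alongLine, MvPolynomial.aeval_X, MvPolynomial.algHom_C,
      Polynomial.algebraMap_eq]
  rw [h1, Polynomial.finsetSum_coeff, lin]
  refine Finset.sum_congr rfl fun i _ => ?_
  rw [Polynomial.coeff_C_mul, Polynomial.coeff_add, Polynomial.coeff_C_mul, Polynomial.coeff_X_one,
    Polynomial.coeff_C_succ]
  ring

lemma exc_isOpen {n : ℕ} {h : CoordRing ℂ} (hh : h.IsHomogeneous n)
    (hk : KillsOther p k (F.c 0) h) : IsOpen {y : BlowUp p | F.excDom h y} := by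
  have hM0 : F.c 0 ≠ 0 := F.row_ne_zero 0
  have hU0 : F.c 1 ≠ 0 := F.row_ne_zero 1
  have hh0 : h ≠ 0 := by
    rintro rfl
    exact hk.1 (map_zero _)
  have hlM := lform_ne_zero hM0
  have hlU := lform_ne_zero hU0
  have hhM : (h * lform (F.c 0)).IsHomogeneous (n + 1) := hh.mul (lform_homog _)
  -- regularity of the functions `X j ^ (n + 1) / (h M)`
  have key : ∀ y : BlowUp p, (∀ j : Fin 3, IsRegularAt p 0 0 y
      (toFrac (MvPolynomial.X j ^ (n + 1)) / toFrac (h * lform (F.c 0)))) ↔
      eval y.vec h * lin (F.c 0) y.vec ≠ 0 := by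
    intro y
    constructor
    · intro hreg h0
      obtain ⟨j, hj⟩ := exists_linear_ne_zero y.vec y.vec_ne_zero
      have h1 := hreg j
      rw [isRegularAt_iff] at h1
      obtain ⟨n', e', μ, a, b, ha, hb, hn, haI, hbI, hbl, hab⟩ := h1
      have h2 : toFrac (MvPolynomial.X j ^ (n + 1) * b) = toFrac (h * lform (F.c 0) * a) := by
        have h3 := toFrac_ne_zero (mul_ne_zero hh0 hlM)
        have h4 := toFrac_ne_zero (y.ne_zero_of_lead hbl)
        rw [div_eq_div_iff h3 h4] at hab
        rw [map_mul, hab, map_mul _ _ a]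
        ring
      have h5 := toFrac_injective h2
      have h6 : y.lead (0 + μ) (MvPolynomial.X j ^ (n + 1) * b) =
        y.lead (0 + μ) (h * lform (F.c 0) * a) := by rw [h5]
      have haI' : a ∈ y.idl ^ μ := by
        have : ((μ : ℤ) + y.mlt (0 : Fin r → ℤ)).toNat = μ := by
          cases y <;> simp [BlowUp.mlt]
        rwa [this] at haI
      rw [y.lead_mul (by simp) hbI, y.lead_mul (by simp) haI', y.lead_zero, y.lead_zero, map_mul,
        eval_lform, h0, zero_mul, map_pow] at h6
      exact mul_ne_zero (pow_ne_zero _ hj) hbl h6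
    · intro h0 j
      rw [isRegularAt_iff]
      refine ⟨n + 1, n + 1, 0, MvPolynomial.X j ^ (n + 1), h * lform (F.c 0), ?_, hhM, by simp, ?_,
        by simp, ?_, rfl⟩
      · have := (MvPolynomial.isHomogeneous_X ℂ j).pow (n + 1)
        rwa [one_mul] at this
      · have : (((0 : ℕ) : ℤ) + y.mlt (0 : Fin r → ℤ)).toNat = 0 := by
          cases y <;> simp [BlowUp.mlt]
        rw [this]
        simp
      · rw [y.lead_zero, map_mul, eval_lform]
        exact h0
  -- the domain is the common domain of regularity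
  have hset : {y : BlowUp p | F.excDom h y} =
      {y | incl (lq (F.c 2) (F.c 1)) ∈ stalk p 0 0 y} ∩ ⋂ j : Fin 3,
        {y | toFrac (MvPolynomial.X j ^ (n + 1)) / toFrac (h * lform (F.c 0)) ∈ stalk p 0 0 y} := by
    ext y
    simp only [Set.mem_ofPred_eq, Set.mem_inter_iff, Set.mem_iInter, mem_stalk_iff, key y]
    constructor
    · intro hy
      refine ⟨(F.exc10_val_v y hy).reg, ?_⟩
      cases y with
      | away q hq => exact mul_ne_zero hy.2.2 hy.1
      | exc i L =>
        obtain ⟨rfl, -⟩ := hy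
        exact mul_ne_zero hk.1 F.hM
    · rintro ⟨hreg, hne⟩
      rw [isRegularAt_iff] at hreg
      obtain ⟨n', e', μ, a, b, ha, hb, hn, haI, hbI, hbl, hab⟩ := hreg
      have haI' : a ∈ y.idl ^ μ := by
        have : ((μ : ℤ) + y.mlt (0 : Fin r → ℤ)).toNat = μ := by
          cases y <;> simp [BlowUp.mlt]
        rwa [this] at haI
      have h5 : lform (F.c 2) * b = lform (F.c 1) * a := by
        apply toFrac_injective
        have h3 := toFrac_ne_zero hlU
        have h4 := toFrac_ne_zero (y.ne_zero_of_lead hbl)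
        rw [incl_lq, div_eq_div_iff h3 h4] at hab
        rw [map_mul, hab, map_mul]
        ring
      cases y with
      | away q hq =>
        have hM1 : lin (F.c 0) q.rep ≠ 0 := right_ne_zero_of_mul hne
        refine ⟨hM1, ?_, left_ne_zero_of_mul hne⟩
        intro hU1
        have h6 : (BlowUp.away q hq : BlowUp p).lead (0 + μ) (lform (F.c 2) * b) =
          (BlowUp.away q hq : BlowUp p).lead (0 + μ) (lform (F.c 1) * a) := by rw [h5]
        rw [BlowUp.lead_mul _ (by simp) hbI, BlowUp.lead_mul _ (by simp) haI', BlowUp.lead_zero,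
          BlowUp.lead_zero, eval_lform, eval_lform] at h6
        have h7 : lin (F.c 1) (BlowUp.away q hq : BlowUp p).vec = 0 := hU1
        rw [h7, zero_mul] at h6
        have h8 : lin (F.c 2) q.rep = 0 := (mul_eq_zero.1 h6).resolve_right hbl
        obtain ⟨c, hc⟩ := F.exc10_mem_span q.rep hU1 h8
        apply hq k
        rw [← q.mk_rep, ← (p k).mk_rep, Projectivization.mk_eq_mk_iff']
        exact ⟨c, hc.symm⟩
      | exc i L =>
        have hM1 : lin (F.c 0) (p i).rep ≠ 0 := right_ne_zero_of_mul hne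
        have hh1 : eval (p i).rep h ≠ 0 := left_ne_zero_of_mul hne
        have hik : i = k := by
          by_contra hik
          rcases hk.2 i hik with h6 | h6
          · exact hh1 h6
          · exact hM1 h6
        subst hik
        refine ⟨rfl, LineThrough.dir L, L.dir_mem, ?_⟩
        intro hU1
        have hmem : ∀ c : Fin 3 → ℂ, lin c (p i).rep = 0 → lform c ∈ pointIdeal (p i) ^ 1 := by
          intro c hc
          rw [pow_one]
          exact exc10_lform_mem c hc
        have h6 : (BlowUp.exc i L : BlowUp p).lead (1 + μ) (lform (F.c 2) * b) =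
          (BlowUp.exc i L : BlowUp p).lead (1 + μ) (lform (F.c 1) * a) := by rw [h5]
        rw [BlowUp.lead_mul _ (hmem _ F.hV) hbI, BlowUp.lead_mul _ (hmem _ F.hU) haI'] at h6
        have hl1 : ∀ c : Fin 3 → ℂ, (BlowUp.exc i L : BlowUp p).lead 1 (lform c) =
            lin c (LineThrough.dir L) := by
          intro c
          exact exc10_coeff_one c _ _
        rw [hl1, hl1, hU1, zero_mul] at h6
        have h8 : lin (F.c 2) (LineThrough.dir L) = 0 := (mul_eq_zero.1 h6).resolve_right hbl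
        obtain ⟨c, hc⟩ := F.exc10_mem_span _ hU1 h8
        apply L.dir_not_mem
        rw [hc, Projectivization.submodule_eq]
        exact Submodule.smul_mem _ _ (Submodule.mem_span_singleton_self _)
  rw [hset]
  refine IsOpen.inter (isOpen_generateFrom_of_mem ⟨_, rfl⟩) ?_
  exact isOpen_iInter_of_finite fun j => isOpen_generateFrom_of_mem ⟨_, rfl⟩

lemma exc10_eval_excPoly (z : Fin 2 → ℂ) (a : CoordRing ℂ) :
    eval z (F.excPoly a) = eval ![z 0, z 0 * z 1] (F.dh a) := by
  simp only [excPoly, AlgHom.comp_apply]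
  have h2 : (MvPolynomial.aeval (R := ℂ) z).comp
      (aeval ![MvPolynomial.X 0, MvPolynomial.X 0 * MvPolynomial.X 1]) =
      aeval (R := ℂ) (![z 0, z 0 * z 1] : Fin 2 → ℂ) := by
    apply MvPolynomial.algHom_ext
    intro i
    fin_cases i <;> simp
  exact congrArg (fun φ : MvPolynomial (Fin 2) ℂ →ₐ[ℂ] ℂ => φ (F.dh a)) h2

lemma exc_g_ne {n : ℕ} {h : CoordRing ℂ} (hh : h.IsHomogeneous n)
    (hk : KillsOther p k (F.c 0) h) (y : BlowUp p) (hy : F.excDom h y) :
    eval (F.excCrd y) (F.excPoly h) ≠ 0 := by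
  cases y with
  | away q hq =>
    obtain ⟨h0, h1, h2⟩ := hy
    have e : eval (F.excCrd (.away q hq : BlowUp p)) (F.excPoly h) =
        eval q.rep h / lin (F.c 0) q.rep ^ n := by
      rw [← F.eval_dh hh q.rep h0, exc10_eval_excPoly]
      congr 2
      simp only [excCrd, Matrix.cons_val_zero, Matrix.cons_val_one]
      congr 2
      field_simp
    rw [e]
    exact div_ne_zero h2 (pow_ne_zero _ h0)
  | exc i L =>
    obtain ⟨rfl, hw⟩ := hy
    have e : eval (F.excCrd (.exc i L : BlowUp p)) (F.excPoly h) =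
        eval (p i).rep h / lin (F.c 0) (p i).rep ^ n := by
      rw [← F.eval_dh hh (p i).rep F.hM, exc10_eval_excPoly]
      congr 2
      simp only [excCrd, Matrix.cons_val_zero, Matrix.cons_val_one, F.hU, F.hV, zero_div, zero_mul]
    rw [e]
    exact div_ne_zero hk.1 (pow_ne_zero _ F.hM)

lemma exc_surj {n : ℕ} {h : CoordRing ℂ} (hh : h.IsHomogeneous n)
    (hk : KillsOther p k (F.c 0) h) (z : Fin 2 → ℂ) (hz : eval z (F.excPoly h) ≠ 0) :
    ∃ y : BlowUp p, F.excDom h y ∧ F.excCrd y = z := by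
  rw [exc10_eval_excPoly] at hz
  by_cases h0 : z 0 = 0
  · -- a point of the exceptional curve
    have hw1 : lin (F.c 1) (F.vecOf ![0, 1, z 1]) = 1 := F.lin_vecOf _ 1
    have hw2 : lin (F.c 2) (F.vecOf ![0, 1, z 1]) = z 1 := F.lin_vecOf _ 2
    have hw : F.vecOf ![0, 1, z 1] ∉ (p k).submodule := by
      intro hmem
      rw [Projectivization.submodule_eq, Submodule.mem_span_singleton] at hmem
      obtain ⟨a, ha⟩ := hmem
      rw [← ha] at hw1
      have h3 := exc10_lin_add (F.c 1) (p k).rep 0 a 0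
      rw [smul_zero, add_zero, F.hU, mul_zero, zero_mul, add_zero] at h3
      rw [h3] at hw1
      exact zero_ne_one hw1
    obtain ⟨α, β, hβ, hdir⟩ := LineThrough.ofDir_dir (p k) _ hw
    refine ⟨.exc k (LineThrough.ofDir (p k) _ hw), ⟨rfl, F.vecOf ![0, 1, z 1], ?_, ?_⟩, ?_⟩
    · exact Submodule.subset_span (by simp)
    · rw [hw1]
      exact one_ne_zero
    · funext j
      fin_cases j
      · exact h0.symm
      · change lin (F.c 2) (LineThrough.dir _) / lin (F.c 1) (LineThrough.dir _) = z 1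
        rw [hdir, exc10_lin_add, exc10_lin_add, F.hU, F.hV, hw1, hw2, mul_zero, zero_add, zero_add,
          mul_one]
        field_simp
  · -- a point outside the exceptional curves
    set v : Fin 3 → ℂ := F.vecOf ![1, z 0, z 0 * z 1] with hv
    have hv0 : lin (F.c 0) v = 1 := F.lin_vecOf _ 0
    have hv1 : lin (F.c 1) v = z 0 := F.lin_vecOf _ 1
    have hv2 : lin (F.c 2) v = z 0 * z 1 := F.lin_vecOf _ 2
    have hvne : v ≠ 0 := by
      intro h3
      rw [h3] at hv0
      simp [lin] at hv0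
    obtain ⟨a, ha⟩ := Projectivization.exists_smul_eq_mk_rep ℂ v hvne
    rw [Units.smul_def] at ha
    have ha0 : (a : ℂ) ≠ 0 := a.ne_zero
    have hlin : ∀ c, lin c (Projectivization.mk ℂ v hvne).rep = a * lin c v := by
      intro c
      rw [← ha]
      have h3 := exc10_lin_add c v 0 a 0
      rw [smul_zero, add_zero, zero_mul, add_zero] at h3
      exact h3
    have hev : eval (Projectivization.mk ℂ v hvne).rep h ≠ 0 := by
      rw [← ha, eval_smul_homog hh]
      refine mul_ne_zero (pow_ne_zero _ ha0) ?_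
      have h3 := F.eval_dh hh v (by rw [hv0]; exact one_ne_zero)
      rw [hv0, hv1, hv2, div_one, div_one, one_pow, div_one] at h3
      rw [← h3]
      exact hz
    refine ⟨.away (Projectivization.mk ℂ v hvne) ?_, ⟨?_, ?_, hev⟩, ?_⟩
    · intro i hi
      by_cases hik : i = k
      · subst hik
        have h3 := hlin (F.c 1)
        rw [hi, F.hU, hv1] at h3
        exact mul_ne_zero ha0 h0 h3.symm
      · rcases hk.2 i hik with h3 | h3
        · rw [hi] at hev
          exact hev h3
        · have h4 := hlin (F.c 0)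
          rw [hi, h3, hv0, mul_one] at h4
          exact ha0 h4.symm
    · rw [hlin, hv0, mul_one]
      exact ha0
    · rw [hlin, hv1]
      exact mul_ne_zero ha0 h0
    · funext j
      fin_cases j
      · change lin (F.c 1) _ / lin (F.c 0) _ = z 0
        rw [hlin, hlin, hv0, hv1]
        field_simp
      · change lin (F.c 2) _ / lin (F.c 1) _ = z 1
        rw [hlin, hlin, hv2, hv1]
        field_simp

lemma exc_inj {h : CoordRing ℂ} (y y' : BlowUp p) (hy : F.excDom h y) (hy' : F.excDom h y')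
    (e : F.excCrd y = F.excCrd y') : y = y' := by
  cases y with
  | away q hq =>
    obtain ⟨h0, h1, h2⟩ := hy
    cases y' with
    | away q' hq' =>
      obtain ⟨h0', h1', h2'⟩ := hy'
      have e0 : lin (F.c 1) q.rep / lin (F.c 0) q.rep = lin (F.c 1) q'.rep / lin (F.c 0) q'.rep :=
        congrFun e 0
      have e1 : lin (F.c 2) q.rep / lin (F.c 1) q.rep = lin (F.c 2) q'.rep / lin (F.c 1) q'.rep :=
        congrFun e 1
      have hqq : q = q' := by
        rw [← q.mk_rep, ← q'.mk_rep, Projectivization.mk_eq_mk_iff']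
        refine ⟨lin (F.c 0) q.rep / lin (F.c 0) q'.rep, ?_⟩
        have e3 : (fun j => lin (F.c j) q.rep) =
            (lin (F.c 0) q.rep / lin (F.c 0) q'.rep) • (fun j => lin (F.c j) q'.rep) := by
          rw [div_eq_div_iff h0 h0'] at e0
          rw [div_eq_div_iff h1 h1'] at e1
          funext j
          fin_cases j
          · simp only [Pi.smul_apply, smul_eq_mul]
            exact (div_mul_cancel₀ _ h0').symm
          · simp only [Pi.smul_apply, smul_eq_mul]
            change lin (F.c 1) q.rep = _ * lin (F.c 1) q'.rep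
            rw [div_mul_eq_mul_div, eq_div_iff h0']
            linear_combination e0
          · simp only [Pi.smul_apply, smul_eq_mul]
            change lin (F.c 2) q.rep = _ * lin (F.c 2) q'.rep
            rw [div_mul_eq_mul_div, eq_div_iff h0']
            have h5 : lin (F.c 1) q'.rep * (lin (F.c 2) q.rep * lin (F.c 0) q'.rep -
                lin (F.c 0) q.rep * lin (F.c 2) q'.rep) = 0 := by
              linear_combination lin (F.c 0) q'.rep * e1 + lin (F.c 2) q'.rep * e0
            have h6 := (mul_eq_zero.1 h5).resolve_left h1'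
            exact sub_eq_zero.1 h6
        calc (lin (F.c 0) q.rep / lin (F.c 0) q'.rep) • q'.rep
            = (lin (F.c 0) q.rep / lin (F.c 0) q'.rep) •
              F.vecOf (fun j => lin (F.c j) q'.rep) := by rw [F.vecOf_lin]
          _ = F.vecOf (fun j => lin (F.c j) q.rep) := by
            rw [e3]
            simp only [Frame.vecOf, Matrix.mulVec_smul]
          _ = q.rep := F.vecOf_lin _
      subst hqq
      rfl
    | exc i' L' =>
      exfalso
      have e0 : lin (F.c 1) q.rep / lin (F.c 0) q.rep = 0 := congrFun e 0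
      exact div_ne_zero h1 h0 e0
  | exc i L =>
    obtain ⟨hi, hL⟩ := hy
    subst hi
    cases y' with
    | away q' hq' =>
      obtain ⟨h0', h1', h2'⟩ := hy'
      exfalso
      have e0 : 0 = lin (F.c 1) q'.rep / lin (F.c 0) q'.rep := congrFun e 0
      exact div_ne_zero h1' h0' e0.symm
    | exc i' L' =>
      obtain ⟨hi', hL'⟩ := hy'
      subst hi'
      have e1 : lin (F.c 2) (LineThrough.dir L) / lin (F.c 1) (LineThrough.dir L) =
          lin (F.c 2) (LineThrough.dir L') / lin (F.c 1) (LineThrough.dir L') := congrFun e 1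
      have h1 := F.exc10_dir hL
      have h1' := F.exc10_dir hL'
      rw [div_eq_div_iff h1 h1'] at e1
      obtain ⟨a, ha⟩ := F.exc10_mem_span
        (LineThrough.dir L' + (-(lin (F.c 1) (LineThrough.dir L') / lin (F.c 1)
          (LineThrough.dir L))) • LineThrough.dir L) (by
          have h3 := exc10_lin_add (F.c 1) (LineThrough.dir L') (LineThrough.dir L) 1
            (-(lin (F.c 1) (LineThrough.dir L') / lin (F.c 1) (LineThrough.dir L)))
          rw [one_smul] at h3
          rw [h3]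
          field_simp
          ring) (by
          have h3 := exc10_lin_add (F.c 2) (LineThrough.dir L') (LineThrough.dir L) 1
            (-(lin (F.c 1) (LineThrough.dir L') / lin (F.c 1) (LineThrough.dir L)))
          rw [one_smul] at h3
          rw [h3]
          field_simp
          linear_combination -e1)
      have hmem : LineThrough.dir L' ∈ L.1 := by
        have h4 : LineThrough.dir L' = a • (p i').rep +
            (lin (F.c 1) (LineThrough.dir L') / lin (F.c 1) (LineThrough.dir L)) •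
              LineThrough.dir L := by
          rw [← ha]
          module
        rw [h4]
        exact L.1.add_mem (L.1.smul_mem _ L.rep_mem) (L.1.smul_mem _ L.dir_mem)
      have hle : L'.1 ≤ L.1 := by
        intro w hw
        obtain ⟨α, β, rfl⟩ := L'.exists_coord w hw
        exact L.1.add_mem (L.1.smul_mem _ L.rep_mem) (L.1.smul_mem _ hmem)
      have heq : L'.1 = L.1 :=
        Submodule.eq_of_le_of_finrank_eq hle (by rw [L.2.1, L'.2.1])
      have : L = L' := Subtype.ext heq.symm
      rw [this]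

lemma lc9_aeval_excPoly (a : CoordRing ℂ) :
    aeval ![lq (F.c 1) (F.c 0), lq (F.c 2) (F.c 1)] (F.excPoly a) =
      aeval ![lq (F.c 1) (F.c 0), lq (F.c 2) (F.c 0)] (F.dh a) := by
  have h : (aeval ![lq (F.c 1) (F.c 0), lq (F.c 2) (F.c 1)]).comp
      (aeval ![(X 0 : MvPolynomial (Fin 2) ℂ), X 0 * X 1]) =
      (aeval ![lq (F.c 1) (F.c 0), lq (F.c 2) (F.c 0)] : MvPolynomial (Fin 2) ℂ →ₐ[ℂ] FunField) := by
    apply MvPolynomial.algHom_ext
    intro i
    have hq : lq (F.c 1) (F.c 0) * lq (F.c 2) (F.c 1) = lq (F.c 2) (F.c 0) :=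
      (mul_comm _ _).trans (lq_mul (F.toFrame.row_ne_zero 1))
    fin_cases i
    · simp
    · simpa using hq
  exact congrArg (fun φ : MvPolynomial (Fin 2) ℂ →ₐ[ℂ] FunField => φ (F.dh a)) h

/-- The relation `s b = a` in terms of the coordinates. -/
lemma lc9_rel {n : ℕ} {a b : CoordRing ℂ} (ha : a.IsHomogeneous n) (hb : b.IsHomogeneous n)
    (s : FunField) (hab : incl s * toFrac b = toFrac a) :
    s * aeval ![lq (F.c 1) (F.c 0), lq (F.c 2) (F.c 1)] (F.excPoly b) =
      aeval ![lq (F.c 1) (F.c 0), lq (F.c 2) (F.c 1)] (F.excPoly a) := by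
  rw [lc9_aeval_excPoly, lc9_aeval_excPoly]
  apply incl.injective
  exact (map_mul incl s _).trans ((congrArg (fun z => incl s * z)
    (F.toFrame.incl_aeval_dh hb)).trans ((mul_div_assoc _ _ _).symm.trans
      ((congrArg (fun z => z / toFrac (lform (F.c 0)) ^ n) hab).trans
        (F.toFrame.incl_aeval_dh ha).symm)))

lemma exc_reg {h : CoordRing ℂ} (y : BlowUp p) (hy : F.excDom h y) (s : FunField)
    (hs : Reg p y s) : ∃ P Q : MvPolynomial (Fin 2) ℂ, eval (F.excCrd y) Q ≠ 0 ∧
      s * aeval ![lq (F.c 1) (F.c 0), lq (F.c 2) (F.c 1)] Q =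
        aeval ![lq (F.c 1) (F.c 0), lq (F.c 2) (F.c 1)] P := by
  cases y with
  | away q hq =>
    obtain ⟨n, e, a, b, ha, hb, hn, hbq, hab⟩ := hs
    have hne : n = e := by
      rw [add_zero] at hn
      exact_mod_cast hn
    subst hne
    refine ⟨F.excPoly a, F.excPoly b, ?_, F.lc9_rel ha hb s hab⟩
    change eval ![lin (F.c 1) q.rep / lin (F.c 0) q.rep, lin (F.c 2) q.rep / lin (F.c 1) q.rep]
      (F.excPoly b) ≠ 0
    have h0 : lin (F.c 0) q.rep ≠ 0 := hy.1
    have h1 : lin (F.c 1) q.rep ≠ 0 := hy.2.1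
    have e2 : lin (F.c 1) q.rep / lin (F.c 0) q.rep * (lin (F.c 2) q.rep / lin (F.c 1) q.rep) =
        lin (F.c 2) q.rep / lin (F.c 0) q.rep := by
      field_simp
    rw [lc9_eval_excPoly, e2]
    have e3 := lc9_eval_dh F.toFrame ![lin (F.c 1) q.rep / lin (F.c 0) q.rep,
      lin (F.c 2) q.rep / lin (F.c 0) q.rep] b
    have e4 := F.toFrame.eval_dh hb q.rep h0
    have e5 := e3.symm.trans e4
    intro h6
    have h7 : eval q.rep b / lin (F.c 0) q.rep ^ n = 0 := e5.symm.trans h6
    exact div_ne_zero hbq (pow_ne_zero _ h0) h7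
  | exc i L =>
    obtain ⟨rfl, hL⟩ := hy
    obtain ⟨n, e, μ, a, b, ha, hb, hn, haI, hbI, ⟨w, hw, hwc⟩, hab⟩ := hs
    have hne : n = e := by
      rw [add_zero] at hn
      exact_mod_cast hn
    subst hne
    have haI' : a ∈ pointIdeal (p i) ^ μ := by
      have : ((μ : ℤ) + (0 : Fin r → ℤ) i).toNat = μ := by simp
      rwa [this] at haI
    obtain ⟨a', ha', -⟩ := F.exists_excPoly_eq μ a haI'
    obtain ⟨b', hb', hbev⟩ := F.exists_excPoly_eq μ b hbI
    refine ⟨a', b', ?_, ?_⟩
    · intro h0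
      have h0' : eval ![0, lin (F.c 2) (LineThrough.dir L) / lin (F.c 1) (LineThrough.dir L)] b' =
          0 := h0
      have h1 := hbev n hb L hL w hw
      rw [h0', mul_zero] at h1
      exact mul_ne_zero hwc (pow_ne_zero _ F.hM) h1
    · have h1 := F.lc9_rel ha hb s hab
      rw [ha', hb', map_mul, map_mul, map_pow, aeval_X] at h1
      have hu : (![lq (F.c 1) (F.c 0), lq (F.c 2) (F.c 1)] : Fin 2 → FunField) 0 ≠ 0 :=
        lq_ne_zero (F.toFrame.row_ne_zero 1) (F.toFrame.row_ne_zero 0)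
      have h2 := pow_ne_zero μ hu
      apply mul_left_cancel₀ h2
      rw [← h1]
      ring

lemma exc_val_u {h : CoordRing ℂ} (y : BlowUp p) (hy : F.excDom h y) :
    Val p y (lq (F.c 1) (F.c 0)) (F.excCrd y 0) := by
  cases y with
  | away q hq =>
    exact val_lq_away q hq _ _ hy.1
  | exc i L =>
    obtain ⟨rfl, hw⟩ := hy
    have h1 := val_lq_exc i L (F.c 1) (F.c 0) F.hM
    rw [F.hU, zero_div] at h1
    exact h1

lemma exc_val_v {h : CoordRing ℂ} (y : BlowUp p) (hy : F.excDom h y) :
    Val p y (lq (F.c 2) (F.c 1)) (F.excCrd y 1) := by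
  exact F.exc10_val_v y hy

/-- The chart `(U / M, V / U)` around the exceptional curve over `p k`. -/
def excChart {n : ℕ} (h : CoordRing ℂ) (hh : h.IsHomogeneous n)
    (hk : KillsOther p k (F.c 0) h) : LChart p where
  u := lq (F.c 1) (F.c 0)
  v := lq (F.c 2) (F.c 1)
  g := F.excPoly h
  dom := {y | F.excDom h y}
  crd := F.excCrd
  isOpen := F.exc_isOpen hh hk
  g_ne := F.exc_g_ne hh hk
  surj := F.exc_surj hh hk
  inj := fun y hy y' hy' e => F.exc_inj y y' hy hy' e
  val_u := F.exc_val_u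
  val_v := F.exc_val_v
  reg := F.exc_reg

end FrameAt

/-- Existence of `h` for the charts around an exceptional curve. -/
lemma exists_killsOther (hp : Function.Injective p) (k : Fin r) (M : Fin 3 → ℂ) :
    ∃ (n : ℕ) (h : CoordRing ℂ), h.IsHomogeneous n ∧ KillsOther p k M h := by
  choose! l hl using fun i (hi : i ≠ k) => exists_separating (p i) (p k) (fun h => hi (hp h).symm)
  refine ⟨∑ i ∈ Finset.univ.erase k, 1, ∏ i ∈ Finset.univ.erase k, l i, ?_, ?_, ?_⟩
  · exact MvPolynomial.IsHomogeneous.prod _ _ _ fun i hi => (hl i (Finset.ne_of_mem_erase hi)).1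
  · rw [map_prod]
    exact Finset.prod_ne_zero_iff.2 fun i hi => (hl i (Finset.ne_of_mem_erase hi)).2.2
  · intro i hi
    left
    rw [map_prod]
    exact Finset.prod_eq_zero (Finset.mem_erase.2 ⟨hi, Finset.mem_univ i⟩) (hl i hi).2.1

end

end Pool.Agent.Lib.MP_ee7b66_ag
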