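import Mathlib
import Pool.Agent.Lib.MP_ee7b66_ag.LC1

/-! # Charts: ideals of curves, vector fields, classical topology -/

open scoped LinearAlgebra.Projectivization
open Pool.Agent.Lib.MP_8481ed_ag TopologicalSpace MvPolynomial Topology

namespace Pool.Agent.Lib.MP_ee7b66_ag

noncomputable section

variable {r : ℕ} {p : Fin r → Plane ℂ}

/-! ### Auxiliary lemmas on polynomials in two variables -/

/-- The restriction of a polynomial to the coordinate hyperplane `X i = 0`. -/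
private def lc2_phi (i : Fin 2) : MvPolynomial (Fin 2) ℂ →ₐ[ℂ] MvPolynomial (Fin 2) ℂ :=
  aeval (fun j => if j = i then 0 else X j)

private lemma lc2_phi_dvd (i : Fin 2) (P : MvPolynomial (Fin 2) ℂ) :
    (X i : MvPolynomial (Fin 2) ℂ) ∣ P - lc2_phi i P := by
  induction P using MvPolynomial.induction_on with
  | C a =>
    unfold lc2_phi
    rw [aeval_C, MvPolynomial.algebraMap_eq, sub_self]
    exact dvd_zero _
  | add P Q hP hQ =>
    rw [map_add, add_sub_add_comm]
    exact dvd_add hP hQ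
  | mul_X P j hP =>
    rw [map_mul]
    have h1 : lc2_phi i (X j) = if j = i then 0 else X j := by
      unfold lc2_phi
      rw [aeval_X]
    rw [h1]
    split_ifs with h
    · subst h
      rw [mul_zero, sub_zero]
      exact dvd_mul_left _ _
    · rw [← sub_mul]
      exact hP.mul_right _

private lemma lc2_phi_eval (i : Fin 2) (P : MvPolynomial (Fin 2) ℂ) (z : Fin 2 → ℂ) :
    eval z (lc2_phi i P) = eval (Function.update z i 0) P := by
  induction P using MvPolynomial.induction_on with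
  | C a =>
    unfold lc2_phi
    rw [aeval_C, MvPolynomial.algebraMap_eq, eval_C, eval_C]
  | add P Q hP hQ => rw [map_add, map_add, map_add, hP, hQ]
  | mul_X P j hP =>
    rw [map_mul, map_mul, map_mul, hP, eval_X]
    have h1 : lc2_phi i (X j) = if j = i then 0 else X j := by
      unfold lc2_phi
      rw [aeval_X]
    rw [h1]
    congr 1
    split_ifs with h
    · subst h
      rw [map_zero, Function.update_self]
    · rw [eval_X, Function.update_of_ne h]

private lemma lc2_dvd (i : Fin 2) (P G : MvPolynomial (Fin 2) ℂ) (z₀ : Fin 2 → ℂ)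
    (hz₀ : z₀ i = 0) (hG : eval z₀ G ≠ 0)
    (h : ∀ z : Fin 2 → ℂ, z i = 0 → eval z G ≠ 0 → eval z P = 0) :
    (X i : MvPolynomial (Fin 2) ℂ) ∣ P := by
  have h0 : lc2_phi i P * lc2_phi i G = 0 := by
    apply MvPolynomial.funext
    intro z
    rw [map_mul, map_zero, lc2_phi_eval, lc2_phi_eval]
    by_cases hz : eval (Function.update z i 0) G = 0
    · rw [hz, mul_zero]
    · rw [h _ (Function.update_self i 0 z) hz, zero_mul]
  have h1 : lc2_phi i G ≠ 0 := by
    intro h2
    apply hG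
    have h3 := lc2_phi_eval i G z₀
    rw [h2, map_zero] at h3
    have h4 : Function.update z₀ i 0 = z₀ := by
      rw [← hz₀, Function.update_eq_self]
    rw [h4] at h3
    exact h3.symm
  have h2 : lc2_phi i P = 0 := (mul_eq_zero.1 h0).resolve_right h1
  have h3 := lc2_phi_dvd i P
  rwa [h2, sub_zero] at h3

private lemma lc2_expand (P : MvPolynomial (Fin 2) ℂ) :
    ∃ A B : MvPolynomial (Fin 2) ℂ, P = C (eval 0 P) + A * X 0 + B * X 1 := by
  induction P using MvPolynomial.induction_on with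
  | C a => exact ⟨0, 0, by rw [eval_C, zero_mul, zero_mul, add_zero, add_zero]⟩
  | add P Q hP hQ =>
    obtain ⟨A, B, h⟩ := hP
    obtain ⟨A', B', h'⟩ := hQ
    refine ⟨A + A', B + B', ?_⟩
    rw [map_add, map_add]
    linear_combination h + h'
  | mul_X P j hP =>
    rw [map_mul, eval_X, Pi.zero_apply, mul_zero, map_zero]
    fin_cases j
    · exact ⟨P, 0, by simp⟩
    · exact ⟨0, P, by simp⟩

namespace LChart

variable (C : LChart p)

private lemma lc2_ev_X0 : C.ev (X 0) = C.u := by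
  unfold ev
  rw [aeval_X]
  rfl

private lemma lc2_ev_X1 : C.ev (X 1) = C.v := by
  unfold ev
  rw [aeval_X]
  rfl

private lemma lc2_reg_ev {y : BlowUp p} (hy : y ∈ C.dom) (P : MvPolynomial (Fin 2) ℂ) :
    Reg p y (C.ev P) := (C.val_ev hy P).reg

private lemma lc2_reg_quot {y : BlowUp p} (hy : y ∈ C.dom) (P Q : MvPolynomial (Fin 2) ℂ)
    (hQ : eval (C.crd y) Q ≠ 0) : Reg p y (C.ev P / C.ev Q) :=
  (C.reg_iff hy _).2 ⟨P, Q, hQ, rfl⟩

/-- The maximal ideal at a point of a chart: expand `P` around the point. -/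
lemma val_zero_iff {x : BlowUp p} (hx : x ∈ C.dom) (h0 : C.crd x = 0) (s : FunField) :
    Val p x s 0 ↔ ∃ f g : FunField, Reg p x f ∧ Reg p x g ∧ s = f * C.u + g * C.v := by
  constructor
  · intro hs
    obtain ⟨P, Q, hQ, hs1, hs2⟩ := (C.val_iff hx s 0).1 hs
    have hP : eval (C.crd x) P = 0 := by
      rcases div_eq_zero_iff.1 hs2.symm with h | h
      · exact h
      · exact absurd h hQ
    obtain ⟨A, B, hAB⟩ := lc2_expand P
    rw [h0] at hP
    rw [hP, map_zero, zero_add] at hAB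
    refine ⟨C.ev A / C.ev Q, C.ev B / C.ev Q, C.lc2_reg_quot hx A Q hQ,
      C.lc2_reg_quot hx B Q hQ, ?_⟩
    rw [hs1]
    conv_lhs => rw [hAB, map_add, map_mul, map_mul, C.lc2_ev_X0, C.lc2_ev_X1]
    ring
  · rintro ⟨f, g, hf, hg, rfl⟩
    obtain ⟨c, hc⟩ := hf.exists_val
    obtain ⟨d, hd⟩ := hg.exists_val
    have hu := C.val_u x hx
    have hv := C.val_v x hx
    rw [h0] at hu hv
    have h1 := (hc.mul hu).add (hd.mul hv)
    rw [Pi.zero_apply, Pi.zero_apply, mul_zero, mul_zero, add_zero] at h1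
    exact h1

private lemma lc2_gen {Cu : Curve r} {x : BlowUp p} (i : Fin 2) (w : FunField)
    (hw : C.ev (X i) = w)
    (hx : x ∈ C.dom) (hx0 : C.crd x i = 0)
    (hCu : ∀ y ∈ C.dom, On p Cu y ↔ C.crd y i = 0) : Gen p x (InIdeal p Cu x) w := by
  intro s
  constructor
  · rintro ⟨U, hU, hxU, h⟩
    obtain ⟨q, hq, hq'⟩ := C.exists_basic hU hx hxU
    obtain ⟨P, Q, hQ, hs⟩ := (C.reg_iff hx s).1 (h x hxU).1
    have hdvd : (X i : MvPolynomial (Fin 2) ℂ) ∣ P := by
      refine lc2_dvd i P (C.g * q * Q) (C.crd x) hx0 ?_ ?_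
      · rw [map_mul, map_mul]
        exact mul_ne_zero (mul_ne_zero (C.g_ne x hx) hq) hQ
      · intro z hz hz'
        rw [map_mul, map_mul] at hz'
        have hz1 := left_ne_zero_of_mul hz'
        obtain ⟨y, hy, rfl⟩ := C.surj z (left_ne_zero_of_mul hz1)
        have hyU := hq' y hy (right_ne_zero_of_mul hz1)
        have hval := (h y hyU).2 ((hCu y hy).2 hz)
        have hval' : Val p y s (eval (C.crd y) P / eval (C.crd y) Q) :=
          (C.val_iff hy s _).2 ⟨P, Q, right_ne_zero_of_mul hz', hs, rfl⟩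
        have h2 := hval'.unique hval
        rcases div_eq_zero_iff.1 h2 with h3 | h3
        · exact h3
        · exact absurd h3 (right_ne_zero_of_mul hz')
    obtain ⟨B, rfl⟩ := hdvd
    refine ⟨C.ev B / C.ev Q, C.lc2_reg_quot hx B Q hQ, ?_⟩
    rw [hs, map_mul, hw]
    ring
  · rintro ⟨f, hf, rfl⟩
    obtain ⟨P, Q, hQ, hs⟩ := (C.reg_iff hx f).1 hf
    refine ⟨{y | y ∈ C.dom ∧ eval (C.crd y) Q ≠ 0}, C.isOpen_basic Q, ⟨hx, hQ⟩, ?_⟩
    rintro y ⟨hy, hyQ⟩
    have hfy : Reg p y f := by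
      rw [hs]
      exact C.lc2_reg_quot hy P Q hyQ
    have hwy : Val p y w (C.crd y i) := by
      rw [← hw]
      have := C.val_ev hy (X i)
      rwa [eval_X] at this
    refine ⟨hfy.mul hwy.reg, fun hon => ?_⟩
    obtain ⟨c, hc⟩ := hfy.exists_val
    have h1 := hc.mul hwy
    rw [(hCu y hy).1 hon, mul_zero] at h1
    exact h1

/-- If the curve is given by `v = 0` in the chart, then its ideal is generated by `v`.
Let `s` be in the ideal, `s = P(u, v) / Q(u, v)`. By `exists_basic` there is `h` with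
`h(x) ≠ 0` such that `s` vanishes at all points `y` of `dom` with `crd y 1 = 0`, `h(y) ≠ 0`. The
points `(z, 0)` with `(g h Q)(z, 0) ≠ 0` are such points; there are infinitely many since
`(g h Q)(x) ≠ 0` and `x` has second coordinate `0`. So `P(z, 0) = 0` for infinitely many `z`, hence
`P(X₀, 0) = 0` and `X₁ ∣ P`. -/
lemma gen_v {Cu : Curve r} {x : BlowUp p} (hx : x ∈ C.dom) (hx0 : C.crd x 1 = 0)
    (hCu : ∀ y ∈ C.dom, On p Cu y ↔ C.crd y 1 = 0) : Gen p x (InIdeal p Cu x) C.v :=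
  C.lc2_gen 1 C.v C.lc2_ev_X1 hx hx0 hCu

/-- The same for a curve given by `u = 0`. -/
lemma gen_u {Cu : Curve r} {x : BlowUp p} (hx : x ∈ C.dom) (hx0 : C.crd x 0 = 0)
    (hCu : ∀ y ∈ C.dom, On p Cu y ↔ C.crd y 0 = 0) : Gen p x (InIdeal p Cu x) C.u :=
  C.lc2_gen 0 C.u C.lc2_ev_X0 hx hx0 hCu

private lemma lc2_reg_der_ev {x : BlowUp p} (hx : x ∈ C.dom) (δ : VecField)
    (hu : Reg p x (δ C.u)) (hv : Reg p x (δ C.v)) (P : MvPolynomial (Fin 2) ℂ) :
    Reg p x (δ (C.ev P)) := by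
  induction P using MvPolynomial.induction_on with
  | C a =>
    have h1 : C.ev (MvPolynomial.C a) = algebraMap ℂ FunField a := by
      unfold ev
      rw [aeval_C]
    rw [h1, Derivation.map_algebraMap]
    exact Reg.zero x
  | add P Q hP hQ =>
    rw [map_add, map_add]
    exact hP.add hQ
  | mul_X P j hP =>
    rw [map_mul, Derivation.leibniz, smul_eq_mul, smul_eq_mul]
    have h2 : Reg p x (δ (C.ev (X j))) := by
      fin_cases j
      · change Reg p x (δ (C.ev (X 0)))
        rw [C.lc2_ev_X0]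
        exact hu
      · change Reg p x (δ (C.ev (X 1)))
        rw [C.lc2_ev_X1]
        exact hv
    exact ((C.lc2_reg_ev hx P).mul h2).add ((C.lc2_reg_ev hx (X j)).mul hP)

/-- A derivation preserves the local ring as soon as it maps `u` and `v` to regular functions:
`δ(P(u, v)) = P_u δu + P_v δv` (induction on `P`) and the quotient rule. -/
lemma reg_der {x : BlowUp p} (hx : x ∈ C.dom) (δ : VecField) (hu : Reg p x (δ C.u))
    (hv : Reg p x (δ C.v)) {s : FunField} (hs : Reg p x s) : Reg p x (δ s) := by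
  obtain ⟨P, Q, hQ, hs1⟩ := (C.reg_iff hx s).1 hs
  have hQ0 : C.ev Q ≠ 0 := C.ev_ne_zero hx hQ
  have h1 : s * C.ev Q = C.ev P := by
    rw [hs1, div_mul_cancel₀ _ hQ0]
  have h2 := congrArg δ h1
  rw [Derivation.leibniz, smul_eq_mul, smul_eq_mul] at h2
  have h3 : δ s = (δ (C.ev P) + -(s * δ (C.ev Q))) * (C.ev Q)⁻¹ := by
    rw [eq_mul_inv_iff_mul_eq₀ hQ0]
    linear_combination h2
  rw [h3]
  have hinv : Reg p x (C.ev Q)⁻¹ := ((C.val_ev hx Q).inv hQ).reg
  exact ((C.lc2_reg_der_ev hx δ hu hv P).add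
    (hs.mul (C.lc2_reg_der_ev hx δ hu hv Q)).neg).mul hinv

private lemma lc2_classical_le : classical p ≤ zariski p := by
  refine le_generateFrom ?_
  rintro U ⟨g, rfl⟩
  by_cases hne : ∃ x : BlowUp p, IsRegularAt p 0 0 x g
  · have hrat : IsRatFun g := by
      obtain ⟨x, hx⟩ := hne
      cases x with
      | away q hq =>
        obtain ⟨n, e, a, b, ha, hb, hn, hbq, hg⟩ := hx
        have hb0 : b ≠ 0 := by
          rintro rfl
          simp at hbq
        have hne' : n = e := by omega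
        subst hne'
        exact ⟨n, a, b, ha, hb, hb0, by
          change g = algebraMap _ _ a / algebraMap _ _ b
          rw [eq_div_iff (toFrac_ne_zero hb0)]
          exact hg⟩
      | exc i L =>
        obtain ⟨n, e, μ, a, b, ha, hb, hn, haI, hbI, ⟨w, hw, hbl⟩, hg⟩ := hx
        have hb0 : b ≠ 0 := by
          rintro rfl
          simp at hbl
        have hne' : n = e := by omega
        subst hne'
        exact ⟨n, a, b, ha, hb, hb0, by
          change g = algebraMap _ _ a / algebraMap _ _ b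
          rw [eq_div_iff (toFrac_ne_zero hb0)]
          exact hg⟩
    refine TopologicalSpace.isOpen_generateFrom_of_mem
      ⟨(⟨g, hrat⟩ : funSubfield), Set.univ, isOpen_univ, ?_⟩
    ext x
    constructor
    · intro hx
      have h1 : Reg p x (⟨g, hrat⟩ : funSubfield) := hx
      obtain ⟨c, hc⟩ := h1.exists_val
      exact ⟨c, trivial, hc⟩
    · rintro ⟨c, -, hc⟩
      exact hc.reg
  · have h1 : {x : BlowUp p | g ∈ stalk p 0 0 x} = ∅ := by
      ext x
      constructor
      · intro hx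
        exact absurd ⟨x, hx⟩ hne
      · intro hx
        exact hx.elim
    rw [h1]
    exact @isOpen_empty _ (classical p)

/-- `dom` is open in the classical topology (Zariski open sets are open: take `W = univ` and use
`Reg.exists_val`). -/
lemma isOpen_dom_classical : IsOpen[classical p] C.dom := lc2_classical_le _ C.isOpen

private lemma lc2_isOpen_preimage {V : Set (Fin 2 → ℂ)} (hV : IsOpen V) :
    IsOpen[classical p] (C.dom ∩ C.crd ⁻¹' V) := by
  refine (@isOpen_iff_forall_mem_open _ (classical p) _).2 ?_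
  rintro y ⟨hy, hyV⟩
  obtain ⟨W, hW, hyW, hWV⟩ : ∃ W : Fin 2 → Set ℂ, (∀ i, IsOpen (W i)) ∧
      (∀ i, C.crd y i ∈ W i) ∧ Set.univ.pi W ⊆ V := by
    have h1 := isOpen_pi_iff'.1 hV (C.crd y) hyV
    obtain ⟨W, hW, hWV⟩ := h1
    exact ⟨W, fun i => (hW i).1, fun i => (hW i).2, hWV⟩
  have o0 : IsOpen[classical p] {x : BlowUp p | ∃ c ∈ W 0, Val p x C.u c} :=
    TopologicalSpace.isOpen_generateFrom_of_mem ⟨C.u, W 0, hW 0, rfl⟩
  have o1 : IsOpen[classical p] {x : BlowUp p | ∃ c ∈ W 1, Val p x C.v c} :=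
    TopologicalSpace.isOpen_generateFrom_of_mem ⟨C.v, W 1, hW 1, rfl⟩
  refine ⟨C.dom ∩ ({x : BlowUp p | ∃ c ∈ W 0, Val p x C.u c} ∩
    {x : BlowUp p | ∃ c ∈ W 1, Val p x C.v c}), ?_, ?_, ?_⟩
  · rintro y' ⟨hy', ⟨c, hc, hcv⟩, ⟨d, hd, hdv⟩⟩
    refine ⟨hy', hWV ?_⟩
    intro i _
    fin_cases i
    · change C.crd y' 0 ∈ W 0
      rw [(C.val_u y' hy').unique hcv]
      exact hc
    · change C.crd y' 1 ∈ W 1
      rw [(C.val_v y' hy').unique hdv]
      exact hd
  · exact (classical p).isOpen_inter _ _ C.isOpen_dom_classical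
      ((classical p).isOpen_inter _ _ o0 o1)
  · exact ⟨hy, ⟨C.crd y 0, hyW 0, C.val_u y hy⟩, ⟨C.crd y 1, hyW 1, C.val_v y hy⟩⟩

private lemma lc2_isOpen_image {O : Set (BlowUp p)} (hO : IsOpen[classical p] O) :
    IsOpen (C.crd '' (O ∩ C.dom)) := by
  induction hO with
  | basic s hs =>
    obtain ⟨g, W, hW, rfl⟩ := hs
    rw [isOpen_iff_forall_mem_open]
    rintro z ⟨y, ⟨⟨c, hcW, hc⟩, hy⟩, rfl⟩
    obtain ⟨P, Q, hQ, hg, hcPQ⟩ := (C.val_iff hy g c).1 hc
    have hopen : IsOpen {z : Fin 2 → ℂ | eval z (C.g * Q) ≠ 0} :=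
      isOpen_ne_fun (MvPolynomial.continuous_eval _) continuous_const
    have hcont : ContinuousOn (fun z : Fin 2 → ℂ => eval z P / eval z Q)
        {z : Fin 2 → ℂ | eval z (C.g * Q) ≠ 0} := by
      refine ContinuousOn.div (MvPolynomial.continuous_eval _).continuousOn
        (MvPolynomial.continuous_eval _).continuousOn ?_
      intro z hz
      have hz' : eval z (C.g * Q) ≠ 0 := hz
      rw [map_mul] at hz'
      exact right_ne_zero_of_mul hz'
    refine ⟨{z : Fin 2 → ℂ | eval z (C.g * Q) ≠ 0} ∩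
      (fun z : Fin 2 → ℂ => eval z P / eval z Q) ⁻¹' W, ?_,
      hcont.isOpen_inter_preimage hopen hW, ?_⟩
    · rintro z ⟨hz, hzW⟩
      have hz' : eval z (C.g * Q) ≠ 0 := hz
      rw [map_mul] at hz'
      obtain ⟨y', hy', rfl⟩ := C.surj z (left_ne_zero_of_mul hz')
      refine ⟨y', ⟨⟨_, hzW, ?_⟩, hy'⟩, rfl⟩
      exact (C.val_iff hy' g _).2 ⟨P, Q, right_ne_zero_of_mul hz', hg, rfl⟩
    · refine ⟨?_, ?_⟩
      · change eval (C.crd y) (C.g * Q) ≠ 0
        rw [map_mul]
        exact mul_ne_zero (C.g_ne y hy) hQ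
      · change eval (C.crd y) P / eval (C.crd y) Q ∈ W
        rw [← hcPQ]
        exact hcW
  | univ =>
    have h1 : C.crd '' (Set.univ ∩ C.dom) = {z : Fin 2 → ℂ | eval z C.g ≠ 0} := by
      ext z
      constructor
      · rintro ⟨y, ⟨-, hy⟩, rfl⟩
        exact C.g_ne y hy
      · intro hz
        obtain ⟨y, hy, rfl⟩ := C.surj z hz
        exact ⟨y, ⟨trivial, hy⟩, rfl⟩
    rw [h1]
    exact isOpen_ne_fun (MvPolynomial.continuous_eval _) continuous_const
  | inter s t _ _ ih1 ih2 =>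
    have h1 : C.crd '' (s ∩ t ∩ C.dom) = C.crd '' (s ∩ C.dom) ∩ C.crd '' (t ∩ C.dom) := by
      ext z
      constructor
      · rintro ⟨y, ⟨⟨h1, h2⟩, hy⟩, rfl⟩
        exact ⟨⟨y, ⟨h1, hy⟩, rfl⟩, ⟨y, ⟨h2, hy⟩, rfl⟩⟩
      · rintro ⟨⟨y, ⟨h1, hy⟩, rfl⟩, ⟨y', ⟨h2, hy'⟩, he⟩⟩
        have := C.inj y' hy' y hy he
        subst this
        exact ⟨y', ⟨⟨h1, h2⟩, hy⟩, rfl⟩
    rw [h1]
    exact ih1.inter ih2
  | sUnion S _ ih =>
    have h1 : C.crd '' (⋃₀ S ∩ C.dom) = ⋃ s ∈ S, C.crd '' (s ∩ C.dom) := by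
      ext z
      simp only [Set.mem_iUnion]
      constructor
      · rintro ⟨y, ⟨⟨s, hs, h1⟩, hy⟩, rfl⟩
        exact ⟨s, hs, y, ⟨h1, hy⟩, rfl⟩
      · rintro ⟨s, hs, y, ⟨h1, hy⟩, rfl⟩
        exact ⟨y, ⟨⟨s, hs, h1⟩, hy⟩, rfl⟩
    rw [h1]
    exact isOpen_biUnion fun s hs => ih s hs

/-- A subset of `dom` is open in the classical topology iff its image in `ℂ²` is open. -/
lemma isOpen_classical_iff {U : Set (BlowUp p)} (hU : U ⊆ C.dom) :
    IsOpen[classical p] U ↔ IsOpen (C.crd '' U) := by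
  constructor
  · intro h
    have h1 := C.lc2_isOpen_image h
    rwa [Set.inter_eq_left.2 hU] at h1
  · intro h
    have h1 := C.lc2_isOpen_preimage h
    have h2 : C.dom ∩ C.crd ⁻¹' (C.crd '' U) = U := by
      ext y
      constructor
      · rintro ⟨hy, ⟨y', hy', he⟩⟩
        rw [← C.inj y' (hU hy') y hy he]
        exact hy'
      · intro hy
        exact ⟨hU hy, ⟨y, hy, rfl⟩⟩
    rwa [h2] at h1

end LChart

end

end Pool.Agent.Lib.MP_ee7b66_ag
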