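import Mathlib
import Pool.Agent.Lib.MP_ee7b66_ag.Witness
import Pool.Agent.Lib.MP_ee7b66_ag.HessePencil

/-!
# The twelve triple points
-/

open scoped LinearAlgebra.Projectivization
open TopologicalSpace MvPolynomial

namespace Pool.Agent.Lib.MP_ee7b66_ag.Hes

open Pool.Agent.Lib.MP_8481ed_ag

noncomputable section

lemma om_ne_om_sq : om ≠ om ^ 2 := by
  intro h
  apply om_ne_one
  have h1 : om * (om - 1) = 0 := by linear_combination -h
  rcases mul_eq_zero.1 h1 with h2 | h2
  · exact absurd h2 om_ne_zero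
  · linear_combination h2

lemma om_sq_ne_zero : om ^ 2 ≠ 0 := pow_ne_zero _ om_ne_zero

/-- The cube roots of unity. -/
lemma cube_cases {ζ : ℂ} (h : ζ ^ 3 = 1) : ζ = 1 ∨ ζ = om ∨ ζ = om ^ 2 := by
  have h1 : (ζ - 1) * ((ζ - om) * (ζ - om ^ 2)) = 0 := by
    linear_combination h + (-ζ ^ 2 + ζ * om) * om_rel - om_cube
  rcases mul_eq_zero.1 h1 with h2 | h2
  · left
    linear_combination h2
  · rcases mul_eq_zero.1 h2 with h3 | h3
    · right
      left
      linear_combination h3
    · right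
      right
      linear_combination h3

set_option linter.unusedSimpArgs false in
lemma hp_injective : Function.Injective hp := by
  intro i j h
  rw [hp, hp, Projectivization.mk_eq_mk_iff'] at h
  obtain ⟨a, ha⟩ := h
  have key : ∀ b c : Fin 3, pvec i b * pvec j c = pvec i c * pvec j b := by
    intro b c
    rw [← ha]
    simp only [Pi.smul_apply, smul_eq_mul]
    ring
  have h01 := key 0 1
  have h02 := key 0 2
  have h12 := key 1 2
  clear key ha
  have f1 := om_ne_one
  have f2 := om_sq_ne_one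
  have f3 := om_ne_zero
  have f4 := om_ne_om_sq
  have f5 := om_sq_ne_zero
  have g1 := om_ne_one.symm
  have g2 := om_sq_ne_one.symm
  have g3 := om_ne_zero.symm
  have g4 := om_ne_om_sq.symm
  have g5 := om_sq_ne_zero.symm
  unfold pvec at h01 h02 h12
  generalize om ^ 2 = s at f2 f4 f5 g2 g4 g5 h01 h02 h12
  fin_cases i <;> fin_cases j <;> first
    | rfl
    | (exfalso; simp [f1, f2, f3, f4, f5, g1, g2, g3, g4, g5] at h01; done)
    | (exfalso; simp [f1, f2, f3, f4, f5, g1, g2, g3, g4, g5] at h02; done)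
    | (exfalso; simp [f1, f2, f3, f4, f5, g1, g2, g3, g4, g5] at h12)

lemma hesseZero_smul {v : Fin 3 → ℂ} {t : ℂ} (ht : t ≠ 0) : HesseZero (t • v) ↔ HesseZero v := by
  have h4 : t ^ 4 ≠ 0 := pow_ne_zero _ ht
  unfold HesseZero
  simp only [Pi.smul_apply, smul_eq_mul]
  have e : ∀ a b c : ℂ, t * a * ((t * b) ^ 3 - (t * c) ^ 3) = t ^ 4 * (a * (b ^ 3 - c ^ 3)) := by
    intro a b c
    ring
  rw [e, e, e, mul_eq_zero_iff_left h4, mul_eq_zero_iff_left h4, mul_eq_zero_iff_left h4]

lemma hesseZero_mk (v : Fin 3 → ℂ) (hv : v ≠ 0) :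
    HesseZero (Projectivization.mk ℂ v hv).rep ↔ HesseZero v := by
  obtain ⟨a, ha⟩ := Projectivization.exists_smul_eq_mk_rep ℂ v hv
  rw [← ha]
  exact hesseZero_smul a.ne_zero

lemma hesseZero_pvec (i : Fin 12) : HesseZero (pvec i) := by
  have h3 := om_cube
  have h6 : (om ^ 2) ^ 3 = 1 := by rw [← pow_mul, mul_comm, pow_mul, om_cube, one_pow]
  unfold HesseZero
  fin_cases i <;> simp [pvec, h3, h6]

lemma hesse_hp (q : Plane ℂ) : HesseZero q.rep ↔ ∃ i, q = hp i := by
  constructor
  · intro h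
    have hq : ∀ (v : Fin 3 → ℂ) (hv : v ≠ 0) (t : ℂ), q.rep = t • v →
        q = Projectivization.mk ℂ v hv := by
      intro v hv t ht
      conv_lhs => rw [← q.mk_rep]
      rw [Projectivization.mk_eq_mk_iff']
      exact ⟨t, ht.symm⟩
    by_cases h0 : q.rep 0 = 0
    · by_cases h1 : q.rep 1 = 0
      · refine ⟨0, hq _ _ (q.rep 2) ?_⟩
        funext j
        fin_cases j <;> simp [pvec, h0, h1]
      · rcases hesse_cases h (a := 0) (b := 2) (c := 1) (by decide) (by decide) (by decide) h1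
          with h' | h'
        · refine ⟨5, hq _ _ (q.rep 1) ?_⟩
          funext j
          fin_cases j <;> simp [pvec, h0, h'.2]
        · exact absurd h0 h'.1
    · rcases hesse_cases h (a := 1) (b := 2) (c := 0) (by decide) (by decide) (by decide) h0
          with h' | h'
      · refine ⟨4, hq _ _ (q.rep 0) ?_⟩
        funext j
        fin_cases j <;> simp [pvec, h'.1, h'.2]
      · obtain ⟨-, -, hb, hc⟩ := h'
        have key : ∀ ζ η : ℂ, q.rep 1 / q.rep 0 = ζ → q.rep 2 / q.rep 0 = η →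
            q.rep = q.rep 0 • ![1, ζ, η] := by
          intro ζ η h1 h2
          rw [div_eq_iff h0] at h1 h2
          funext j
          fin_cases j
          · simp
          · simp [h1, mul_comm]
          · simp [h2, mul_comm]
        rcases cube_cases hb with hb | hb | hb <;> rcases cube_cases hc with hc | hc | hc
        · exact ⟨1, hq _ _ _ (key _ _ hb hc)⟩
        · exact ⟨2, hq _ _ _ (key _ _ hb hc)⟩
        · exact ⟨3, hq _ _ _ (key _ _ hb hc)⟩
        · exact ⟨6, hq _ _ _ (key _ _ hb hc)⟩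
        · exact ⟨7, hq _ _ _ (key _ _ hb hc)⟩
        · exact ⟨8, hq _ _ _ (key _ _ hb hc)⟩
        · exact ⟨9, hq _ _ _ (key _ _ hb hc)⟩
        · exact ⟨10, hq _ _ _ (key _ _ hb hc)⟩
        · exact ⟨11, hq _ _ _ (key _ _ hb hc)⟩
  · rintro ⟨i, rfl⟩
    exact (hesseZero_mk _ _).2 (hesseZero_pvec i)

end

end Pool.Agent.Lib.MP_ee7b66_ag.Hes
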