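import Mathlib
import Pool.Agent.Lib.MP_ee7b66_ag.Frame
import Pool.Agent.Lib.MP_ee7b66_ag.ContrDefs

/-!
# The rational vector field `(X₀⁴ ∂₀ + X₁⁴ ∂₁ + X₂⁴ ∂₂) / (X₀ X₁ X₂)`
-/

open scoped LinearAlgebra.Projectivization
open TopologicalSpace MvPolynomial

namespace Pool.Agent.Lib.MP_ee7b66_ag.Hes

open Pool.Agent.Lib.MP_8481ed_ag

noncomputable section

/-- The derivation `X₀⁴ ∂₀ + X₁⁴ ∂₁ + X₂⁴ ∂₂`. -/
def der0 : Derivation ℂ (CoordRing ℂ) (CoordRing ℂ) :=
  (X 0 ^ 4 : CoordRing ℂ) • pderiv 0 + (X 1 ^ 4 : CoordRing ℂ) • pderiv 1 +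
    (X 2 ^ 4 : CoordRing ℂ) • pderiv 2

lemma der0_apply (a : CoordRing ℂ) : der0 a = X 0 ^ 4 * pderiv 0 a + X 1 ^ 4 * pderiv 1 a +
    X 2 ^ 4 * pderiv 2 a := rfl

lemma der0_X (i : Fin 3) : der0 (X i) = X i ^ 4 := by
  rw [der0_apply]
  fin_cases i <;> simp [pderiv_X]

lemma der0_C (c : ℂ) : der0 (C c) = 0 := by
  rw [der0_apply, pderiv_C, pderiv_C, pderiv_C]
  ring

lemma der0_hom {n : ℕ} {a : CoordRing ℂ} (ha : a.IsHomogeneous n) :
    (der0 a).IsHomogeneous (n + 3) := by
  rw [der0_apply]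
  rcases Nat.eq_zero_or_pos n with rfl | hn
  · have ha' : a = C (coeff 0 a) := by
      have := (totalDegree_eq_zero_iff_eq_C (p := a)).1 (Nat.le_zero.1 ha.totalDegree_le)
      exact this
    rw [ha', pderiv_C, pderiv_C, pderiv_C]
    simp only [mul_zero, add_zero]
    exact isHomogeneous_zero _ _ _
  · have key : ∀ i : Fin 3, (X i ^ 4 * pderiv i a : CoordRing ℂ).IsHomogeneous (n + 3) := by
      intro i
      have h1 := (hom_X_pow (k := ℂ) i 4).mul (ha.pderiv (i := i))
      have h2 : 4 + (n - 1) = n + 3 := by omega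
      rwa [h2] at h1
    exact ((key 0).add (key 1)).add (key 2)

/-- The homomorphism to the dual numbers attached to the derivation. -/
def toDual : CoordRing ℂ →+* TrivSqZeroExt (Frac ℂ) (Frac ℂ) where
  toFun a := TrivSqZeroExt.inl (toFrac a) + TrivSqZeroExt.inr (toFrac (der0 a))
  map_one' := by
    rw [Derivation.map_one_eq_zero, map_zero, map_one, TrivSqZeroExt.inr_zero, add_zero,
      TrivSqZeroExt.inl_one]
  map_mul' a b := by
    apply TrivSqZeroExt.ext
    · simp only [TrivSqZeroExt.fst_add, TrivSqZeroExt.fst_mul, TrivSqZeroExt.fst_inl,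
        TrivSqZeroExt.fst_inr, add_zero, map_mul]
    · simp only [TrivSqZeroExt.fst_add, TrivSqZeroExt.snd_add, TrivSqZeroExt.snd_mul,
        TrivSqZeroExt.fst_inl, TrivSqZeroExt.fst_inr, TrivSqZeroExt.snd_inl,
        TrivSqZeroExt.snd_inr, add_zero, zero_add, Derivation.leibniz, smul_eq_mul, map_add,
        map_mul, MulOpposite.smul_eq_mul_unop, MulOpposite.unop_op]
      ring
  map_zero' := by
    rw [map_zero, map_zero, map_zero, TrivSqZeroExt.inl_zero, TrivSqZeroExt.inr_zero, add_zero]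
  map_add' a b := by
    rw [map_add, map_add, map_add, TrivSqZeroExt.inl_add, TrivSqZeroExt.inr_add]
    abel

lemma fst_toDual (a : CoordRing ℂ) : (toDual a).fst = toFrac a := by
  change (TrivSqZeroExt.inl (toFrac a) + TrivSqZeroExt.inr (toFrac (der0 a)) :
    TrivSqZeroExt (Frac ℂ) (Frac ℂ)).fst = _
  rw [TrivSqZeroExt.fst_add, TrivSqZeroExt.fst_inl, TrivSqZeroExt.fst_inr, add_zero]

lemma snd_toDual (a : CoordRing ℂ) : (toDual a).snd = toFrac (der0 a) := by
  change (TrivSqZeroExt.inl (toFrac a) + TrivSqZeroExt.inr (toFrac (der0 a)) :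
    TrivSqZeroExt (Frac ℂ) (Frac ℂ)).snd = _
  rw [TrivSqZeroExt.snd_add, TrivSqZeroExt.snd_inl, TrivSqZeroExt.snd_inr, zero_add]

lemma isUnit_toDual (y : nonZeroDivisors (CoordRing ℂ)) : IsUnit (toDual y) := by
  rw [TrivSqZeroExt.isUnit_iff_isUnit_fst, fst_toDual, isUnit_iff_ne_zero]
  exact toFrac_ne_zero (nonZeroDivisors.ne_zero y.2)

/-- Its extension to the fraction field. -/
def liftDual : Frac ℂ →+* TrivSqZeroExt (Frac ℂ) (Frac ℂ) := IsLocalization.lift isUnit_toDual

lemma liftDual_toFrac (a : CoordRing ℂ) : liftDual (toFrac a) = toDual a :=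
  IsLocalization.lift_eq isUnit_toDual a

lemma fst_liftDual (x : Frac ℂ) : (liftDual x).fst = x := by
  have h : ((TrivSqZeroExt.fstHom (Frac ℂ) (Frac ℂ) (Frac ℂ)).toRingHom).comp liftDual =
      RingHom.id (Frac ℂ) := by
    apply IsLocalization.ringHom_ext (nonZeroDivisors (CoordRing ℂ))
    apply RingHom.ext
    intro a
    change (liftDual (toFrac a)).fst = toFrac a
    rw [liftDual_toFrac, fst_toDual]
  exact congrArg (fun φ : Frac ℂ →+* Frac ℂ => φ x) h

lemma liftDual_const (c : ℂ) : (liftDual (algebraMap ℂ (Frac ℂ) c)).snd = 0 := by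
  rw [IsScalarTower.algebraMap_apply ℂ (CoordRing ℂ) (Frac ℂ)]
  change (liftDual (toFrac (C c))).snd = 0
  rw [liftDual_toFrac, snd_toDual, der0_C, map_zero]

/-- The derivation `X₀⁴ ∂₀ + X₁⁴ ∂₁ + X₂⁴ ∂₂` of the fraction field. -/
def derK : Derivation ℂ (Frac ℂ) (Frac ℂ) := Derivation.mk'
  { toFun := fun x => (liftDual x).snd
    map_add' := fun x y => by rw [map_add, TrivSqZeroExt.snd_add]
    map_smul' := fun c x => by
      rw [Algebra.smul_def, map_mul, TrivSqZeroExt.snd_mul, fst_liftDual, fst_liftDual,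
        liftDual_const, RingHom.id_apply, Algebra.smul_def c, smul_zero, add_zero, smul_eq_mul] }
  (fun x y => by
    change (liftDual (x * y)).snd = _
    rw [map_mul, TrivSqZeroExt.snd_mul, fst_liftDual, fst_liftDual]
    simp only [MulOpposite.smul_eq_mul_unop, MulOpposite.unop_op, smul_eq_mul]
    change _ = x * (liftDual y).snd + y * (liftDual x).snd
    ring)

lemma derK_toFrac (a : CoordRing ℂ) : derK (toFrac a) = toFrac (der0 a) := by
  change (liftDual (toFrac a)).snd = _
  rw [liftDual_toFrac, snd_toDual]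

/-- The product of the coordinates. -/
def xyz : CoordRing ℂ := X 0 * X 1 * X 2

lemma xyz_ne_zero : xyz ≠ 0 :=
  mul_ne_zero (mul_ne_zero (X_ne_zero 0) (X_ne_zero 1)) (X_ne_zero 2)

lemma hom_xyz : xyz.IsHomogeneous 3 := ((hom_X 0).mul (hom_X 1)).mul (hom_X 2)

/-- The derivative of a fraction of forms. -/
lemma derK_div (a b : CoordRing ℂ) :
    derK (toFrac a / toFrac b) =
      toFrac (b * der0 a - a * der0 b) / toFrac b ^ 2 := by
  rw [Derivation.leibniz_div, derK_toFrac, derK_toFrac]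
  simp only [smul_eq_mul, map_sub, map_mul]
  ring

lemma isRatFun_theta {s : Frac ℂ} (hs : IsRatFun s) : IsRatFun ((toFrac xyz)⁻¹ * derK s) := by
  obtain ⟨n, a, b, ha, hb, hb0, rfl⟩ := hs
  rw [derK_div a b]
  refine ⟨2 * n + 3, b * der0 a - a * der0 b, b ^ 2 * xyz, ?_, ?_,
    mul_ne_zero (pow_ne_zero _ hb0) xyz_ne_zero, ?_⟩
  · have h1 := hb.mul (der0_hom ha)
    have h2 := ha.mul (der0_hom hb)
    have h3 : n + (n + 3) = 2 * n + 3 := by ring
    rw [h3] at h1 h2
    exact h1.sub h2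
  · have h1 := (hb.pow 2).mul hom_xyz
    rwa [mul_comm n 2] at h1
  · rw [map_mul, map_pow]
    have := toFrac_ne_zero xyz_ne_zero
    have := toFrac_ne_zero hb0
    field_simp

lemma incl_injective : Function.Injective incl := incl.injective

/-- The underlying map. -/
def thetaFun (s : FunField) : FunField := ⟨(toFrac xyz)⁻¹ * derK (incl s), isRatFun_theta s.2⟩

lemma incl_thetaFun (s : FunField) : incl (thetaFun s) = (toFrac xyz)⁻¹ * derK (incl s) := rfl

lemma incl_algebraMap (c : ℂ) : incl (algebraMap ℂ FunField c) = toFrac (C c) := rfl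

/-- The underlying linear map. -/
def thetaLin : FunField →ₗ[ℂ] FunField where
  toFun := thetaFun
  map_add' := fun s t => incl_injective (by
    rw [map_add, incl_thetaFun, incl_thetaFun, incl_thetaFun, map_add, map_add, mul_add])
  map_smul' := fun c s => incl_injective (by
    rw [RingHom.id_apply, Algebra.smul_def, Algebra.smul_def, map_mul, incl_thetaFun,
      incl_thetaFun, map_mul, incl_algebraMap, Derivation.leibniz, derK_toFrac, der0_C, map_zero,
      smul_zero, add_zero, smul_eq_mul]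
    ring)

lemma incl_thetaLin (s : FunField) : incl (thetaLin s) = (toFrac xyz)⁻¹ * derK (incl s) := rfl

/-- The rational vector field `(X₀⁴ ∂₀ + X₁⁴ ∂₁ + X₂⁴ ∂₂) / (X₀ X₁ X₂)`. -/
def theta : VecField where
  toLinearMap := thetaLin
  map_one_eq_zero' := incl_injective (by
    rw [incl_thetaLin, map_one, map_zero, Derivation.map_one_eq_zero, mul_zero])
  leibniz' := fun s t => incl_injective (by
    change incl (thetaLin (s * t)) = incl (s * thetaLin t + t * thetaLin s)
    rw [map_add incl, map_mul incl, map_mul incl, incl_thetaLin, incl_thetaLin,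
      incl_thetaLin, map_mul incl, Derivation.leibniz, smul_eq_mul, smul_eq_mul]
    ring)

lemma incl_theta (s : FunField) : incl (theta s) = (toFrac xyz)⁻¹ * derK (incl s) := rfl

/-- The value on a quotient of forms. -/
lemma incl_theta_div {s : FunField} {a b : CoordRing ℂ} (hs : incl s = toFrac a / toFrac b)
    (hb : b ≠ 0) : incl (theta s) =
      toFrac (b * der0 a - a * der0 b) / toFrac (b ^ 2 * xyz) := by
  rw [incl_theta, hs, derK_div a b, map_mul, map_pow]
  have h1 := toFrac_ne_zero xyz_ne_zero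
  have h2 := toFrac_ne_zero hb
  field_simp

lemma contr_theta : contr (incl (theta coordA)) (incl (theta coordB)) = (toFrac xyz)⁻¹ := by
  have hA := incl_theta_div (s := coordA) (a := X 0) (b := X 2) rfl (X_ne_zero 2)
  have hB := incl_theta_div (s := coordB) (a := X 1) (b := X 2) rfl (X_ne_zero 2)
  rw [hA, hB, contr]
  simp only [der0_X]
  have hQ := toFrac_ne_zero (arrQ_ne_zero (k := ℂ))
  have h0 : toFrac (X 0 : CoordRing ℂ) ≠ 0 := toFrac_ne_zero (X_ne_zero 0)
  have h1 : toFrac (X 1 : CoordRing ℂ) ≠ 0 := toFrac_ne_zero (X_ne_zero 1)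
  have h2 : toFrac (X 2 : CoordRing ℂ) ≠ 0 := toFrac_ne_zero (X_ne_zero 2)
  rw [div_eq_iff hQ]
  simp only [xyz, arrQ, map_mul, map_sub, map_pow]
  field_simp
  ring

end

end Pool.Agent.Lib.MP_ee7b66_ag.Hes
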