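import Mathlib
import Pool.Agent.Lib.MP_ee7b66_ag.Mg.G002

/-!
# Non-vanishing of the second cohomology of a subsheaf of a constant sheaf

Let `F`, `G` be the subsheaves with stalks `M x`, `N x` of the constant sheaves `K`, `L` on an
irreducible space, and let `c : K → L` map `F` to `G`. If three open sets cover the space, the
Cousin problem for `G` is solvable on each of them, and `t` is a section of `F` over their
intersection such that `c t` is not a sum of sections of `G` over the pairwise intersections, then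
`H²(F) ≠ 0`.
-/

open CategoryTheory TopologicalSpace Opposite Abelian

universe u

namespace Pool.Agent.Lib.MP_ee7b66_ag.Hes

open Pool.Agent.Lib.MP_8481ed_ag

noncomputable section

lemma subsingleton_H1_quot {X : TopCat.{u}} [PreirreducibleSpace X] {K : Type u} [AddCommGroup K]
    (M : X → AddSubgroup K) (h : Subsingleton (Sheaf.H (constSub X M).sheaf 2)) :
    Subsingleton (Sheaf.H (quotPred X M).sheaf 1) := by
  have hS := sc_shortExact X M
  have h1 : Subsingleton (Sheaf.H (sc X M).X₁ 2) := h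
  have h2 : Subsingleton (Sheaf.H (sc X M).X₂ 1) :=
    subsingleton_H1_of_flasque _ (flasque_const X K)
  refine subsingleton_of_forall_eq 0 fun x3 => ?_
  have hx : Ext.comp x3 hS.extClass (rfl : 1 + 1 = 2) = 0 :=
    Subsingleton.elim (α := Sheaf.H (sc X M).X₁ 2) _ _
  obtain ⟨x2, hx2⟩ := Ext.covariant_sequence_exact₃ _ hS x3 rfl hx
  rw [← hx2, Subsingleton.elim (α := Sheaf.H (sc X M).X₂ 1) x2 0]
  simp only [Ext.zero_comp]
  rfl

variable {X : Type u} [TopologicalSpace X] [PreirreducibleSpace X]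

/-- **Non-vanishing of the second cohomology.** -/
theorem nontrivial_cohomology_two {K L : Type u} [AddCommGroup K] [AddCommGroup L]
    (M : X → AddSubgroup K) (N : X → AddSubgroup L) (c : K →+ L)
    (hc : ∀ x, ∀ s ∈ M x, c s ∈ N x) (U : Fin 3 → Set X) (hU : ∀ i, IsOpen (U i))
    (hcov : ∀ x, ∃ i, x ∈ U i)
    (hcous : ∀ i, ∀ d : X → L,
      (∀ x ∈ U i, ∃ V : Set X, IsOpen V ∧ x ∈ V ∧ ∀ y ∈ V, d y - d x ∈ N y) →
      ∃ f : L, ∀ x ∈ U i, f - d x ∈ N x)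
    (t : K) (ht : ∀ x, x ∈ U 0 → x ∈ U 1 → x ∈ U 2 → t ∈ M x)
    (hne : ∀ a b e : L, (∀ x, x ∈ U 0 → x ∈ U 1 → a ∈ N x) → (∀ x, x ∈ U 1 → x ∈ U 2 → b ∈ N x) →
      (∀ x, x ∈ U 0 → x ∈ U 2 → e ∈ N x) → c t ≠ a + b + e) :
    Nontrivial (cohomology M 2) := by
  classical
  by_contra hcon
  have hsub : Subsingleton (Sheaf.H (sheafOf M) 2) := not_nontrivial_iff_subsingleton.1 hcon
  rw [(cohomologyEquiv M 2).subsingleton_congr] at hsub
  have hQ := subsingleton_H1_quot (X := TopCat.of X) M hsub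
  let A : Opens (TopCat.of X) := ⟨U 0 ∪ U 1, (hU 0).union (hU 1)⟩
  let B : Opens (TopCat.of X) := ⟨U 2, hU 2⟩
  have hAB : A ⊔ B = ⊤ := by
    ext x
    constructor
    · intro _
      trivial
    · intro _
      obtain ⟨i, hi⟩ := hcov x
      fin_cases i
      · exact Or.inl (Or.inl hi)
      · exact Or.inl (Or.inr hi)
      · exact Or.inr hi
  let q : ∀ x : (A ⊓ B : Opens (TopCat.of X)), K ⧸ M x.1 := fun x =>
    if x.1 ∈ U 0 then QuotientAddGroup.mk t else 0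
  have hq0 : ∀ x : (A ⊓ B : Opens (TopCat.of X)), x.1 ∈ U 1 → q x = 0 := by
    intro x hx
    by_cases h0 : x.1 ∈ U 0
    · have : q x = QuotientAddGroup.mk t := if_pos h0
      rw [this]
      exact (QuotientAddGroup.eq_zero_iff _).2 (ht x.1 h0 hx x.2.2)
    · exact if_neg h0
  have hq : (quotPred (TopCat.of X) M).pred q := by
    intro x
    by_cases h0 : x.1 ∈ U 0
    · refine ⟨⟨U 0 ∩ U 2, (hU 0).inter (hU 2)⟩, ⟨h0, x.2.2⟩,
        homOfLE (fun y hy => ⟨Or.inl hy.1, hy.2⟩), t, fun y => if_pos y.2.1⟩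
    · have h1 : x.1 ∈ U 1 := x.2.1.resolve_left h0
      refine ⟨⟨U 1 ∩ U 2, (hU 1).inter (hU 2)⟩, ⟨h1, x.2.2⟩,
        homOfLE (fun y hy => ⟨Or.inr hy.1, hy.2⟩), 0, fun y => ?_⟩
      exact hq0 _ y.2.1
  obtain ⟨α, β, hα, hβ, hαβ⟩ := exists_sub_of_subsingleton_H1 (X := TopCat.of X) _ hQ A B hAB q hq
  choose V hV i k hk using hα
  choose V' hV' i' k' hk' using hβ
  -- the Cousin data
  let d : X → L := fun x => if hx : x ∈ A then c (k ⟨x, hx⟩) else 0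
  let d' : X → L := fun x => if hx : x ∈ B then c (k' ⟨x, hx⟩) else 0
  have hd : ∀ (x : X) (hx : x ∈ A), d x = c (k ⟨x, hx⟩) := fun x hx => dif_pos hx
  have hd' : ∀ (x : X) (hx : x ∈ B), d' x = c (k' ⟨x, hx⟩) := fun x hx => dif_pos hx
  have hloc : ∀ x ∈ A, ∃ W : Set X, IsOpen W ∧ x ∈ W ∧ ∀ y ∈ W, d y - d x ∈ N y := by
    intro x hx
    refine ⟨V ⟨x, hx⟩, (V ⟨x, hx⟩).2, hV _, fun y hy => ?_⟩
    have hyA : y ∈ A := leOfHom (i ⟨x, hx⟩) hy
    rw [hd x hx, hd y hyA, ← map_sub]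
    apply hc
    rw [← QuotientAddGroup.eq_iff_sub_mem]
    have h1 := hk ⟨x, hx⟩ ⟨y, hy⟩
    have h2 := hk ⟨y, hyA⟩ ⟨y, hV _⟩
    exact h2.symm.trans h1
  have hloc' : ∀ x ∈ B, ∃ W : Set X, IsOpen W ∧ x ∈ W ∧ ∀ y ∈ W, d' y - d' x ∈ N y := by
    intro x hx
    refine ⟨V' ⟨x, hx⟩, (V' ⟨x, hx⟩).2, hV' _, fun y hy => ?_⟩
    have hyB : y ∈ B := leOfHom (i' ⟨x, hx⟩) hy
    rw [hd' x hx, hd' y hyB, ← map_sub]
    apply hc
    rw [← QuotientAddGroup.eq_iff_sub_mem]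
    have h1 := hk' ⟨x, hx⟩ ⟨y, hy⟩
    have h2 := hk' ⟨y, hyB⟩ ⟨y, hV' _⟩
    exact h2.symm.trans h1
  obtain ⟨g0, hg0⟩ := hcous 0 d (fun x hx => hloc x (Or.inl hx))
  obtain ⟨g1, hg1⟩ := hcous 1 d (fun x hx => hloc x (Or.inr hx))
  obtain ⟨g2, hg2⟩ := hcous 2 d' (fun x hx => hloc' x hx)
  have hmk : ∀ (x : X) (hA : x ∈ A) (hB : x ∈ B),
      (q ⟨x, hA, hB⟩ : K ⧸ M x) = QuotientAddGroup.mk (k ⟨x, hA⟩ - k' ⟨x, hB⟩) := by
    intro x hA hB
    rw [hαβ ⟨x, hA, hB⟩]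
    have h1 := hk ⟨x, hA⟩ ⟨x, hV _⟩
    have h2 := hk' ⟨x, hB⟩ ⟨x, hV' _⟩
    have h1' : α ⟨x, hA⟩ = QuotientAddGroup.mk (k ⟨x, hA⟩) := h1
    have h2' : β ⟨x, hB⟩ = QuotientAddGroup.mk (k' ⟨x, hB⟩) := h2
    rw [h1', h2']
    rfl
  refine hne (g0 - g1) (g1 - g2) (c t - (g0 - g2)) ?_ ?_ ?_ (by abel)
  · intro x h0 h1
    have := (N x).sub_mem (hg0 x h0) (hg1 x h1)
    rwa [sub_sub_sub_cancel_right] at this
  · intro x h1 h2
    have hA : x ∈ A := Or.inr h1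
    have hB : x ∈ B := h2
    have e1 := hmk x hA hB
    rw [hq0 ⟨x, hA, hB⟩ h1] at e1
    have e2 : k ⟨x, hA⟩ - k' ⟨x, hB⟩ ∈ M x := (QuotientAddGroup.eq_zero_iff _).1 e1.symm
    have e3 := hc x _ e2
    rw [map_sub, ← hd x hA, ← hd' x hB] at e3
    have e4 := (N x).add_mem ((N x).sub_mem (hg1 x h1) (hg2 x h2)) e3
    convert e4 using 1
    abel
  · intro x h0 h2
    have hA : x ∈ A := Or.inl h0
    have hB : x ∈ B := h2
    have e1 := hmk x hA hB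
    have e0 : (q ⟨x, hA, hB⟩ : K ⧸ M x) = QuotientAddGroup.mk t := if_pos h0
    rw [e0, QuotientAddGroup.eq_iff_sub_mem] at e1
    have e3 := hc x _ e1
    rw [map_sub, map_sub, ← hd x hA, ← hd' x hB] at e3
    have e4 := (N x).sub_mem e3 ((N x).sub_mem (hg0 x h0) (hg2 x h2))
    convert e4 using 1
    abel

end

end Pool.Agent.Lib.MP_ee7b66_ag.Hes
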