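import Mathlib
import Pool.Agent.Lib.MP_ee7b66_ag.Mg.G004
import Pool.Agent.Lib.MP_ee7b66_ag.Mg.G001
import Pool.Agent.Lib.MP_ee7b66_ag.SheafH2

/-!
# `H²(V, Θ_V⟨D⟩) ≠ 0`
-/

open scoped LinearAlgebra.Projectivization
open TopologicalSpace MvPolynomial

namespace Pool.Agent.Lib.MP_ee7b66_ag.Hes

open Pool.Agent.Lib.MP_8481ed_ag

noncomputable section

/-- The set of points of the blow-up over the affine plane `X_c ≠ 0` is open. -/
lemma isOpen_X_ne {r : ℕ} {p : Fin r → Plane ℂ} (c : Fin 3) :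
    IsOpen {x : BlowUp p | eval x.vec (X c : CoordRing ℂ) ≠ 0} := by
  have key : {x : BlowUp p | eval x.vec (X c : CoordRing ℂ) ≠ 0} =
      ⋂ j : Fin 3, {y | toFrac (X j) / toFrac (X c) ∈ stalk p 0 0 y} := by
    ext y
    simp only [Set.mem_ofPred_eq, Set.mem_iInter]
    constructor
    · intro hy j
      change IsRegularAt p 0 0 y _
      rw [isRegularAt_iff]
      refine ⟨1, 1, 0, X j, X c, isHomogeneous_X ℂ j, isHomogeneous_X ℂ c, by simp, ?_,
        by simp, ?_, rfl⟩
      · have : (((0 : ℕ) : ℤ) + y.mlt (0 : Fin r → ℤ)).toNat = 0 := by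
          cases y <;> simp [BlowUp.mlt]
        rw [this]
        simp
      · rw [y.lead_zero]
        exact hy
    · intro hall hy0
      obtain ⟨j, hj⟩ := exists_linear_ne_zero y.vec y.vec_ne_zero
      have hy' : IsRegularAt p 0 0 y (toFrac (X j) / toFrac (X c)) := hall j
      rw [isRegularAt_iff] at hy'
      obtain ⟨n, e, μ, a, b, ha, hb, hn, haI, hbI, hbl, hab⟩ := hy'
      have h1 : toFrac (X j * b) = toFrac (X c * a) := by
        have h2 : toFrac (X c : CoordRing ℂ) ≠ 0 := toFrac_ne_zero (X_ne_zero c)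
        have h3 := toFrac_ne_zero (y.ne_zero_of_lead hbl)
        rw [map_mul, map_mul]
        rw [div_eq_div_iff h2 h3] at hab
        rw [hab]
        ring
      have h4 := toFrac_injective h1
      have h5 : y.lead (0 + μ) (X j * b) = y.lead (0 + μ) (X c * a) := by rw [h4]
      have haI' : a ∈ y.idl ^ μ := by
        have : ((μ : ℤ) + y.mlt (0 : Fin r → ℤ)).toNat = μ := by
          cases y <;> simp [BlowUp.mlt]
        rwa [this] at haI
      rw [y.lead_mul (by simp) hbI, y.lead_mul (by simp) haI', y.lead_zero, y.lead_zero,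
        hy0, zero_mul] at h5
      exact mul_ne_zero hj hbl h5
  rw [key]
  exact isOpen_iInter_of_finite fun j => isOpen_generateFrom_of_mem ⟨_, rfl⟩

/-- The Cousin problem for the canonical bundle over the affine plane `X_c ≠ 0`. -/
lemma cousin_X (c : Fin 3) (d : BlowUp hp → Frac ℂ)
    (hd : ∀ x : BlowUp hp, eval x.vec (X c : CoordRing ℂ) ≠ 0 → ∃ V : Set (BlowUp hp), IsOpen V ∧
      x ∈ V ∧ ∀ y ∈ V, d y - d x ∈ stalk hp (-3) (fun _ => -1) y) :
    ∃ f : Frac ℂ, ∀ x : BlowUp hp, eval x.vec (X c : CoordRing ℂ) ≠ 0 →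
      f - d x ∈ stalk hp (-3) (fun _ => -1) x := by
  have h3 : (3 : ℂ) ≠ 0 := by norm_num
  have hex : ∀ c : Fin 3, ∃ a b : Fin 3, a ≠ b ∧ a ≠ c ∧ b ≠ c := by decide
  obtain ⟨a, b, hab, hac, hbc⟩ := hex c
  exact (hessePencil h3 hesse_hp a b c hab hac hbc).solve_affinePlane (-3) d hd

end

end Pool.Agent.Lib.MP_ee7b66_ag.Hes

namespace Pool.Agent.Lib.MP_ee7b66_ag

open Pool.Agent.Lib.MP_8481ed_ag Hes

/-- **The second cohomology group of the logarithmic tangent sheaf is not zero.** -/
theorem nontrivial_H2 : Nontrivial (logTangentCohomology hp hD 2) := by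
  refine nontrivial_cohomology_two (logTangent hp hD) (stalk hp (-3) (fun _ => -1)) contrHom
    (fun x s hs => contr_mem hs)
    (fun c => {x : BlowUp hp | eval x.vec (X c : CoordRing ℂ) ≠ 0})
    (fun c => isOpen_X_ne c) ?_ ?_ theta ?_ ?_
  · intro x
    exact exists_linear_ne_zero x.vec x.vec_ne_zero
  · intro c d hd
    exact cousin_X c d hd
  · intro x h0 h1 h2
    refine theta_log x ?_
    rw [xyz, map_mul, map_mul]
    exact mul_ne_zero (mul_ne_zero h0 h1) h2
  · intro a b e ha hb he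
    rw [contrHom_theta]
    refine not_sum hesse_hp (-3) (fun _ => -1) a b e ?_ ?_ ?_
    · intro q hq h0 h1
      exact ha (.away q hq) (by simpa [BlowUp.vec] using h0) (by simpa [BlowUp.vec] using h1)
    · intro q hq h1 h2
      exact hb (.away q hq) (by simpa [BlowUp.vec] using h1) (by simpa [BlowUp.vec] using h2)
    · intro q hq h0 h2
      exact he (.away q hq) (by simpa [BlowUp.vec] using h0) (by simpa [BlowUp.vec] using h2)

end Pool.Agent.Lib.MP_ee7b66_ag
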