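import Mathlib
import Pool.Agent.Lib.MP_ee7b66_ag.Mg.G006
import Pool.Agent.Lib.MP_ee7b66_ag.H.Jac

/-!
# The logarithmic Kodaira dimension of the dual Hesse surface is two

`3 (K + D) = 2 (ℓ₁ + … + ℓ₈) + 2 H + E₀ + E₁ + E₂ + E₃`, where `ℓ₁, …, ℓ₈` are the lines different
from `X₀ = X₁`: for the forms `h` of degree two
`X₂ ^ 9 h / (ℓ₀ ^ 3 ℓ₁ ⋯ ℓ₈) (da ∧ db) ^ 3` is a section of `𝒪(3 (K + D))`.
-/

open scoped LinearAlgebra.Projectivization
open Pool.Agent.Lib.MP_8481ed_ag TopologicalSpace MvPolynomial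

namespace Pool.Agent.Lib.MP_ee7b66_ag

noncomputable section

/-- The linear form `X₂`. -/
def e₂ : Fin 3 → ℂ := ![0, 0, 1]

/-- The linear form `X₀`. -/
def e₀ : Fin 3 → ℂ := ![1, 0, 0]

/-- The linear form `X₁`. -/
def e₁ : Fin 3 → ℂ := ![0, 1, 0]

lemma e₂_ne : e₂ ≠ 0 := fun h => by
  have := congrFun h 2
  simp [e₂] at this

lemma lform_e₀ : lform e₀ = X 0 := by
  simp [lform, e₀, Fin.sum_univ_three]

lemma lform_e₁ : lform e₁ = X 1 := by
  simp [lform, e₁, Fin.sum_univ_three]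

lemma lform_e₂ : lform e₂ = X 2 := by
  simp [lform, e₂, Fin.sum_univ_three]

lemma lq_e₀ : lq e₀ e₂ = coordA := by
  apply Subtype.ext
  change toFrac (lform e₀) / toFrac (lform e₂) = toFrac (X 0) / toFrac (X 2)
  rw [lform_e₀, lform_e₂]

lemma lq_e₁ : lq e₁ e₂ = coordB := by
  apply Subtype.ext
  change toFrac (lform e₁) / toFrac (lform e₂) = toFrac (X 1) / toFrac (X 2)
  rw [lform_e₁, lform_e₂]

lemma lq_e₂_eq (c : Fin 3 → ℂ) : lq c e₂ = algebraMap ℂ FunField (c 0) * coordA +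
    algebraMap ℂ FunField (c 1) * coordB + algebraMap ℂ FunField (c 2) := by
  have h1 : c = c 0 • e₀ + c 1 • e₁ + c 2 • e₂ := by
    funext i
    fin_cases i <;> simp [e₀, e₁, e₂]
  conv_lhs => rw [h1]
  rw [lq_add, lq_add, lq_smul, lq_smul, lq_smul, lq_e₀, lq_e₁, lq_self e₂_ne, mul_one]

lemma lq_div_lq {c m : Fin 3 → ℂ} (hm : m ≠ 0) : lq c m = lq c e₂ / lq m e₂ := by
  have h1 : lq m e₂ ≠ 0 := lq_ne_zero hm e₂_ne
  rw [eq_div_iff h1, lq_mul hm]

/-- The area form in terms of a frame. -/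
lemma area_frame (F : Frame) (δ δ' : VecField) :
    jac δ δ' (lq (F.c 1) (F.c 0)) (lq (F.c 2) (F.c 0)) * lq (F.c 0) e₂ ^ 3 =
      algebraMap ℂ FunField F.c.det * area δ δ' := by
  have h0 : lq (F.c 0) e₂ ≠ 0 := lq_ne_zero (F.row_ne_zero 0) e₂_ne
  rw [lq_div_lq (F.row_ne_zero 0) (c := F.c 1), lq_div_lq (F.row_ne_zero 0) (c := F.c 2),
    lq_e₂_eq (F.c 1), lq_e₂_eq (F.c 2),
    jac_frame δ δ' coordA coordB _ _ _ _ _ _ _ _ _ _ (lq_e₂_eq (F.c 0)) h0,
    Matrix.det_fin_three]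
  congr 2
  ring

/-- The exponents of the nine lines in the denominator. -/
def ee (j : Fin 9) : ℕ := if j = 0 then 3 else 1

/-- `X₂ ^ 11 / (ℓ₀ ^ 3 ℓ₁ ⋯ ℓ₈)`. -/
def kodF : FunField := ∏ j, lq e₂ (lvec j) ^ ee j

lemma kodF_ne_zero : kodF ≠ 0 :=
  Finset.prod_ne_zero_iff.2 fun j _ => pow_ne_zero _ (lq_ne_zero e₂_ne (lvec_ne_zero j))

lemma section_eq (F : Frame) (g : Fin 3 → ℂ) (δ δ' : VecField) :
    kodF * lq g e₂ * area δ δ' ^ 3 = (algebraMap ℂ FunField (F.c.det)⁻¹) ^ 3 *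
      (lq e₂ (F.c 0) * lq g (F.c 0)) *
      (jac δ δ' (lq (F.c 1) (F.c 0)) (lq (F.c 2) (F.c 0)) ^ 3 *
        ∏ j, (lq (lvec j) (F.c 0))⁻¹ ^ ee j) := by
  have hM := F.row_ne_zero 0
  have h0 : lq (F.c 0) e₂ ≠ 0 := lq_ne_zero hM e₂_ne
  have hD : algebraMap ℂ FunField F.c.det ≠ 0 := by
    rw [Ne, map_eq_zero]
    exact F.det_ne
  have hA := area_frame F δ δ'
  have h1 : lq e₂ (F.c 0) = (lq (F.c 0) e₂)⁻¹ := by
    refine eq_inv_of_mul_eq_one_left ?_
    rw [lq_mul hM, lq_self e₂_ne]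
  have h2 : lq g e₂ = lq g (F.c 0) * lq (F.c 0) e₂ := by rw [lq_mul hM]
  have h3 : ∀ j, lq e₂ (lvec j) = (lq (F.c 0) e₂)⁻¹ * (lq (lvec j) (F.c 0))⁻¹ := by
    intro j
    have h4 : lq (lvec j) (F.c 0) ≠ 0 := lq_ne_zero (lvec_ne_zero j) hM
    rw [← h1, eq_mul_inv_iff_mul_eq₀ h4, lq_mul (lvec_ne_zero j)]
  have h4 : kodF = (lq (F.c 0) e₂)⁻¹ ^ 11 * ∏ j, (lq (lvec j) (F.c 0))⁻¹ ^ ee j := by
    unfold kodF
    have h5 : ∑ j, ee j = 11 := by decide
    rw [← h5, ← Finset.prod_pow_eq_pow_sum, ← Finset.prod_mul_distrib]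
    refine Finset.prod_congr rfl fun j _ => ?_
    rw [h3, mul_pow]
  have h5 : area δ δ' = (algebraMap ℂ FunField F.c.det)⁻¹ *
      (jac δ δ' (lq (F.c 1) (F.c 0)) (lq (F.c 2) (F.c 0)) * lq (F.c 0) e₂ ^ 3) := by
    rw [hA]
    field_simp
  rw [h4, h5, h2, h1, map_inv₀]
  generalize (∏ j, (lq (lvec j) (F.c 0))⁻¹ ^ ee j) = π
  field_simp

variable {x : BlowUp hp}

lemma Reg.pow {r : ℕ} {p : Fin r → Plane ℂ} {x : BlowUp p} {s : FunField} (hs : Reg p x s)
    (n : ℕ) : Reg p x (s ^ n) := by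
  induction n with
  | zero => rw [pow_zero]; exact Reg.one x
  | succ n ih => rw [pow_succ]; exact ih.mul hs

lemma Reg.prod {r : ℕ} {p : Fin r → Plane ℂ} {x : BlowUp p} {ι : Type*} (S : Finset ι)
    (s : ι → FunField) (hs : ∀ i ∈ S, Reg p x (s i)) : Reg p x (∏ i ∈ S, s i) := by
  classical
  induction S using Finset.induction_on with
  | empty => rw [Finset.prod_empty]; exact Reg.one x
  | insert i S hi ih =>
    rw [Finset.prod_insert hi]
    exact (hs i (Finset.mem_insert_self i S)).mul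
      (ih fun j hj => hs j (Finset.mem_insert_of_mem hj))

lemma Reg.const {r : ℕ} {p : Fin r → Plane ℂ} (x : BlowUp p) (c : ℂ) :
    Reg p x (algebraMap ℂ FunField c) := (Val.const x c).reg

lemma Reg.sub {r : ℕ} {p : Fin r → Plane ℂ} {x : BlowUp p} {s t : FunField} (hs : Reg p x s)
    (ht : Reg p x t) : Reg p x (s - t) := by
  rw [sub_eq_add_neg]
  exact hs.add ht.neg

/-- The key estimate: poles along the line through the point are compensated. -/
lemma key_reg {J v : FunField} (ρ : Fin 9 → FunField) (hJ : Reg hp x J) (hv : Reg hp x v)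
    (hv0 : v ≠ 0) (h : (∀ j, Reg hp x (ρ j)⁻¹) ∨ ∃ j₀, ρ j₀ = v ∧ (∀ j, j ≠ j₀ → Reg hp x (ρ j)⁻¹) ∧
      ∃ G, Reg hp x G ∧ J = G * v) : Reg hp x (J ^ 3 * ∏ j, (ρ j)⁻¹ ^ ee j) := by
  rcases h with h | ⟨j₀, h0, h, G, hG, rfl⟩
  · exact (hJ.pow 3).mul (Reg.prod _ _ fun j _ => (h j).pow _)
  · rw [← Finset.mul_prod_erase Finset.univ _ (Finset.mem_univ j₀), ← mul_assoc]
    refine Reg.mul ?_ (Reg.prod _ _ fun j hj => (h j (Finset.ne_of_mem_erase hj)).pow _)
    rw [h0]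
    unfold ee
    split_ifs
    · have : (G * v) ^ 3 * v⁻¹ ^ 3 = G ^ 3 := by
        field_simp
      rw [this]
      exact hG.pow 3
    · have : (G * v) ^ 3 * v⁻¹ ^ 1 = G ^ 3 * v ^ 2 := by
        field_simp
      rw [this]
      exact (hG.pow 3).mul (hv.pow 2)

lemma det_inv_reg (x : BlowUp hp) (c : ℂ) : Reg hp x ((algebraMap ℂ FunField c⁻¹) ^ 3) :=
  (Reg.const x _).pow 3

/-- The multiplicity of the denominator at the twelve points. -/
lemma exp_eq (k : Fin 12) :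
    (∑ j, (if inc k j = true then 1 else 0) * ee j) = if k.1 < 4 then 5 else 3 := by
  revert k
  decide

theorem isLogCanonical_kod (g : Fin 3 → ℂ) : IsLogCanonical hp hD 3 (kodF * lq g e₂) := by
  intro x δ δ' hδ hδ'
  cases x with
  | away q hq =>
    obtain ⟨F, C, hF1, hF2, hF0, hCu, hCv, hx, h0, hc, hlog⟩ := loc_away q hq
    obtain ⟨hu, hv, hll⟩ := hlog δ hδ
    obtain ⟨hu', hv', hll'⟩ := hlog δ' hδ'
    rw [section_eq F g δ δ']
    refine ((det_inv_reg _ _).mul (((val_lq_away q hq _ _ hF0).reg).mul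
      ((val_lq_away q hq _ _ hF0).reg))).mul ?_
    rw [← hCu, ← hCv]
    refine key_reg (v := C.v) (fun j => lq (lvec j) (F.c 0)) ?_ (C.val_v _ hx).reg ?_ ?_
    · exact (hu.mul hv').sub (hv.mul hu')
    · rw [hCv]
      exact lq_ne_zero (F.row_ne_zero 2) (F.row_ne_zero 0)
    · have hreg : ∀ j, lin (lvec j) q.rep ≠ 0 → Reg hp (.away q hq) (lq (lvec j) (F.c 0))⁻¹ := by
        intro j hj
        exact ((val_lq_away q hq (lvec j) (F.c 0) hF0).inv (div_ne_zero hj hF0)).reg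
      by_cases hex : ∃ j, lin (lvec j) q.rep = 0
      · obtain ⟨j₀, hj₀⟩ := hex
        right
        refine ⟨j₀, by rw [hCv, hc j₀ hj₀], fun j hj => hreg j fun hj' => hj ?_, ?_⟩
        · by_contra hne
          obtain ⟨i, hi⟩ := exists_hp hne ((submodule_le_lker q _).2 hj')
            ((submodule_le_lker q _).2 hj₀)
          exact hq i hi
        · obtain ⟨f, hf, hf1⟩ := hll j₀ hj₀
          obtain ⟨f', hf', hf1'⟩ := hll' j₀ hj₀
          refine ⟨δ C.u * f' - f * δ' C.u, (hu.mul hf').sub (hf.mul hu'), ?_⟩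
          unfold jac
          rw [hf1, hf1']
          ring
      · left
        intro j
        exact hreg j fun hj => hex ⟨j, hj⟩
  | exc k L =>
    obtain ⟨F, C, hF1, hF2, hF0, hUd, hVd, hCu, hCv, hx, h0, hc, hlog⟩ := loc_exc k L
    obtain ⟨hu, hv, hk, hll⟩ := hlog δ hδ
    obtain ⟨hu', hv', hk', hll'⟩ := hlog δ' hδ'
    have hM := F.row_ne_zero 0
    have hU := F.row_ne_zero 1
    have hu0 : C.u ≠ 0 := by
      rw [hCu]
      exact lq_ne_zero hU hM
    rw [section_eq F g δ δ']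
    refine ((det_inv_reg _ _).mul (((val_lq_exc k L _ _ hF0).reg).mul
      ((val_lq_exc k L _ _ hF0).reg))).mul ?_
    have e1 : lq (F.c 2) (F.c 0) = C.u * C.v := by
      rw [hCu, hCv, mul_comm, lq_mul hU]
    rw [← hCu, e1, jac_mul]
    -- the functions `ρ j`
    let ρ : Fin 9 → FunField := fun j =>
      if inc k j = true then lq (lvec j) (F.c 1) else lq (lvec j) (F.c 0)
    have hρ : ∀ j, lq (lvec j) (F.c 0) = C.u ^ (if inc k j = true then 1 else 0) * ρ j := by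
      intro j
      simp only [ρ]
      split_ifs
      · rw [pow_one, hCu, mul_comm, lq_mul hU]
      · rw [pow_zero, one_mul]
    have hprod : ∏ j, (lq (lvec j) (F.c 0))⁻¹ ^ ee j =
        C.u⁻¹ ^ (∑ j, (if inc k j = true then 1 else 0) * ee j) * ∏ j, (ρ j)⁻¹ ^ ee j := by
      rw [← Finset.prod_pow_eq_pow_sum, ← Finset.prod_mul_distrib]
      refine Finset.prod_congr rfl fun j _ => ?_
      rw [hρ j, mul_inv, mul_pow, ← inv_pow, ← pow_mul]
    have hexp := exp_eq k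
    -- the divisibility of the Jacobian
    obtain ⟨A, A', hA, hA', hAA, hAA'⟩ : ∃ A A', Reg hp (.exc k L) A ∧ Reg hp (.exc k L) A' ∧
        δ C.u = A * C.u ^ (if k.1 < 4 then 1 else 0) ∧
        δ' C.u = A' * C.u ^ (if k.1 < 4 then 1 else 0) := by
      split_ifs with hk4
      · obtain ⟨f, hf, hf1⟩ := hk hk4
        obtain ⟨f', hf', hf1'⟩ := hk' hk4
        exact ⟨f, f', hf, hf', by rw [pow_one, hf1], by rw [pow_one, hf1']⟩
      · exact ⟨δ C.u, δ' C.u, hu, hu', by rw [pow_zero, mul_one], by rw [pow_zero, mul_one]⟩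
    have hjac : jac δ δ' C.u C.v = C.u ^ (if k.1 < 4 then 1 else 0) * (A * δ' C.v - δ C.v * A') := by
      unfold jac
      rw [hAA, hAA']
      ring
    rw [hprod, hexp, hjac]
    have e2 : (C.u * (C.u ^ (if k.1 < 4 then 1 else 0) * (A * δ' C.v - δ C.v * A'))) ^ 3 *
        (C.u⁻¹ ^ (if k.1 < 4 then 5 else 3) * ∏ j, (ρ j)⁻¹ ^ ee j) =
        C.u ^ (if k.1 < 4 then 1 else 0) *
          ((A * δ' C.v - δ C.v * A') ^ 3 * ∏ j, (ρ j)⁻¹ ^ ee j) := by
      generalize (∏ j, (ρ j)⁻¹ ^ ee j) = π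
      split_ifs
      · field_simp
      · field_simp
    rw [e2]
    refine ((C.val_u _ hx).reg.pow _).mul ?_
    refine key_reg (v := C.v) ρ ((hA.mul hv').sub (hv.mul hA')) (C.val_v _ hx).reg ?_ ?_
    · rw [hCv]
      exact lq_ne_zero (F.row_ne_zero 2) hU
    · have hreg : ∀ j, L.1 ≠ hl j → Reg hp (.exc k L) (ρ j)⁻¹ := by
        intro j hj
        simp only [ρ]
        split_ifs with hinc
        · have hjk : lin (lvec j) (hp k).rep = 0 := (lin_hp_rep k j).2 hinc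
          have hjd : lin (lvec j) L.dir ≠ 0 := fun h => hj ((eq_lker_iff L (lvec_ne_zero j) hjk).2 h)
          exact ((val_lq_exc' k L (lvec j) (F.c 1) hF1 hjk L.dir L.dir_mem hUd).inv
            (div_ne_zero hjd hUd)).reg
        · have hjk : lin (lvec j) (hp k).rep ≠ 0 := fun h => hinc ((lin_hp_rep k j).1 h)
          exact ((val_lq_exc k L (lvec j) (F.c 0) hF0).inv (div_ne_zero hjk hF0)).reg
      by_cases hex : ∃ j, L.1 = hl j
      · obtain ⟨j₀, hj₀⟩ := hex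
        right
        refine ⟨j₀, ?_, fun j hj => hreg j fun hj' => hj ?_, ?_⟩
        · have hinc : inc k j₀ = true := by
            rw [← hp_le_hl, ← hj₀]
            exact L.2.2
          simp only [ρ]
          rw [if_pos hinc, hCv, hc j₀ hj₀]
        · exact hl_injective (hj'.symm.trans hj₀)
        · obtain ⟨f, hf, hf1⟩ := hll j₀ hj₀
          obtain ⟨f', hf', hf1'⟩ := hll' j₀ hj₀
          refine ⟨A * f' - f * A', (hA.mul hf').sub (hf.mul hA'), ?_⟩
          rw [hf1, hf1']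
          ring
      · left
        intro j
        exact hreg j fun hj => hex ⟨j, hj⟩

/-- The coordinates of the plane are algebraically independent. -/
theorem algebraicIndependent_coord : AlgebraicIndependent ℂ ![coordA, coordB] := by
  obtain ⟨q, hq, hne⟩ := exists_away (p := hp) (MvPolynomial.X_ne_zero (R := ℂ) (2 : Fin 3))
    (isHomogeneous_X _ _)
  have hdet : (Matrix.of ![e₂, e₀, e₁] : Matrix (Fin 3) (Fin 3) ℂ).det ≠ 0 := by
    rw [Matrix.det_fin_three]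
    simp [e₀, e₁, e₂]
  let F : Frame := ⟨Matrix.of ![e₂, e₀, e₁], hdet⟩
  obtain ⟨n, h, hh, hk, hq0⟩ := exists_kills e₂ q hq
  let C := F.awayChart h hh hk
  have hx : (.away q hq : BlowUp hp) ∈ C.dom := by
    refine ⟨?_, hq0⟩
    change lin e₂ q.rep ≠ 0
    rw [← eval_lform, lform_e₂]
    exact hne
  have hinj := C.ev_injective (C.g_ne_zero hx)
  have e1 : C.u = coordA := lq_e₀
  have e2 : C.v = coordB := lq_e₁
  rw [algebraicIndependent_iff_injective_aeval]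
  unfold LChart.ev at hinj
  rw [e1, e2] at hinj
  exact hinj

/-- The logarithmic Kodaira dimension is two. -/
theorem isLogGeneralType : IsLogGeneralType hp hD := by
  refine ⟨3, kodF * lq e₂ e₂, kodF * lq e₀ e₂, kodF * lq e₁ e₂, by norm_num, ?_,
    isLogCanonical_kod _, isLogCanonical_kod _, isLogCanonical_kod _, ?_⟩
  · rw [lq_self e₂_ne, mul_one]
    exact kodF_ne_zero
  · rw [lq_self e₂_ne, mul_one, mul_div_cancel_left₀ _ kodF_ne_zero,
      mul_div_cancel_left₀ _ kodF_ne_zero, lq_e₀, lq_e₁]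
    exact algebraicIndependent_coord

end

end Pool.Agent.Lib.MP_ee7b66_ag
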