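import Mathlib
import Pool.Agent.Lib.MP_ee7b66_ag.Top.Deduce
import Pool.Agent.Lib.MP_ee7b66_ag.Top.Bridge
import Pool.Agent.Lib.MP_ee7b66_ag.G.FinC

/-!
# The surface is `ℚ`-acyclic
-/

open CategoryTheory
open scoped LinearAlgebra.Projectivization
open Pool.Agent.Lib.MP_8481ed_ag TopologicalSpace Topology

namespace Pool.Agent.Lib.MP_ee7b66_ag

noncomputable section

/-- The open surface `X` embeds in `YT` with image `D.X`. -/
lemma exists_embedding (D : Top.Model YT) (hD' : ∀ y : YT, y ∈ D.X ↔ ∀ j, y ∉ ell8 j) :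
    ∃ f : Surface hp hD → YT, IsEmbedding f ∧ Set.range f = D.X := by
  obtain ⟨e⟩ := exists_homeo
  refine ⟨fun x => (e x).1, IsEmbedding.subtypeVal.comp e.isEmbedding, ?_⟩
  ext y
  rw [hD']
  constructor
  · rintro ⟨x, rfl⟩
    exact (e x).2
  · intro hy
    exact ⟨e.symm ⟨y, hy⟩, congrArg Subtype.val (e.apply_symm_apply ⟨y, hy⟩)⟩

/-- **The surface `X` is `ℚ`-acyclic.** -/
theorem isQAcyclic : IsQAcyclic hp hD := by
  intro n hn
  obtain ⟨m, rfl⟩ : ∃ m, n = m + 1 := ⟨n - 1, by omega⟩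
  obtain ⟨D, hD'⟩ := exists_model
  obtain ⟨f, hf, hr⟩ := exists_embedding D hD'
  exact Top.isZero_singularHomology (Surface hp hD) m
    (Top.acyc_of_embedding hf hr (D.acyc m))

end

end Pool.Agent.Lib.MP_ee7b66_ag
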